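import Pool.Agent.Lib.MP_008109_al.PC.Spec
import Pool.Agent.Lib.MP_008109_al.AB.Central
import Pool.Agent.Lib.MP_008109_al.AB.Dsets

/-!
# Module BFX: back and forth with an extension hypothesis
-/

set_option autoImplicit false

universe u

namespace Pool.Agent.Lib.MP_008109_al.PC

open Pool.Agent.Lib.MP_008109_al Pool.Agent.Lib.MP_008109_al.AB
open scoped commutatorElement

namespace BFXM

variable {X : Type u} [Group X]

/-- A finite partial isomorphism from `(X, S)` to `(X, T)`, the identity on `F1` and modulo `M`. -/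
structure Fit (F1 M : Subgroup X) (S T : Set X) (A : Subgroup (X × X)) : Prop where
  fin : (A : Set (X × X)).Finite
  one : ∀ p ∈ A, p.1 = 1 ↔ p.2 = 1
  mem : ∀ p ∈ A, p.1 ∈ S ↔ p.2 ∈ T
  diag : ∀ x ∈ F1, (x, x) ∈ A
  quo : ∀ p ∈ A, p.1⁻¹ * p.2 ∈ M

/-- The extension hypothesis. -/
def Ext (F1 M : Subgroup X) : Prop :=
  ∀ A : Subgroup (X × X), (A : Set (X × X)).Finite → (∀ p ∈ A, p.1 = 1 ↔ p.2 = 1) →
      (∀ x ∈ F1, (x, x) ∈ A) → (∀ p ∈ A, p.1⁻¹ * p.2 ∈ M) →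
      ∀ x ∈ M, ∃ z ∈ M, ∀ p ∈ A, ⁅p.2, z⁆ = ⁅p.1, x⁆

/-- Adjoin one normalising element of order three. -/
def adj3 {G : Type u} [Group G] (A : Subgroup G) (q : G) (hq : ∀ p ∈ A, q * p * q⁻¹ ∈ A)
    (hq' : ∀ p ∈ A, q⁻¹ * p * q ∈ A) (h3 : q * q * q = 1) : Subgroup G where
  carrier := {p | p ∈ A ∨ p * q⁻¹ ∈ A ∨ p * q ∈ A}
  one_mem' := Or.inl A.one_mem
  mul_mem' := by
    have hqq : q * q = q⁻¹ := by
      rw [eq_inv_iff_mul_eq_one]
      exact h3
    rintro a b (ha | ha | ha) (hb | hb | hb)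
    · exact Or.inl (A.mul_mem ha hb)
    · right; left
      have := A.mul_mem ha hb
      rwa [← mul_assoc] at this
    · right; right
      have := A.mul_mem ha hb
      rwa [← mul_assoc] at this
    · right; left
      have := A.mul_mem ha (hq b hb)
      have e : a * q⁻¹ * (q * b * q⁻¹) = a * b * q⁻¹ := by group
      rwa [e] at this
    · right; right
      have := A.mul_mem ha (hq _ hb)
      have e : a * q⁻¹ * (q * (b * q⁻¹) * q⁻¹) = a * b * q⁻¹ * q⁻¹ := by group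
      have e2 : q⁻¹ * q⁻¹ = q := by rw [← mul_inv_rev, hqq, inv_inv]
      rw [e, mul_assoc (a * b), e2] at this
      exact this
    · left
      have := A.mul_mem ha (hq _ hb)
      have e : a * q⁻¹ * (q * (b * q) * q⁻¹) = a * b := by group
      rwa [e] at this
    · right; right
      have := A.mul_mem ha (hq' b hb)
      have e : a * q * (q⁻¹ * b * q) = a * b * q := by group
      rwa [e] at this
    · left
      have := A.mul_mem ha (hq' _ hb)
      have e : a * q * (q⁻¹ * (b * q⁻¹) * q) = a * b := by group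
      rwa [e] at this
    · right; left
      have := A.mul_mem ha (hq' _ hb)
      have e : a * q * (q⁻¹ * (b * q) * q) = a * b * (q * q) := by group
      rw [e, hqq] at this
      exact this
  inv_mem' := by
    rintro a (ha | ha | ha)
    · exact Or.inl (A.inv_mem ha)
    · right; right
      have := hq' _ (A.inv_mem ha)
      have e : q⁻¹ * (a * q⁻¹)⁻¹ * q = a⁻¹ * q := by group
      rwa [e] at this
    · right; left
      have := hq _ (A.inv_mem ha)
      have e : q * (a * q)⁻¹ * q⁻¹ = a⁻¹ * q⁻¹ := by group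
      rwa [e] at this

theorem comm_eq_inv (a b : X) : ⁅a, b⁆ = (⁅b, a⁆)⁻¹ := (commutatorElement_inv b a).symm

theorem fit_step [Infinite X] (M F1 : Subgroup X) (hMn : M.Normal) (hMi : M.index ≠ 0)
    (h3 : ∀ m ∈ M, m * m * m = 1) (hF1 : (F1 : Set X).Finite) (hcF : commutator X ≤ F1)
    (hext : Ext F1 M)
    (S T : Set X) (hS : StrongSpecial S) (hT : StrongSpecial T) (A : Subgroup (X × X))
    (hA : Fit F1 M S T A) (v : X) (hvM : v ∈ M) :
    ∃ A' : Subgroup (X × X), Fit F1 M S T A' ∧ A ≤ A' ∧ ∃ y, (v, y) ∈ A' := by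
  classical
  by_cases hv : ∃ y, (v, y) ∈ A
  · exact ⟨A, hA, le_rfl, hv⟩
  obtain ⟨hfin, h1, hm, hdg, hquo⟩ := hA
  obtain ⟨z0, hz0M, hz0⟩ := hext A hfin h1 hdg hquo v hvM
  -- the normal subgroup N
  have hcomm : (commutator X : Set X).Finite := hF1.subset hcF
  have hFC : FCc X = ⊤ := fcc_eq_top hcomm
  have hBfin : ((fun p : X × X => p.2) '' (A : Set (X × X))).Finite := hfin.image _
  have hCfi : (Subgroup.centralizer ((fun p : X × X => p.2) '' (A : Set (X × X)))).FiniteIndex :=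
    DstM.cent_finiteIndex hFC hBfin
  set C := Subgroup.centralizer ((fun p : X × X => p.2) '' (A : Set (X × X))) with hC
  have hMfi : M.FiniteIndex := ⟨hMi⟩
  let N : Subgroup X := (M ⊓ C).normalCore
  have hNM : ∀ n ∈ N, n ∈ M := fun n hn => (Subgroup.normalCore_le (M ⊓ C) hn).1
  have hNC : ∀ n ∈ N, ∀ p ∈ A, p.2 * n = n * p.2 := fun n hn p hp =>
    Subgroup.mem_centralizer_iff.1 (Subgroup.normalCore_le (M ⊓ C) hn).2 p.2 ⟨p, hp, rfl⟩
  have hNfi : N.FiniteIndex := inferInstance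
  let U : Finset X := (hfin.toFinset.filter (fun p => v * p.1 ∈ S)).image fun p => p.2⁻¹ * z0⁻¹
  let V : Finset X := (hfin.toFinset.filter (fun p => v * p.1 ∉ S)).image fun p => p.2⁻¹ * z0⁻¹
  have hinj : ∀ p ∈ A, ∀ q ∈ A, p.2 = q.2 → p.1 = q.1 := by
    intro p hp q hq h
    have hpq := A.mul_mem hp (A.inv_mem hq)
    have := (h1 _ hpq).2 (by simp [h])
    simpa [mul_inv_eq_one] using this
  have hdisj : Disjoint U V := by
    rw [Finset.disjoint_left]
    intro b hbU hbV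
    simp only [U, V, Finset.mem_image, Finset.mem_filter, Set.Finite.mem_toFinset,
      SetLike.mem_coe] at hbU hbV
    obtain ⟨p, ⟨hp, hpS⟩, rfl⟩ := hbU
    obtain ⟨q, ⟨hq, hqS⟩, hqp⟩ := hbV
    rw [hinj q hq p hp (inv_injective (mul_right_cancel hqp))] at hqS
    exact hqS hpS
  obtain ⟨n, hnN, hnU, hnV, hU, hV⟩ := CENM.ext_normal T hT N U V hdisj
  set z := n * z0 with hzdef
  have hzM : z ∈ M := M.mul_mem (hNM n hnN) hz0M
  have hz : ∀ p ∈ A, p.2 ≠ z := by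
    intro p hp hpz
    have hpn : p⁻¹ ∈ A := A.inv_mem hp
    have e : n = (p⁻¹).2⁻¹ * z0⁻¹ := by
      rw [Prod.snd_inv, inv_inv, hpz, hzdef, mul_inv_cancel_right]
    by_cases hc : v * (p⁻¹).1 ∈ S
    · apply hnU
      simp only [U, Finset.mem_image, Finset.mem_filter, Set.Finite.mem_toFinset, SetLike.mem_coe]
      exact ⟨p⁻¹, ⟨hpn, hc⟩, e.symm⟩
    · apply hnV
      simp only [V, Finset.mem_image, Finset.mem_filter, Set.Finite.mem_toFinset, SetLike.mem_coe]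
      exact ⟨p⁻¹, ⟨hpn, hc⟩, e.symm⟩
  have hzS : ∀ p ∈ A, (v * p.1 ∈ S ↔ z * p.2 ∈ T) := by
    intro p hp
    have e : n * (p.2⁻¹ * z0⁻¹)⁻¹ = z * p.2 := by
      rw [hzdef]; group
    by_cases hc : v * p.1 ∈ S
    · have : p.2⁻¹ * z0⁻¹ ∈ U := by
        simp only [U, Finset.mem_image, Finset.mem_filter, Set.Finite.mem_toFinset,
          SetLike.mem_coe]
        exact ⟨p, ⟨hp, hc⟩, rfl⟩
      have h := hU _ this
      rw [e] at h
      exact ⟨fun _ => h, fun _ => hc⟩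
    · have : p.2⁻¹ * z0⁻¹ ∈ V := by
        simp only [V, Finset.mem_image, Finset.mem_filter, Set.Finite.mem_toFinset,
          SetLike.mem_coe]
        exact ⟨p, ⟨hp, hc⟩, rfl⟩
      have h := hV _ this
      rw [e] at h
      exact ⟨fun h' => absurd h' hc, fun h' => absurd h' h⟩
  have hzc : ∀ p ∈ A, ⁅p.2, z⁆ = ⁅p.1, v⁆ := by
    intro p hp
    have hc : (⁅p.1, v⁆, ⁅p.1, v⁆) ∈ A := hdg _ (hcF (comm_mem p.1 v))
    have h5 : ⁅p.1, v⁆ * n = n * ⁅p.1, v⁆ := hNC n hnN _ hc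
    have h6 := hNC n hnN p hp
    have e : ⁅p.2, z⁆ = n * ⁅p.2, z0⁆ * n⁻¹ := by
      rw [hzdef]
      simp only [commutatorElement_def]
      have h7 : p.2 * (n * z0) * p.2⁻¹ * (n * z0)⁻¹ = (p.2 * n) * z0 * p.2⁻¹ * z0⁻¹ * n⁻¹ := by group
      rw [h7, h6]
      group
    rw [e, hz0 p hp, ← h5, mul_inv_cancel_right]
  have hq3 : ((v, z) : X × X) * (v, z) * (v, z) = 1 := by
    ext
    · exact h3 v hvM
    · exact h3 z hzM
  have hqi : ((v, z) : X × X) * (v, z) = ((v, z) : X × X)⁻¹ := by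
    rw [eq_inv_iff_mul_eq_one]
    exact hq3
  have hqn : ∀ p ∈ A, ((v, z) : X × X) * p * (v, z)⁻¹ ∈ A := by
    intro p hp
    have hc : (⁅v, p.1⁆, ⁅v, p.1⁆) ∈ A := hdg _ (hcF (comm_mem v p.1))
    have e : ((v, z) : X × X) * p * (v, z)⁻¹ = (⁅v, p.1⁆, ⁅v, p.1⁆) * p := by
      ext
      · simp only [Prod.fst_mul, Prod.fst_inv, commutatorElement_def]
        group
      · have h5 : ⁅z, p.2⁆ = ⁅v, p.1⁆ := by
          rw [comm_eq_inv z, comm_eq_inv v, hzc p hp]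
        simp only [Prod.snd_mul, Prod.snd_inv]
        rw [← h5]
        simp only [commutatorElement_def]
        group
    rw [e]
    exact A.mul_mem hc hp
  have hqn' : ∀ p ∈ A, ((v, z) : X × X)⁻¹ * p * (v, z) ∈ A := by
    intro p hp
    have h5 := hqn _ (hqn p hp)
    have e : ((v, z) : X × X) * ((v, z) * p * (v, z)⁻¹) * (v, z)⁻¹ =
        ((v, z) * (v, z)) * p * ((v, z) * (v, z))⁻¹ := by group
    rw [e, hqi, inv_inv] at h5
    exact h5
  have hsymS : ∀ s, s ∈ S ↔ s⁻¹ ∈ S := fun s =>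
    ⟨fun h => hS.1 s h, fun h => by simpa using hS.1 _ h⟩
  have hsymT : ∀ s, s ∈ T ↔ s⁻¹ ∈ T := fun s =>
    ⟨fun h => hT.1 s h, fun h => by simpa using hT.1 _ h⟩
  have hplus0 : ∀ p : X × X, p * (v, z)⁻¹ ∈ A → (p.1 ≠ 1 ∧ p.2 ≠ 1) := by
    intro p hp
    have hn := A.inv_mem hp
    constructor
    · intro h
      apply hv
      refine ⟨z * p.2⁻¹, ?_⟩
      have : (v, z * p.2⁻¹) = (p * (v, z)⁻¹)⁻¹ := by
        ext
        · simp [h]
        · simp
      rw [this]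
      exact hn
    · intro h
      apply hz _ hn
      simp [h]
  have hplusm : ∀ p : X × X, p * (v, z)⁻¹ ∈ A → (p.1 ∈ S ↔ p.2 ∈ T) := by
    intro p hp
    have h4 := hqn' _ hp
    have h5 := hzS _ h4
    have e1 : v * (((v, z) : X × X)⁻¹ * (p * (v, z)⁻¹) * (v, z)).1 = p.1 := by
      simp only [Prod.fst_mul, Prod.fst_inv]
      group
    have e2 : z * (((v, z) : X × X)⁻¹ * (p * (v, z)⁻¹) * (v, z)).2 = p.2 := by
      simp only [Prod.snd_mul, Prod.snd_inv]
      group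
    rw [e1, e2] at h5
    exact h5
  have hplusq : ∀ p : X × X, p * (v, z)⁻¹ ∈ A → p.1⁻¹ * p.2 ∈ M := by
    intro p hp
    have h5 := hquo _ hp
    have h6 := M.mul_mem (M.mul_mem (M.inv_mem hvM) h5) hzM
    have e : v⁻¹ * ((p * (v, z)⁻¹).1⁻¹ * (p * (v, z)⁻¹).2) * z = p.1⁻¹ * p.2 := by
      simp only [Prod.fst_mul, Prod.fst_inv, Prod.snd_mul, Prod.snd_inv]
      group
    rwa [e] at h6
  have hflip : ∀ p : X × X, p * (v, z) ∈ A → p⁻¹ * (v, z)⁻¹ ∈ A := by
    intro p hp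
    have h5 := hqn _ (A.inv_mem hp)
    have e : ((v, z) : X × X) * (p * (v, z))⁻¹ * (v, z)⁻¹ = p⁻¹ * (v, z)⁻¹ := by group
    rwa [e] at h5
  refine ⟨adj3 A (v, z) hqn hqn' hq3, ⟨?_, ?_, ?_, ?_, ?_⟩, fun p hp => Or.inl hp, z, ?_⟩
  · have hsub : ((adj3 A (v, z) hqn hqn' hq3 : Subgroup (X × X)) : Set (X × X)) ⊆
        (A : Set (X × X)) ∪ ((fun p => p * (v, z)) '' (A : Set (X × X)) ∪
          (fun p => p * (v, z)⁻¹) '' (A : Set (X × X))) := by
      rintro p (hp | hp | hp)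
      · exact Or.inl hp
      · right; left
        exact ⟨p * (v, z)⁻¹, hp, inv_mul_cancel_right _ _⟩
      · right; right
        exact ⟨p * (v, z), hp, mul_inv_cancel_right _ _⟩
    exact (hfin.union ((hfin.image _).union (hfin.image _))).subset hsub
  · rintro p (hp | hp | hp)
    · exact h1 p hp
    · have := hplus0 p hp
      exact ⟨fun h => absurd h this.1, fun h => absurd h this.2⟩
    · have := hplus0 p⁻¹ (hflip p hp)
      constructor
      · intro h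
        exact absurd (by simp [h]) this.1
      · intro h
        exact absurd (by simp [h]) this.2
  · rintro p (hp | hp | hp)
    · exact hm p hp
    · exact hplusm p hp
    · have := hplusm p⁻¹ (hflip p hp)
      rw [hsymS, hsymT]
      exact this
  · intro x hx
    exact Or.inl (hdg x hx)
  · rintro p (hp | hp | hp)
    · exact hquo p hp
    · exact hplusq p hp
    · have h5 := hplusq p⁻¹ (hflip p hp)
      have h6 := hMn.conj_mem _ (M.inv_mem h5) p.2
      have e : (p⁻¹).1⁻¹ * (p⁻¹).2 = p.1 * p.2⁻¹ := by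
        rw [Prod.fst_inv, Prod.snd_inv, inv_inv]
      rw [e] at h5
      have h7 := hMn.conj_mem _ (M.inv_mem h5) p.1⁻¹
      have e2 : p.1⁻¹ * (p.1 * p.2⁻¹)⁻¹ * p.1⁻¹⁻¹ = p.1⁻¹ * p.2 := by group
      rwa [e2] at h7
  · right; left
    rw [mul_inv_cancel]
    exact A.one_mem

theorem fit_extend [Infinite X] (M F1 : Subgroup X) (hMn : M.Normal) (hMi : M.index ≠ 0)
    (h3 : ∀ m ∈ M, m * m * m = 1) (hF1 : (F1 : Set X).Finite) (hcF : commutator X ≤ F1)
    (hFM : ∀ x, ∃ f ∈ F1, ∃ m ∈ M, x = f * m) (hext : Ext F1 M)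
    (S T : Set X) (hS : StrongSpecial S) (hT : StrongSpecial T) (A : Subgroup (X × X))
    (hA : Fit F1 M S T A) (v : X) :
    ∃ A' : Subgroup (X × X), Fit F1 M S T A' ∧ A ≤ A' ∧ ∃ y, (v, y) ∈ A' := by
  obtain ⟨f, hf, z, hz, rfl⟩ := hFM v
  obtain ⟨A', hA', hle, y, hy⟩ := fit_step M F1 hMn hMi h3 hF1 hcF hext S T hS hT A hA z hz
  exact ⟨A', hA', hle, f * y, A'.mul_mem (hA'.diag f hf) hy⟩

theorem fit_swap (F1 M : Subgroup X) (S T : Set X) (A : Subgroup (X × X)) (hA : Fit F1 M S T A) :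
    Fit F1 M T S (A.comap (MulEquiv.prodComm : X × X ≃* X × X).toMonoidHom) := by
  obtain ⟨hfin, h0, hm, htr, hq⟩ := hA
  refine ⟨?_, ?_, ?_, ?_, ?_⟩
  · rw [Subgroup.coe_comap]
    apply Set.Finite.preimage _ hfin
    exact (MulEquiv.prodComm : X × X ≃* X × X).injective.injOn
  · intro p hp
    exact (h0 _ hp).symm
  · intro p hp
    exact (hm _ hp).symm
  · intro x hx
    exact htr x hx
  · intro p hp
    have h := M.inv_mem (hq _ hp)
    rw [mul_inv_rev, inv_inv] at h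
    exact h

theorem fit_extend' [Infinite X] (M F1 : Subgroup X) (hMn : M.Normal) (hMi : M.index ≠ 0)
    (h3 : ∀ m ∈ M, m * m * m = 1) (hF1 : (F1 : Set X).Finite) (hcF : commutator X ≤ F1)
    (hFM : ∀ x, ∃ f ∈ F1, ∃ m ∈ M, x = f * m) (hext : Ext F1 M)
    (S T : Set X) (hS : StrongSpecial S) (hT : StrongSpecial T) (A : Subgroup (X × X))
    (hA : Fit F1 M S T A) (y : X) :
    ∃ A' : Subgroup (X × X), Fit F1 M S T A' ∧ A ≤ A' ∧ ∃ x, (x, y) ∈ A' := by
  obtain ⟨A', hA', hle, x, hx⟩ :=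
    fit_extend M F1 hMn hMi h3 hF1 hcF hFM hext T S hT hS _ (fit_swap F1 M S T A hA) y
  refine ⟨_, fit_swap F1 M T S A' hA', ?_, x, ?_⟩
  · intro p hp
    apply hle
    exact hp
  · exact hx

end BFXM

open BFXM in
theorem specBFX : SpecBFX.{u} := by
  intro X _ _ M F1 hMn hMi h3 hF1 hcF hFM hext S T hS hT h
  classical
  have hS' := hS.strong
  have hT' := hT.strong
  have hinf : Infinite X := CENM.infinite_of_special hS'
  have : Encodable X := Encodable.ofCountable X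
  let P := {A : Subgroup (X × X) // Fit F1 M S T A}
  let D : X ⊕ X → Order.Cofinal P := fun s => match s with
    | Sum.inl x =>
      { carrier := {A : P | ∃ y, (x, y) ∈ A.1}
        isCofinal := by
          rintro ⟨A, hA⟩
          obtain ⟨A', hA', hle, h⟩ :=
            fit_extend M F1 hMn hMi h3 hF1 hcF hFM hext S T hS' hT' A hA x
          exact ⟨⟨A', hA'⟩, h, hle⟩ }
    | Sum.inr y =>
      { carrier := {A : P | ∃ x, (x, y) ∈ A.1}
        isCofinal := by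
          rintro ⟨A, hA⟩
          obtain ⟨A', hA', hle, h⟩ :=
            fit_extend' M F1 hMn hMi h3 hF1 hcF hFM hext S T hS' hT' A hA y
          exact ⟨⟨A', hA'⟩, h, hle⟩ }
  -- the start: the diagonal over `F1`
  let f : X →* X × X := MonoidHom.prod (MonoidHom.id X) (MonoidHom.id X)
  have hbot : Fit F1 M S T (F1.map f) := by
    refine ⟨?_, ?_, ?_, ?_, ?_⟩
    · rw [Subgroup.coe_map]
      exact hF1.image _
    · rintro p ⟨x, _, rfl⟩
      exact Iff.rfl
    · rintro p ⟨x, hx, rfl⟩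
      exact h x hx
    · intro x hx
      exact ⟨x, hx, rfl⟩
    · rintro p ⟨x, _, rfl⟩
      have e : (f x).1⁻¹ * (f x).2 = 1 := inv_mul_cancel x
      rw [e]
      exact M.one_mem
  let I : Order.Ideal P := Order.idealOfCofinals ⟨F1.map f, hbot⟩ D
  have hl : ∀ x : X, ∃ y, ∃ A ∈ I, (x, y) ∈ A.1 := by
    intro x
    obtain ⟨A, hA, hAI⟩ := Order.cofinal_meets_idealOfCofinals (⟨F1.map f, hbot⟩ : P) D
      (Sum.inl x)
    obtain ⟨y, hy⟩ := hA
    exact ⟨y, A, hAI, hy⟩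
  have hr : ∀ y : X, ∃ x, ∃ A ∈ I, (x, y) ∈ A.1 := by
    intro y
    obtain ⟨A, hA, hAI⟩ := Order.cofinal_meets_idealOfCofinals (⟨F1.map f, hbot⟩ : P) D
      (Sum.inr y)
    obtain ⟨x, hx⟩ := hA
    exact ⟨x, A, hAI, hx⟩
  have hI0 : (⟨F1.map f, hbot⟩ : P) ∈ I := Order.mem_idealOfCofinals _ D
  have hadd : ∀ p q : X × X, (∃ A ∈ I, p ∈ A.1) → (∃ A ∈ I, q ∈ A.1) →
      ∃ A ∈ I, p * q ∈ A.1 := by
    rintro p q ⟨A, hA, hp⟩ ⟨B, hB, hq⟩
    obtain ⟨K, hK, hAK, hBK⟩ := I.directed A hA B hB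
    exact ⟨K, hK, K.1.mul_mem (hAK hp) (hBK hq)⟩
  have hneg : ∀ p : X × X, (∃ A ∈ I, p ∈ A.1) → ∃ A ∈ I, p⁻¹ ∈ A.1 := by
    rintro p ⟨A, hA, hp⟩
    exact ⟨A, hA, A.1.inv_mem hp⟩
  have hzero : ∀ p : X × X, (∃ A ∈ I, p ∈ A.1) → (p.1 = 1 ↔ p.2 = 1) := by
    rintro p ⟨A, hA, hp⟩
    exact A.2.one p hp
  have hST : ∀ p : X × X, (∃ A ∈ I, p ∈ A.1) → (p.1 ∈ S ↔ p.2 ∈ T) := by
    rintro p ⟨A, hA, hp⟩
    exact A.2.mem p hp
  choose a ha using hl
  choose b hb using hr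
  have huniq : ∀ x y y' : X, (∃ A ∈ I, (x, y) ∈ A.1) → (∃ A ∈ I, (x, y') ∈ A.1) → y = y' := by
    intro x y y' h h'
    have := (hzero _ (hadd _ _ h (hneg _ h'))).1 (by simp)
    simpa [mul_inv_eq_one] using this
  have huniq' : ∀ x x' y : X, (∃ A ∈ I, (x, y) ∈ A.1) → (∃ A ∈ I, (x', y) ∈ A.1) → x = x' := by
    intro x x' y h h'
    have := (hzero _ (hadd _ _ h (hneg _ h'))).2 (by simp)
    simpa [mul_inv_eq_one] using this
  let α : X ≃* X :=
    { toFun := a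
      invFun := b
      left_inv := fun x => huniq' _ _ _ (hb (a x)) (ha x)
      right_inv := fun y => huniq _ _ _ (ha (b y)) (hb y)
      map_mul' := fun x y => by
        have := hadd _ _ (ha x) (ha y)
        exact huniq _ _ _ (ha (x * y)) this }
  refine ⟨α, ?_, ?_⟩
  · intro x hx
    exact huniq _ _ _ (ha x) ⟨_, hI0, ⟨x, hx, rfl⟩⟩
  · ext y
    constructor
    · rintro ⟨x, hx, rfl⟩
      exact (hST _ (ha x)).1 hx
    · intro hy
      refine ⟨b y, (hST _ (hb y)).2 hy, ?_⟩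
      exact huniq _ _ _ (ha (b y)) (hb y)

end Pool.Agent.Lib.MP_008109_al.PC

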