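import Pool.Agent.Lib.MP_008109_al.PC.Spec

/-!
# MP_008109_al, module COD: coding graphs with kernel tuples
-/

set_option autoImplicit false

universe u

namespace Pool.Agent.Lib.MP_008109_al.PC

open Pool.Agent.Lib.MP_008109_al Pool.Agent.Lib.MP_008109_al.AB
open scoped commutatorElement

namespace CODM

variable {X : Type u} [Group X] {s : ℕ}

/-- generic elements -/
structure ZGen (f : Fin (s + 2) → Fl X) (L : Subgroup X) (z : X) : Prop where
  nmem : z ∉ L
  sq : ∀ b ∈ L, ∀ c ∈ L, c ≠ 1 → (z * b) * (z * b) ≠ c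
  ker : ∀ k ∈ Ker f, (∀ j, k j ∈ L ∨ ∃ b ∈ L, k j = z * b ∨ k j = (z * b)⁻¹) → ∀ j, k j ∈ L

/-- generic tuples -/
structure TGen (f : Fin (s + 2) → Fl X) (L : Subgroup X) (t : Fin (s + 2) → X) : Prop where
  ker : t ∈ Ker f
  comm : ∀ i, ∀ b ∈ L, b * t i = t i * b
  ind : ∀ c : Fin (s + 2) → ZMod 3, c ≠ 0 → ∀ b ∈ L, b ∈ base X →
    ∃ i, ∃ y ∈ base X, ∑ j, c j * (f i).1 ⁅t j, y⁆ ≠ (f i).1 ⁅b, y⁆
  rel : ∀ k ∈ Ker f, (∀ j, k j ∈ L ∨ ∃ b ∈ L, ∃ i, k j = b * t i ∨ k j = b * (t i)⁻¹) →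
    (∀ j, k j ∈ L) ∨ ∃ (σ : Equiv.Perm (Fin (s + 2))) (c : Fin (s + 2) → X), c ∈ Ker f ∧
      (∀ j, c j ∈ L) ∧ ∀ j, k j = c j * t (σ j) ∨ k j = c j * (t (σ j))⁻¹

/-- signed coordinates -/
def tp (t : Fin (s + 2) → X) (i : Fin (s + 2)) (e : Bool) : X := if e then t i else (t i)⁻¹

/-- signs -/
def sg (e : Bool) : ZMod 3 := if e then 1 else -1

theorem sg_ne (e : Bool) : sg e ≠ 0 := by
  cases e <;> simp [sg]

theorem sg_inj {e e' : Bool} (h : sg e = sg e') : e = e' := by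
  revert h
  cases e <;> cases e' <;> decide

theorem sg_not (e : Bool) : sg (!e) = -sg e := by
  cases e <;> simp [sg]

theorem tp_inv (t : Fin (s + 2) → X) (i : Fin (s + 2)) (e : Bool) :
    (tp t i e)⁻¹ = tp t i (!e) := by
  cases e <;> simp [tp]

section T

variable {f : Fin (s + 2) → Fl X} {L : Subgroup X} {t : Fin (s + 2) → X}

theorem TGen.tp_base (h : TGen f L t) (i : Fin (s + 2)) (e : Bool) : tp t i e ∈ base X := by
  have := h.ker.1 i
  cases e
  · simpa [tp] using this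
  · simpa [tp] using this

theorem TGen.tp_comm (h : TGen f L t) (i : Fin (s + 2)) (e : Bool) {b : X} (hb : b ∈ L) :
    b * tp t i e = tp t i e * b := by
  have := h.comm i b hb
  cases e
  · simp only [tp]
    rw [if_neg (by simp), eq_inv_mul_iff_mul_eq, ← mul_assoc, ← this, mul_inv_cancel_right]
  · simpa [tp] using this

theorem form_tp (h : TGen f L t) (g : Fl X) (i : Fin (s + 2)) (e : Bool) {y : X}
    (hy : y ∈ base X) : g.1 ⁅tp t i e, y⁆ = sg e * g.1 ⁅t i, y⁆ := by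
  cases e
  · simp only [tp, sg]
    rw [if_neg (by simp), if_neg (by simp), fl_inv_left g (h.ker.1 i) hy]
    ring
  · simp [tp, sg]

/-- the basic independence statement -/
theorem TGen.indep (h : TGen f L t) (c : Fin (s + 2) → ZMod 3) {b : X} (hb : b ∈ L)
    (hbb : b ∈ base X)
    (he : ∀ i, ∀ y ∈ base X, ∑ j, c j * (f i).1 ⁅t j, y⁆ = (f i).1 ⁅b, y⁆) : c = 0 := by
  by_contra hc
  obtain ⟨i, y, hy, hne⟩ := h.ind c hc b hb hbb
  exact hne (he i y hy)

theorem sum_single (c : ZMod 3) (i : Fin (s + 2)) (F : Fin (s + 2) → ZMod 3) :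
    ∑ j, (Pi.single i c : Fin (s + 2) → ZMod 3) j * F j = c * F i := by
  rw [Finset.sum_eq_single i]
  · rw [Pi.single_eq_same]
  · intro j _ hj
    rw [Pi.single_eq_of_ne hj, zero_mul]
  · intro h
    exact absurd (Finset.mem_univ i) h

theorem TGen.tp_notMem (h : TGen f L t) (i : Fin (s + 2)) (e : Bool) : tp t i e ∉ L := by
  intro hm
  have h1 := h.indep (Pi.single i (sg e)) hm (h.tp_base i e) (by
    intro i' y hy
    rw [sum_single, form_tp h _ i e hy])
  have h2 := congrFun h1 i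
  rw [Pi.single_eq_same] at h2
  exact sg_ne e h2

/-- uniqueness of the normal form -/
theorem TGen.uniq (h : TGen f L t) {a a' : X} (ha : a ∈ L) (ha' : a' ∈ L) {i i' : Fin (s + 2)}
    {e e' : Bool} (he : a * tp t i e = a' * tp t i' e') : i = i' ∧ e = e' ∧ a = a' := by
  have hb : a'⁻¹ * a = tp t i' e' * (tp t i e)⁻¹ := by
    rw [inv_mul_eq_iff_eq_mul, ← mul_assoc, ← he, mul_inv_cancel_right]
  have hbL : a'⁻¹ * a ∈ L := L.mul_mem (L.inv_mem ha') ha
  have hbb : a'⁻¹ * a ∈ base X := by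
    rw [hb]
    exact (base X).mul_mem (h.tp_base _ _) ((base X).inv_mem (h.tp_base _ _))
  have h1 := h.indep (Pi.single i' (sg e') - Pi.single i (sg e)) hbL hbb (by
    intro i0 y hy
    rw [hb, fl_left (f i0) (h.tp_base _ _) ((base X).inv_mem (h.tp_base _ _)) hy,
      fl_inv_left (f i0) (h.tp_base _ _) hy, form_tp h _ i e hy, form_tp h _ i' e' hy]
    simp only [Pi.sub_apply, sub_mul, Finset.sum_sub_distrib, sum_single]
    ring)
  have hii : i = i' := by
    by_contra hne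
    have h2 := congrFun h1 i
    rw [Pi.sub_apply, Pi.single_eq_same, Pi.single_eq_of_ne hne, zero_sub, Pi.zero_apply,
      neg_eq_zero] at h2
    exact sg_ne e h2
  subst hii
  have h2 := congrFun h1 i
  rw [Pi.sub_apply, Pi.single_eq_same, Pi.single_eq_same, Pi.zero_apply, sub_eq_zero] at h2
  have h3 := sg_inj h2
  subst h3
  exact ⟨rfl, rfl, mul_right_cancel he⟩

/-- a quotient of two different coordinates is not of the form of one coordinate -/
theorem TGen.two (h : TGen f L t) {i i' : Fin (s + 2)} (hii : i ≠ i') (e e' : Bool) :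
    tp t i e * tp t i' e' ∉ L ∧ ∀ a ∈ L, ∀ l e'', tp t i e * tp t i' e' ≠ a * tp t l e'' := by
  have hbase : tp t i e * tp t i' e' ∈ base X :=
    (base X).mul_mem (h.tp_base _ _) (h.tp_base _ _)
  constructor
  · intro hm
    have h1 := h.indep (Pi.single i (sg e) + Pi.single i' (sg e')) hm hbase (by
      intro i0 y hy
      rw [fl_left (f i0) (h.tp_base _ _) (h.tp_base _ _) hy, form_tp h _ i e hy,
        form_tp h _ i' e' hy]
      simp only [Pi.add_apply, add_mul, Finset.sum_add_distrib, sum_single])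
    have h2 := congrFun h1 i
    rw [Pi.add_apply, Pi.single_eq_same, Pi.single_eq_of_ne hii, add_zero] at h2
    exact sg_ne e h2
  · intro a ha l e'' he
    have hab : a = tp t i e * tp t i' e' * (tp t l e'')⁻¹ := by
      rw [he, mul_inv_cancel_right]
    have haa : a ∈ base X := by
      rw [hab]
      exact (base X).mul_mem hbase ((base X).inv_mem (h.tp_base _ _))
    have h1 := h.indep (Pi.single i (sg e) + Pi.single i' (sg e') - Pi.single l (sg e'')) ha haa (by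
      intro i0 y hy
      rw [hab, fl_left (f i0) hbase ((base X).inv_mem (h.tp_base _ _)) hy,
        fl_inv_left (f i0) (h.tp_base _ _) hy,
        fl_left (f i0) (h.tp_base _ _) (h.tp_base _ _) hy, form_tp h _ i e hy,
        form_tp h _ i' e' hy, form_tp h _ l e'' hy]
      simp only [Pi.add_apply, Pi.sub_apply, add_mul, sub_mul, Finset.sum_add_distrib,
        Finset.sum_sub_distrib, sum_single]
      ring)
    by_cases hl : l = i
    · have h2 := congrFun h1 i'
      rw [Pi.sub_apply, Pi.add_apply, Pi.single_eq_same, Pi.single_eq_of_ne hii.symm,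
        Pi.single_eq_of_ne (by rw [hl]; exact hii.symm), zero_add, sub_zero] at h2
      exact sg_ne e' h2
    · have h2 := congrFun h1 i
      rw [Pi.sub_apply, Pi.add_apply, Pi.single_eq_same, Pi.single_eq_of_ne hii,
        Pi.single_eq_of_ne (fun h => hl h.symm), add_zero, sub_zero] at h2
      exact sg_ne e h2

end T

/-! ### the tower -/

theorem exists_tower (hlf : LocFin X) (f : Fin (s + 2) → Fl X) (L0 : Subgroup X)
    (hL0 : (L0 : Set X).Finite)
    (genz : ∀ L : Subgroup X, (L : Set X).Finite → L0 ≤ L → ∃ z : X, ZGen f L z)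
    (gent : ∀ L : Subgroup X, (L : Set X).Finite → L0 ≤ L → ∃ t : Fin (s + 2) → X, TGen f L t)
    (W : ℕ → Finset X) :
    ∃ (L : ℕ → Subgroup X) (z : ℕ → X) (t : ℕ → Fin (s + 2) → X), (∀ k, L0 ≤ L k) ∧
      (∀ k, ∀ x ∈ W k, x ∈ L k) ∧ (∀ k, ZGen f (L k) (z k)) ∧ (∀ k, TGen f (L k) (t k)) ∧
      (∀ k, L k ≤ L (k + 1)) ∧ (∀ k, z k ∈ L (k + 1)) ∧ ∀ k i, t k i ∈ L (k + 1) := by
  classical
  choose ext hext1 hext2 hext3 using
    fun (p : {L : Subgroup X // (L : Set X).Finite ∧ L0 ≤ L}) (F : Finset X) =>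
      NFCM.exists_ext hlf p.1 p.2.1 F
  choose zn hzn using fun (p : {L : Subgroup X // (L : Set X).Finite ∧ L0 ≤ L}) =>
    genz p.1 p.2.1 p.2.2
  choose tn htn using fun (p : {L : Subgroup X // (L : Set X).Finite ∧ L0 ≤ L}) =>
    gent p.1 p.2.1 p.2.2
  let Ls : ℕ → {L : Subgroup X // (L : Set X).Finite ∧ L0 ≤ L} := fun k =>
    Nat.rec ⟨ext ⟨L0, hL0, le_rfl⟩ (W 0), hext2 _ _, hext1 ⟨L0, hL0, le_rfl⟩ _⟩
      (fun k p => ⟨ext p (insert (zn p) (Finset.univ.image (tn p) ∪ W (k + 1))), hext2 _ _,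
        p.2.2.trans (hext1 p _)⟩) k
  have hle : ∀ k, (Ls k).1 ≤ (Ls (k + 1)).1 := fun k => hext1 _ _
  refine ⟨fun k => (Ls k).1, fun k => zn (Ls k), fun k => tn (Ls k), fun k => (Ls k).2.2, ?_,
    fun k => hzn _, fun k => htn _, hle, ?_, ?_⟩
  · intro k x hx
    cases k with
    | zero => exact hext3 _ _ x hx
    | succ k =>
      exact hext3 _ _ x (Finset.mem_insert_of_mem (Finset.mem_union_right _ hx))
  · intro k
    exact hext3 (Ls k) _ _ (Finset.mem_insert_self _ _)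
  · intro k i
    exact hext3 (Ls k) _ _ (Finset.mem_insert_of_mem (Finset.mem_union_left _
      (Finset.mem_image_of_mem _ (Finset.mem_univ i))))

/-- The members added at stage `k`. -/
def New (U : ℕ → Finset X) (z : ℕ → X) (t : ℕ → Fin (s + 2) → X) (E : ℕ → ℕ → Prop) (k : ℕ) :
    Set X :=
  {x | (∃ n, k = 2 * n ∧ ∃ w ∈ U n, x = z k * w⁻¹ ∨ x = (z k * w⁻¹)⁻¹) ∨
    ∃ n, k = 2 * n + 1 ∧ ∃ i e a, x = a * tp (t k) i e ∧
      (a = 1 ∨ (i = 0 ∧ ∃ m, m < n ∧ E m n ∧ a = tp (t (2 * m + 1)) 0 (!e)))}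

/-- The special set. -/
def SS (U : ℕ → Finset X) (z : ℕ → X) (t : ℕ → Fin (s + 2) → X) (E : ℕ → ℕ → Prop) : Set X :=
  {x | ∃ k, x ∈ New U z t E k}

/-- The coded set. -/
def Q (f : Fin (s + 2) → Fl X) (S : Set X) : Set X :=
  {x | ∃ k ∈ Ker f, (∀ j, k j ∈ S) ∧ k 0 = x}

/-- The neighbours of `x` in the coded graph. -/
def nb (f : Fin (s + 2) → Fl X) (S : Set X) (x : X) : Set X :=
  {y | y ∈ Q f S ∧ x⁻¹ * y ∈ S ∧ y ≠ x⁻¹}

/-- The numbers of neighbours in the coded graph. -/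
def J (f : Fin (s + 2) → Fl X) (S : Set X) : Set ℕ :=
  {n | ∃ x ∈ Q f S, Set.ncard (nb f S x) = n}

section Image

variable {f : Fin (s + 2) → Fl X} (α : X ≃* X) (hα : ∀ c ∈ commutator X, α c = c)

theorem mem_im (S : Set X) (x : X) : α x ∈ α '' S ↔ x ∈ S :=
  α.injective.mem_set_image

include hα

theorem map_Ker {k : Fin (s + 2) → X} (hk : k ∈ Ker f) : (fun j => α (k j)) ∈ Ker f := by
  refine ⟨fun j => map_mem_base α (hk.1 j), ?_⟩
  intro y hy
  obtain ⟨y', rfl⟩ := α.surjective y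
  have hy' : y' ∈ base X := (map_mem_base_iff α).1 hy
  rw [← hk.2 y' hy']
  apply Finset.sum_congr rfl
  intro j _
  have e : ⁅α (k j), α y'⁆ = ⁅k j, y'⁆ := by
    rw [← hα _ (comm_mem (k j) y')]
    simp only [commutatorElement_def, map_mul, map_inv]
  rw [e]

theorem symm_fix : ∀ c ∈ commutator X, α.symm c = c := by
  intro c hc
  rw [MulEquiv.symm_apply_eq]
  exact (hα c hc).symm

theorem Q_image (S : Set X) : Q f (α '' S) = α '' Q f S := by
  ext y
  obtain ⟨x, rfl⟩ := α.surjective y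
  rw [mem_im]
  constructor
  · rintro ⟨k, hk, h1, h2⟩
    refine ⟨fun j => α.symm (k j), map_Ker α.symm (symm_fix α hα) hk, ?_, ?_⟩
    · intro j
      obtain ⟨w, hw, hwk⟩ := h1 j
      change α.symm (k j) ∈ S
      rw [← hwk, MulEquiv.symm_apply_apply]
      exact hw
    · simp only
      rw [h2, MulEquiv.symm_apply_apply]
  · rintro ⟨k, hk, h1, h2⟩
    refine ⟨fun j => α (k j), map_Ker α hα hk, fun j => ⟨k j, h1 j, rfl⟩, ?_⟩
    simp only
    rw [h2]

theorem nb_image (S : Set X) (x : X) : nb f (α '' S) (α x) = α '' nb f S x := by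
  ext y
  obtain ⟨z, rfl⟩ := α.surjective y
  rw [mem_im]
  have e : (α x)⁻¹ * α z = α (x⁻¹ * z) := by rw [map_mul, map_inv]
  constructor
  · rintro ⟨h1, h2, h3⟩
    rw [Q_image α hα, mem_im] at h1
    rw [e, mem_im] at h2
    refine ⟨h1, h2, fun h => h3 ?_⟩
    rw [h, map_inv]
  · rintro ⟨h1, h2, h3⟩
    refine ⟨?_, ?_, fun h => h3 ?_⟩
    · rw [Q_image α hα, mem_im]
      exact h1
    · rw [e, mem_im]
      exact h2
    · rw [← map_inv] at h
      exact α.injective h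

theorem J_image (S : Set X) : J f (α '' S) = J f S := by
  ext n
  constructor
  · rintro ⟨w, hw, h⟩
    obtain ⟨x, rfl⟩ := α.surjective w
    rw [nb_image α hα, Set.ncard_image_of_injective _ α.injective] at h
    rw [Q_image α hα, mem_im] at hw
    exact ⟨x, hw, h⟩
  · rintro ⟨x, hx, h⟩
    refine ⟨α x, ?_, ?_⟩
    · rw [Q_image α hα, mem_im]
      exact hx
    · rw [nb_image α hα, Set.ncard_image_of_injective _ α.injective]
      exact h

end Image

/-- the data of the construction -/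
structure Dat (X : Type u) [Group X] (s : ℕ) where
  f : Fin (s + 2) → Fl X
  L0 : Subgroup X
  U : ℕ → Finset X
  L : ℕ → Subgroup X
  z : ℕ → X
  t : ℕ → Fin (s + 2) → X
  hL0 : ∀ k, L0 ≤ L k
  hU : ∀ n, ∀ w ∈ U n, w ∈ L (2 * n)
  hz : ∀ k, ZGen f (L k) (z k)
  ht : ∀ k, TGen f (L k) (t k)
  hle : ∀ k, L k ≤ L (k + 1)
  hzL : ∀ k, z k ∈ L (k + 1)
  htL : ∀ k i, t k i ∈ L (k + 1)
  hI : ∀ c : Fin (s + 2) → ZMod 3, c ≠ 0 → ∀ k ∈ Ker f,
    (∀ i, ∀ y ∈ base X, ∑ j, c j * (f i).1 ⁅k j, y⁆ = 0) → ∀ j, k j ∈ L0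

namespace Dat

variable (D : Dat X s) (E : ℕ → ℕ → Prop)

theorem mono : Monotone D.L := monotone_nat_of_le_succ D.hle

theorem tpL (k : ℕ) (i : Fin (s + 2)) (e : Bool) : tp (D.t k) i e ∈ D.L (k + 1) := by
  cases e
  · exact (D.L (k + 1)).inv_mem (D.htL k i)
  · exact D.htL k i

/-- the special set -/
def S : Set X := SS D.U D.z D.t E

theorem coef_mem {n : ℕ} {i : Fin (s + 2)} {e : Bool} {a : X}
    (h : a = 1 ∨ (i = 0 ∧ ∃ m, m < n ∧ E m n ∧ a = tp (D.t (2 * m + 1)) 0 (!e))) :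
    a ∈ D.L (2 * n + 1) := by
  rcases h with rfl | ⟨-, m, hm, -, rfl⟩
  · exact one_mem _
  · exact D.mono (by omega : 2 * m + 1 + 1 ≤ 2 * n + 1) (D.tpL _ _ _)

theorem new_notMem {k : ℕ} {x : X} (hx : x ∈ New D.U D.z D.t E k) : x ∉ D.L k := by
  rcases hx with ⟨n, rfl, w, hw, h⟩ | ⟨n, rfl, i, e, a, rfl, ha⟩
  · have hw' := D.hU n w hw
    have key : D.z (2 * n) * w⁻¹ ∉ D.L (2 * n) := by
      intro h1
      apply (D.hz (2 * n)).nmem
      have := mul_mem h1 hw'
      rwa [inv_mul_cancel_right] at this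
    rcases h with rfl | rfl
    · exact key
    · intro h1
      exact key (by simpa using inv_mem h1)
  · intro h1
    have ha' := D.coef_mem E ha
    apply (D.ht (2 * n + 1)).tp_notMem i e
    have := mul_mem (inv_mem ha') h1
    rwa [inv_mul_cancel_left] at this

theorem new_mem {k : ℕ} {x : X} (hx : x ∈ New D.U D.z D.t E k) : x ∈ D.L (k + 1) := by
  rcases hx with ⟨n, rfl, w, hw, h⟩ | ⟨n, rfl, i, e, a, rfl, ha⟩
  · have hw' := D.hle _ (D.hU n w hw)
    have key : D.z (2 * n) * w⁻¹ ∈ D.L (2 * n + 1) := mul_mem (D.hzL _) (inv_mem hw')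
    rcases h with rfl | rfl
    · exact key
    · exact inv_mem key
  · exact mul_mem (D.hle _ (D.coef_mem E ha)) (D.tpL _ _ _)

theorem same {k : ℕ} {y : X} (hy : y ∈ D.S E) (h1 : y ∈ D.L (k + 1)) (h2 : y ∉ D.L k) :
    y ∈ New D.U D.z D.t E k := by
  obtain ⟨l, hl⟩ := hy
  rcases lt_trichotomy l k with h | rfl | h
  · exact absurd (D.mono (by omega : l + 1 ≤ k) (D.new_mem E hl)) h2
  · exact hl
  · exact absurd (D.mono (by omega : k + 1 ≤ l) h1) (D.new_notMem E hl)

theorem new_inv {k : ℕ} {x : X} (hx : x ∈ New D.U D.z D.t E k) : x⁻¹ ∈ New D.U D.z D.t E k := by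
  rcases hx with ⟨n, rfl, w, hw, h⟩ | ⟨n, rfl, i, e, a, rfl, ha⟩
  · left
    refine ⟨n, rfl, w, hw, ?_⟩
    rcases h with rfl | rfl
    · exact Or.inr rfl
    · exact Or.inl (inv_inv _)
  · right
    refine ⟨n, rfl, i, !e, a⁻¹, ?_, ?_⟩
    · rw [mul_inv_rev, tp_inv]
      exact ((D.ht _).tp_comm i (!e) (inv_mem (D.coef_mem E ha))).symm
    · rcases ha with rfl | ⟨rfl, m, hm, hE, rfl⟩
      · exact Or.inl inv_one
      · exact Or.inr ⟨rfl, m, hm, hE, tp_inv _ _ _⟩

theorem S_inv {x : X} (hx : x ∈ D.S E) : x⁻¹ ∈ D.S E := by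
  obtain ⟨k, hk⟩ := hx
  exact ⟨k, D.new_inv E hk⟩

theorem one_notMem : (1 : X) ∉ D.S E := by
  rintro ⟨k, hk⟩
  exact D.new_notMem E hk (one_mem _)

theorem special (V : ℕ → Finset X) (hV : ∀ n, ∀ w ∈ V n, w ∈ D.L (2 * n))
    (hcov : ∀ U' V' : Finset X, Disjoint U' V' → ∃ n, D.U n = U' ∧ V n = V')  :
    IsSpecial (D.S E) := by
  refine ⟨fun x hx => D.S_inv E hx, D.one_notMem E, ?_⟩
  intro U' V' hd
  obtain ⟨n, rfl, rfl⟩ := hcov U' V' hd
  refine ⟨D.z (2 * n), ?_, ?_⟩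
  · intro w hw
    exact ⟨2 * n, Or.inl ⟨n, rfl, w, hw, Or.inl rfl⟩⟩
  · intro w hw hadj
    have hadj' : D.z (2 * n) * w⁻¹ ∈ D.S E := hadj
    have hw' := hV n w hw
    have h1 : D.z (2 * n) * w⁻¹ ∈ D.L (2 * n + 1) := mul_mem (D.hzL _) (inv_mem (D.hle _ hw'))
    have h2 : D.z (2 * n) * w⁻¹ ∉ D.L (2 * n) := by
      intro h1
      apply (D.hz (2 * n)).nmem
      have := mul_mem h1 hw'
      rwa [inv_mul_cancel_right] at this
    rcases D.same E hadj' h1 h2 with ⟨n', hn', v, hv, h⟩ | ⟨n', hn', -⟩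
    · obtain rfl : n = n' := by omega
      rcases h with h | h
      · have h3 := inv_injective (mul_left_cancel h)
        subst h3
        exact (Finset.disjoint_left.1 hd) hv hw
      · have hne : v * w⁻¹ ≠ 1 := by
          intro h4
          rw [mul_inv_eq_one] at h4
          subst h4
          exact (Finset.disjoint_left.1 hd) hv hw
        apply (D.hz (2 * n)).sq w⁻¹ (inv_mem hw') (v * w⁻¹)
          (mul_mem (D.hU n v hv) (inv_mem hw')) hne
        nth_rewrite 1 [h]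
        group
    · omega

theorem adj_of_lt {m n : ℕ} (hmn : m < n) {i j : Fin (s + 2)} {e e' : Bool} :
    (tp (D.t (2 * m + 1)) i e)⁻¹ * tp (D.t (2 * n + 1)) j e' ∈ D.S E ↔
      i = 0 ∧ j = 0 ∧ e = e' ∧ E m n := by
  have hxL : tp (D.t (2 * m + 1)) i e ∈ D.L (2 * n + 1) :=
    D.mono (by omega : 2 * m + 1 + 1 ≤ 2 * n + 1) (D.tpL _ _ _)
  constructor
  · intro h
    have h1 : (tp (D.t (2 * m + 1)) i e)⁻¹ * tp (D.t (2 * n + 1)) j e' ∈ D.L (2 * n + 1 + 1) :=
      mul_mem (inv_mem (D.hle _ hxL)) (D.tpL _ _ _)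
    have h2 : (tp (D.t (2 * m + 1)) i e)⁻¹ * tp (D.t (2 * n + 1)) j e' ∉ D.L (2 * n + 1) := by
      intro h2
      apply (D.ht (2 * n + 1)).tp_notMem j e'
      have := mul_mem hxL h2
      rwa [mul_inv_cancel_left] at this
    rcases D.same E h h1 h2 with ⟨n', hn', -⟩ | ⟨n', hn', l, e'', a, he, ha⟩
    · omega
    · obtain rfl : n = n' := by omega
      obtain ⟨rfl, rfl, h3⟩ := (D.ht (2 * n + 1)).uniq (inv_mem hxL) (D.coef_mem E ha) he
      rcases ha with rfl | ⟨rfl, m', hm', hE, rfl⟩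
      · exfalso
        apply (D.ht (2 * m + 1)).tp_notMem i e
        rw [inv_eq_one.1 h3]
        exact one_mem _
      · rw [← tp_inv, inv_inj] at h3
        rcases lt_trichotomy m m' with h4 | rfl | h4
        · exfalso
          apply (D.ht (2 * m' + 1)).tp_notMem 0 e'
          rw [← h3]
          exact D.mono (by omega : 2 * m + 1 + 1 ≤ 2 * m' + 1) (D.tpL _ _ _)
        · obtain ⟨h5, h6, -⟩ := (D.ht (2 * m + 1)).uniq (a := 1) (a' := 1) (one_mem _)
            (one_mem _) (congrArg (fun x => 1 * x) h3)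
          exact ⟨h5, rfl, h6, hE⟩
        · exfalso
          apply (D.ht (2 * m + 1)).tp_notMem i e
          rw [h3]
          exact D.mono (by omega : 2 * m' + 1 + 1 ≤ 2 * m + 1) (D.tpL _ _ _)
  · rintro ⟨rfl, rfl, rfl, hE⟩
    exact ⟨2 * n + 1, Or.inr ⟨n, rfl, 0, e, _, rfl, Or.inr ⟨rfl, m, hmn, hE, tp_inv _ _ _⟩⟩⟩

theorem adj (hE : ∀ m n, E m n → E n m) (hE' : ∀ m, ¬ E m m) {m n : ℕ} {i j : Fin (s + 2)}
    {e e' : Bool} :
    ((tp (D.t (2 * m + 1)) i e)⁻¹ * tp (D.t (2 * n + 1)) j e' ∈ D.S E ∧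
      tp (D.t (2 * n + 1)) j e' ≠ (tp (D.t (2 * m + 1)) i e)⁻¹) ↔
      i = 0 ∧ j = 0 ∧ e = e' ∧ E m n := by
  rcases lt_trichotomy m n with h | rfl | h
  · rw [D.adj_of_lt E h]
    constructor
    · exact fun h => h.1
    · rintro ⟨rfl, rfl, rfl, h4⟩
      refine ⟨⟨rfl, rfl, rfl, h4⟩, ?_⟩
      intro h5
      apply (D.ht (2 * n + 1)).tp_notMem 0 e
      rw [h5]
      exact inv_mem (D.mono (by omega : 2 * m + 1 + 1 ≤ 2 * n + 1) (D.tpL _ _ _))
  · constructor
    · rintro ⟨h1, h2⟩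
      exfalso
      by_cases hij : i = j
      · subst hij
        by_cases hee : e = e'
        · subst hee
          rw [inv_mul_cancel] at h1
          exact D.one_notMem E h1
        · apply h2
          rw [tp_inv]
          congr 1
          revert hee
          cases e <;> cases e' <;> decide
      · rw [tp_inv] at h1
        obtain ⟨h3, h4⟩ := (D.ht (2 * m + 1)).two hij (!e) e'
        have h5 : tp (D.t (2 * m + 1)) i (!e) * tp (D.t (2 * m + 1)) j e' ∈
            D.L (2 * m + 1 + 1) := mul_mem (D.tpL _ _ _) (D.tpL _ _ _)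
        rcases D.same E h1 h5 h3 with ⟨n', hn', -⟩ | ⟨n', hn', l, e'', a, he, ha⟩
        · omega
        · obtain rfl : m = n' := by omega
          exact h4 a (D.coef_mem E ha) l e'' he
    · rintro ⟨-, -, -, h⟩
      exact absurd h (hE' m)
  · have key : (tp (D.t (2 * m + 1)) i e)⁻¹ * tp (D.t (2 * n + 1)) j e' ∈ D.S E ↔
        (tp (D.t (2 * n + 1)) j e')⁻¹ * tp (D.t (2 * m + 1)) i e ∈ D.S E := by
      constructor
      · intro h1
        have := D.S_inv E h1
        rwa [mul_inv_rev, inv_inv] at this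
      · intro h1
        have := D.S_inv E h1
        rwa [mul_inv_rev, inv_inv] at this
    rw [key, D.adj_of_lt E h]
    constructor
    · rintro ⟨⟨h1, h2, h3, h4⟩, -⟩
      exact ⟨h2, h1, h3.symm, hE _ _ h4⟩
    · rintro ⟨rfl, rfl, rfl, h4⟩
      refine ⟨⟨rfl, rfl, rfl, hE _ _ h4⟩, ?_⟩
      intro h5
      apply (D.ht (2 * m + 1)).tp_notMem 0 e
      have h6 : tp (D.t (2 * m + 1)) 0 e = (tp (D.t (2 * n + 1)) 0 e)⁻¹ := by
        rw [h5, inv_inv]
      rw [h6]
      exact inv_mem (D.mono (by omega : 2 * n + 1 + 1 ≤ 2 * m + 1) (D.tpL _ _ _))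

/-- the members of the coded set are signed coordinates of the tuples -/
theorem Q_char {x : X} (hx : x ∈ Q D.f (D.S E)) : ∃ n i e, x = tp (D.t (2 * n + 1)) i e := by
  classical
  obtain ⟨k, hk, hkS, rfl⟩ := hx
  choose κ hκ using hkS
  obtain ⟨j0, hj0⟩ := Finite.exists_max κ
  set K := κ j0 with hK
  have h1 : ∀ j, k j ∈ D.L K ∨ k j ∈ New D.U D.z D.t E K := by
    intro j
    rcases (hj0 j).lt_or_eq with h | h
    · exact Or.inl (D.mono (by omega : κ j + 1 ≤ K) (D.new_mem E (hκ j)))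
    · right
      rw [← h]
      exact hκ j
  have h2 : k j0 ∉ D.L K := D.new_notMem E (hκ j0)
  rcases Nat.even_or_odd' K with ⟨n, hn | hn⟩
  · exfalso
    apply h2
    apply (D.hz K).ker k hk
    intro j
    rcases h1 j with h | h
    · exact Or.inl h
    · rcases h with ⟨n', hn', w, hw, h⟩ | ⟨n', hn', -⟩
      · right
        refine ⟨w⁻¹, inv_mem ?_, h⟩
        rw [hn']
        exact D.hU n' w hw
      · omega
  · have h3 : ∀ j, k j ∈ D.L K ∨ ∃ i e a, k j = a * tp (D.t K) i e ∧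
        (a = 1 ∨ (i = 0 ∧ ∃ m, m < n ∧ E m n ∧ a = tp (D.t (2 * m + 1)) 0 (!e))) := by
      intro j
      rcases h1 j with h | h
      · exact Or.inl h
      · rcases h with ⟨n', hn', -⟩ | ⟨n', hn', i, e, a, h, ha⟩
        · omega
        · obtain rfl : n = n' := by omega
          exact Or.inr ⟨i, e, a, h, ha⟩
    rcases (D.ht K).rel k hk (by
      intro j
      rcases h3 j with h | ⟨i, e, a, h, ha⟩
      · exact Or.inl h
      · right
        refine ⟨a, ?_, i, ?_⟩
        · rw [hn]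
          exact D.coef_mem E ha
        · rw [h]
          cases e
          · exact Or.inr rfl
          · exact Or.inl rfl) with h4 | ⟨σ, c, hc, hcL, h4⟩
    · exact absurd (h4 j0) h2
    · have h5 : ∀ j, ∃ e, k j = c j * tp (D.t K) (σ j) e := by
        intro j
        rcases h4 j with h | h
        · exact ⟨true, h⟩
        · exact ⟨false, h⟩
      choose e he using h5
      have h6 : ∀ j, k j ∉ D.L K := by
        intro j h
        apply (D.ht K).tp_notMem (σ j) (e j)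
        have := mul_mem (inv_mem (hcL j)) h
        rwa [he j, inv_mul_cancel_left] at this
      have h7 : ∀ j, c j = 1 ∨ (σ j = 0 ∧ ∃ m, m < n ∧ c j = tp (D.t (2 * m + 1)) 0 (!(e j))) := by
        intro j
        rcases h3 j with h | ⟨i, e', a, h, ha⟩
        · exact absurd h (h6 j)
        · have haL : a ∈ D.L K := by
            rw [hn]
            exact D.coef_mem E ha
          obtain ⟨h8, h9, h10⟩ := (D.ht K).uniq (hcL j) haL ((he j).symm.trans h)
          rcases ha with ha | ⟨hi, m, hm, -, ha⟩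
          · exact Or.inl (h10.trans ha)
          · exact Or.inr ⟨h8.trans hi, m, hm, by rw [h10, ha, h9]⟩
      have h8 : ∀ j, c j = 1 := by
        intro j
        rcases h7 j with h | ⟨hσ, m, hm, hcm⟩
        · exact h
        · exfalso
          obtain ⟨j', hj'⟩ := exists_ne j
          have hσ' : σ j' ≠ 0 := by
            intro h
            exact hj' (σ.injective (h.trans hσ.symm))
          have hc' : c j' = 1 := by
            rcases h7 j' with h | ⟨h, -⟩
            · exact h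
            · exact absurd h hσ'
          have h9 := D.hI (Pi.single j' 1) (by
            intro h
            have := congrFun h j'
            rw [Pi.single_eq_same] at this
            exact one_ne_zero this) c hc (by
            intro i y hy
            rw [sum_single, hc', fl_one_left, mul_zero]) j
          apply (D.ht (2 * m + 1)).tp_notMem 0 (!(e j))
          rw [← hcm]
          exact D.hL0 _ h9
      refine ⟨n, σ 0, e 0, ?_⟩
      rw [he 0, h8 0, one_mul, hn]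

theorem Q_mem (n : ℕ) (e : Bool) : tp (D.t (2 * n + 1)) 0 e ∈ Q D.f (D.S E) := by
  refine ⟨fun i => tp (D.t (2 * n + 1)) i e, ?_, ?_, rfl⟩
  · cases e
    · have h := (Ker D.f).inv_mem (D.ht (2 * n + 1)).ker
      exact h
    · exact (D.ht (2 * n + 1)).ker
  · intro j
    exact ⟨2 * n + 1, Or.inr ⟨n, rfl, j, e, 1, (one_mul _).symm, Or.inl rfl⟩⟩

theorem tp_inj {m n : ℕ} {i j : Fin (s + 2)} {e e' : Bool}
    (h : tp (D.t (2 * m + 1)) i e = tp (D.t (2 * n + 1)) j e') : m = n ∧ i = j ∧ e = e' := by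
  rcases lt_trichotomy m n with h1 | rfl | h1
  · exfalso
    apply (D.ht (2 * n + 1)).tp_notMem j e'
    rw [← h]
    exact D.mono (by omega : 2 * m + 1 + 1 ≤ 2 * n + 1) (D.tpL _ _ _)
  · obtain ⟨h5, h6, -⟩ := (D.ht (2 * m + 1)).uniq (a := 1) (a' := 1) (one_mem _)
      (one_mem _) (congrArg (fun x => 1 * x) h)
    exact ⟨rfl, h5, h6⟩
  · exfalso
    apply (D.ht (2 * m + 1)).tp_notMem i e
    rw [h]
    exact D.mono (by omega : 2 * n + 1 + 1 ≤ 2 * m + 1) (D.tpL _ _ _)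

theorem nb_eq (hE : ∀ m n, E m n → E n m) (hE' : ∀ m, ¬ E m m) (m : ℕ) (e : Bool) :
    nb D.f (D.S E) (tp (D.t (2 * m + 1)) 0 e) = (fun n => tp (D.t (2 * n + 1)) 0 e) '' {n | E m n} := by
  ext y
  constructor
  · rintro ⟨h1, h2⟩
    obtain ⟨n, j, e', rfl⟩ := D.Q_char E h1
    obtain ⟨-, rfl, rfl, h3⟩ := (D.adj E hE hE').1 h2
    exact ⟨n, h3, rfl⟩
  · rintro ⟨n, hn, rfl⟩
    exact ⟨D.Q_mem E n e, (D.adj E hE hE').2 ⟨rfl, rfl, rfl, hn⟩⟩

theorem ncard_nb (hE : ∀ m n, E m n → E n m) (hE' : ∀ m, ¬ E m m) (m : ℕ) (e : Bool) :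
    Set.ncard (nb D.f (D.S E) (tp (D.t (2 * m + 1)) 0 e)) = Set.ncard {n | E m n} := by
  rw [D.nb_eq E hE hE', Set.ncard_image_of_injective]
  intro n n' h
  exact (D.tp_inj h).1

theorem nb_empty (hE : ∀ m n, E m n → E n m) (hE' : ∀ m, ¬ E m m) (m : ℕ) (i : Fin (s + 2))
    (hi : i ≠ 0) (e : Bool) : nb D.f (D.S E) (tp (D.t (2 * m + 1)) i e) = ∅ := by
  rw [Set.eq_empty_iff_forall_notMem]
  rintro y ⟨h1, h2⟩
  obtain ⟨n, j, e', rfl⟩ := D.Q_char E h1
  exact hi ((D.adj E hE hE').1 h2).1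

open CNTM in
theorem decode (A : Set ℕ) (k : ℕ) : k + 1 ∈ J D.f (D.S (CNTM.E A)) ↔ k ∈ A := by
  have hE := CNTM.E_symm A
  have hE' : ∀ m, ¬ CNTM.E A m m := fun m h => h.1 rfl
  constructor
  · rintro ⟨x, hx, h⟩
    obtain ⟨m, i, e, rfl⟩ := D.Q_char _ hx
    have hi : i = 0 := by
      by_contra hi
      rw [D.nb_empty _ hE hE' m i hi e, Set.ncard_empty] at h
      omega
    subst hi
    rw [D.ncard_nb _ hE hE'] at h
    have hne : {j | CNTM.E A m j}.Nonempty := by
      rw [Set.nonempty_iff_ne_empty]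
      intro h0
      rw [h0, Set.ncard_empty] at h
      omega
    obtain ⟨j, hj⟩ := hne
    have h2 := ncard_E A m hj.2.2.1 hj.2.2.2.1
    rw [h2] at h
    have h3 : (Nat.unpair m).1 = k := by omega
    rw [← h3]
    exact hj.2.2.1
  · intro hk
    refine ⟨_, D.Q_mem _ (Nat.pair k 0) true, ?_⟩
    rw [D.ncard_nb _ hE hE', ncard_E]
    · rw [Nat.unpair_pair]
    · rw [Nat.unpair_pair]
      exact hk
    · rw [Nat.unpair_pair]
      show 0 < k + 2
      omega

end Dat

end CODM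

open CODM in
/-- COD -/
theorem specCOD (hLF : SpecLF.{u}) (hZST : SpecZST.{u}) (hTST : SpecTST.{u}) : SpecCOD.{u} := by
  classical
  intro X _ _ hX hc h3 s f hadm hK hind
  obtain ⟨hlf, hfc, hbi⟩ := hLF X hc h3
  -- the initial subgroup
  let I : Set X := ⋃ c ∈ {c : Fin (s + 2) → ZMod 3 | c ≠ 0}, ⋃ j : Fin (s + 2),
    (fun k : Fin (s + 2) → X => k j) ''
      {k | k ∈ Ker f ∧ ∀ i, ∀ y ∈ base X, ∑ j, c j * (f i).1 ⁅k j, y⁆ = 0}
  have hIf : I.Finite := by
    apply Set.Finite.biUnion (Set.toFinite _)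
    intro c hc
    apply Set.finite_iUnion
    intro j
    exact (hind c hc).image _
  let L0 : Subgroup X := Subgroup.closure (hIf.toFinset : Set X)
  have hL0 : (L0 : Set X).Finite := hlf _
  have hI : ∀ c : Fin (s + 2) → ZMod 3, c ≠ 0 → ∀ k ∈ Ker f,
      (∀ i, ∀ y ∈ base X, ∑ j, c j * (f i).1 ⁅k j, y⁆ = 0) → ∀ j, k j ∈ L0 := by
    intro c hc k hk h j
    apply Subgroup.subset_closure
    rw [Set.Finite.coe_toFinset]
    refine Set.mem_biUnion (show c ∈ {c : Fin (s + 2) → ZMod 3 | c ≠ 0} from hc) ?_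
    exact Set.mem_iUnion.2 ⟨j, k, ⟨hk, h⟩, rfl⟩
  have hne : Nonempty {p : Finset X × Finset X // Disjoint p.1 p.2} := ⟨⟨(∅, ∅), by simp⟩⟩
  obtain ⟨e, he⟩ := exists_surjective_nat {p : Finset X × Finset X // Disjoint p.1 p.2}
  let U : ℕ → Finset X := fun n => (e n).1.1
  let V : ℕ → Finset X := fun n => (e n).1.2
  obtain ⟨L, z, t, h1, h2, h4, h5, h6, h7, h8⟩ := exists_tower hlf f L0 hL0 (by
      intro L hL _
      obtain ⟨z, -, hz1, hz2, hz3⟩ := hZST X hX hbi (s + 2) f hadm L hL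
      exact ⟨z, hz1, hz2, hz3⟩) (by
      intro L hL hle
      obtain ⟨t, ht1, ht2, ht3, ht4⟩ := hTST X hfc (s + 1) f hK hind L hL
        (fun c hc k hk h j => hle (hI c hc k hk h j))
      exact ⟨t, ht1, ht2, ht3, ht4⟩) (fun k => U (k / 2) ∪ V (k / 2))
  have hUL : ∀ n, ∀ w ∈ U n, w ∈ L (2 * n) := by
    intro n w hw
    apply h2
    rw [Nat.mul_div_cancel_left n (by norm_num : 0 < 2)]
    exact Finset.mem_union_left _ hw
  have hVL : ∀ n, ∀ w ∈ V n, w ∈ L (2 * n) := by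
    intro n w hw
    apply h2
    rw [Nat.mul_div_cancel_left n (by norm_num : 0 < 2)]
    exact Finset.mem_union_right _ hw
  let D : Dat X s :=
    { f := f, L0 := L0, U := U, L := L, z := z, t := t, hL0 := h1, hU := hUL, hz := h4, ht := h5,
      hle := h6, hzL := h7, htL := h8, hI := hI }
  refine card_of_family (fun A => D.S (CNTM.E A)) (fun A => D.special _ V hVL ?_)
    (commutator X : Set X) hc ?_
  · intro U' V' hd
    obtain ⟨n, hn⟩ := he ⟨(U', V'), hd⟩
    refine ⟨n, ?_, ?_⟩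
    · change (e n).1.1 = U'
      rw [hn]
    · change (e n).1.2 = V'
      rw [hn]
  · intro A B α hα hAB
    have hAB' : α '' D.S (CNTM.E A) = D.S (CNTM.E B) := hAB
    have hJ := J_image (f := f) α (fun c hc => hα c hc) (D.S (CNTM.E A))
    rw [hAB'] at hJ
    ext k
    rw [← D.decode A k, ← D.decode B k]
    change k + 1 ∈ J f _ ↔ k + 1 ∈ J f _
    rw [hJ]

end Pool.Agent.Lib.MP_008109_al.PC
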