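import Pool.Agent.Lib.MP_008109_al.PC.Spec

/-!
# MP_008109_al, module CST: if all kernels are finite then the criterion holds
-/

set_option autoImplicit false

universe u

namespace Pool.Agent.Lib.MP_008109_al.PC

open Pool.Agent.Lib.MP_008109_al Pool.Agent.Lib.MP_008109_al.AB
open scoped commutatorElement

namespace CSTM

instance : Fact (Nat.Prime 3) := ⟨by norm_num⟩

variable {X : Type u} [Group X]

/-- Values of a combination. -/
theorem comb_apply {s : ℕ} (f : Fin s → Fl X) (c : Fin s → ZMod 3) (x : X) :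
    (∑ j, c j • f j : Fl X).1 x = ∑ j, c j * (f j).1 x := by
  rw [AddSubmonoidClass.coe_finsetSum, Finset.sum_apply]
  rfl

theorem rad_smul (a : ZMod 3) (ha : a ≠ 0) (l : Fl X) : rad (a • l) = rad l := by
  ext x
  rw [mem_rad, mem_rad]
  refine and_congr_right fun _ => forall₂_congr fun y _ => ?_
  change a * l.1 ⁅x, y⁆ = 0 ↔ _
  rw [mul_eq_zero, or_iff_right ha]

theorem rad_congr {l l' : Fl X} (h : ∀ u ∈ dbase X, l.1 u = l'.1 u) : rad l = rad l' := by
  ext x
  rw [mem_rad, mem_rad]
  refine and_congr_right fun hx => forall₂_congr fun y hy => ?_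
  rw [h _ (comm_mem_dbase hx hy)]

theorem rad_of_zero {l : Fl X} (h : ∀ u ∈ dbase X, l.1 u = 0) : rad l = base X := by
  ext x
  rw [mem_rad]
  exact ⟨fun hx => hx.1, fun hx => ⟨hx, fun y hy => h _ (comm_mem_dbase hx hy)⟩⟩

theorem adm_le (hfin : (dbase X : Set X).Finite) (hidx : (base X).index ≠ 0) {d : ℕ}
    (f : Fin d → Fl X) (hf : Adm f) : d ≤ Nat.card (dbase X → ZMod 3) := by
  have hf1 : Finite (dbase X) := hfin.to_subtype
  let φ : (Fin d → ZMod 3) → (dbase X → ZMod 3) := fun c u => ∑ j, c j * (f j).1 u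
  have hφ : Function.Injective φ := by
    intro c c' h
    by_contra hne
    have hc : c - c' ≠ 0 := sub_ne_zero.2 hne
    have h0 := hf _ hc
    rw [rad_of_zero] at h0
    · exact hidx h0
    · intro u hu
      rw [comb_apply]
      have h1 : ∑ j, c j * (f j).1 u = ∑ j, c' j * (f j).1 u := congrFun h ⟨u, hu⟩
      simp only [Pi.sub_apply, sub_mul, Finset.sum_sub_distrib]
      exact sub_eq_zero.2 h1
  have h1 := Nat.card_le_card_of_injective φ hφ
  have h2 : Nat.card (Fin d → ZMod 3) = 3 ^ d := by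
    rw [Nat.card_fun, Nat.card_zmod, Nat.card_fin]
  rw [h2] at h1
  exact (Nat.lt_pow_self (by norm_num)).le.trans h1

theorem exists_max (hfin : (dbase X : Set X).Finite) (hidx : (base X).index ≠ 0) :
    ∃ (d : ℕ) (f : Fin d → Fl X), Adm f ∧ ∀ f' : Fin (d + 1) → Fl X, ¬ Adm f' := by
  by_contra hcon
  push Not at hcon
  have h1 : ∀ d : ℕ, ∃ f : Fin d → Fl X, Adm f := by
    intro d
    induction d with
    | zero =>
      refine ⟨fun j => j.elim0, fun c hc => (hc ?_).elim⟩
      funext j
      exact j.elim0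
    | succ d ih =>
      obtain ⟨f, hf⟩ := ih
      exact hcon d f hf
  obtain ⟨f, hf⟩ := h1 (Nat.card (dbase X → ZMod 3) + 1)
  have := adm_le hfin hidx f hf
  omega

theorem span_of_max {d : ℕ} {f : Fin d → Fl X} (hf : Adm f)
    (hmax : ∀ f' : Fin (d + 1) → Fl X, ¬ Adm f') (l : Fl X) :
    ∃ c : Fin d → ZMod 3, (rad (l - ∑ j, c j • f j)).index ≠ 0 := by
  by_contra hcon
  push Not at hcon
  apply hmax (Fin.cons l f)
  intro c hc
  rw [Fin.sum_univ_succ]
  simp only [Fin.cons_zero, Fin.cons_succ]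
  by_cases h0 : c 0 = 0
  · rw [h0, zero_smul, zero_add]
    refine hf (fun j => c j.succ) fun h1 => hc ?_
    funext i
    exact Fin.cases h0 (fun j => congrFun h1 j) i
  · have e : c 0 • l + ∑ j, c j.succ • f j =
        c 0 • (l - ∑ j, (-(c 0)⁻¹ * c j.succ) • f j) := by
      rw [smul_sub, Finset.smul_sum, sub_eq_add_neg, ← Finset.sum_neg_distrib]
      congr 1
      refine Finset.sum_congr rfl fun j _ => ?_
      rw [smul_smul, ← neg_smul]
      congr 1
      field_simp
    rw [e, rad_smul _ h0]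
    exact hcon _

/-- The radicals of finite index. -/
def RR (X : Type u) [Group X] : Set (Subgroup X) :=
  {H | ∃ l : Fl X, (rad l).index ≠ 0 ∧ H = rad l}

theorem RR_finite (hfin : (dbase X : Set X).Finite) : (RR X).Finite := by
  classical
  have hf1 : Finite (dbase X) := hfin.to_subtype
  let Ψ : (dbase X → ZMod 3) → Subgroup X := fun g =>
    if h : ∃ l : Fl X, ∀ u : dbase X, l.1 u = g u then rad h.choose else ⊤
  refine (Set.finite_range Ψ).subset ?_
  rintro H ⟨l, -, rfl⟩
  refine ⟨fun u => l.1 u, ?_⟩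
  have h : ∃ l' : Fl X, ∀ u : dbase X, l'.1 u = l.1 u := ⟨l, fun _ => rfl⟩
  have e : Ψ (fun u => l.1 u) = rad h.choose := dif_pos h
  rw [e]
  exact rad_congr fun u hu => h.choose_spec ⟨u, hu⟩

theorem sInf_index (hfin : (dbase X : Set X).Finite) : (sInf (RR X)).index ≠ 0 := by
  rw [sInf_eq_iInf']
  have : Finite (RR X) := (RR_finite hfin).to_subtype
  refine (Subgroup.finiteIndex_iInf fun i => ⟨?_⟩).index_ne_zero
  obtain ⟨l, hl, hi⟩ := i.2
  rw [hi]
  exact hl

/-- The annihilator of a functional. -/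
def ann (m : Fl X) : Subgroup X where
  carrier := {u | u ∈ dbase X ∧ m.1 u = 0}
  one_mem' := ⟨(dbase X).one_mem, fl_one m⟩
  mul_mem' := by
    rintro u v ⟨hu, h⟩ ⟨hv, h'⟩
    refine ⟨(dbase X).mul_mem hu hv, ?_⟩
    rw [fl_mul m hu hv, h, h', add_zero]
  inv_mem' := by
    rintro u ⟨hu, h⟩
    refine ⟨(dbase X).inv_mem hu, ?_⟩
    rw [fl_inv m hu, h, neg_zero]

theorem vanish {M : Subgroup X} {m : Fl X} (hM : M ≤ rad m) {u : X}
    (hu : u ∈ (⁅M, M⁆ : Subgroup X)) : m.1 u = 0 := by
  have h : (⁅M, M⁆ : Subgroup X) ≤ ann m := by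
    rw [Subgroup.commutator_le]
    intro x hx y hy
    have h1 := mem_rad.1 (hM hx)
    have h2 := mem_rad.1 (hM hy)
    exact ⟨comm_mem_dbase h1.1 h2.1, h1.2 y h2.1⟩
  exact (h hu).2

/-- The count for a finite subgroup of the base. -/
theorem count (hHOMS : SpecHOMS.{u}) {d : ℕ} (f : Fin d → Fl X)
    (hker : (Ker f : Set (Fin d → X)).Finite) (F : Subgroup X) (hF : (F : Set X).Finite)
    (hFb : F ≤ base X) (hcent : (Subgroup.centralizer (F : Set X)).index ≠ 0) :
    Nat.card F ^ d ≤ Nat.card (Ker f) * (Subgroup.centralizer (F : Set X)).index := by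
  classical
  have hfF : Finite F := hF.to_subtype
  have hfK : Finite (Ker f) := hker.to_subtype
  have : Fintype (Fin d → F) := Fintype.ofFinite _
  let Φ : (Fin d → F) → (base X → ZMod 3) := fun g y => ∑ j, (f j).1 ⁅((g j : F) : X), (y : X)⁆
  have h1 : (Finset.univ.image Φ).card ≤
      ((Subgroup.centralizer (F : Set X)).subgroupOf (base X)).index := by
    refine hHOMS (base X) _ ?_ _ ?_
    · have hc : (Subgroup.centralizer (F : Set X)).FiniteIndex := ⟨hcent⟩
      exact (inferInstance :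
        ((Subgroup.centralizer (F : Set X)).subgroupOf (base X)).FiniteIndex).index_ne_zero
    · intro h hh
      obtain ⟨g, _, rfl⟩ := Finset.mem_image.1 hh
      refine ⟨fun x y => ?_, fun c hc => ?_⟩
      · change ∑ j, (f j).1 ⁅((g j : F) : X), ((x * y : base X) : X)⁆ =
          ∑ j, (f j).1 ⁅((g j : F) : X), (x : X)⁆ + ∑ j, (f j).1 ⁅((g j : F) : X), (y : X)⁆
        rw [← Finset.sum_add_distrib]
        refine Finset.sum_congr rfl fun j _ => ?_
        exact fl_right (f j) (hFb (g j).2) x.2 y.2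
      · change ∑ j, (f j).1 ⁅((g j : F) : X), (c : X)⁆ = 0
        refine Finset.sum_eq_zero fun j _ => ?_
        have h2 : (c : X) ∈ Subgroup.centralizer (F : Set X) := hc
        have h3 := Subgroup.mem_centralizer_iff.1 h2 (g j : X) (g j).2
        rw [commutatorElement_eq_one_iff_mul_comm.2 h3, fl_one]
  have h2 : ((Subgroup.centralizer (F : Set X)).subgroupOf (base X)).index ≤
      (Subgroup.centralizer (F : Set X)).index := by
    have h3 := Subgroup.relIndex_le_of_le_right (H := Subgroup.centralizer (F : Set X))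
      (K := base X) (L := ⊤) le_top (by rw [Subgroup.relIndex_top_right]; exact hcent)
    rwa [Subgroup.relIndex_top_right] at h3
  have h3 : (Finset.univ : Finset (Fin d → F)).card ≤
      Nat.card (Ker f) * (Finset.univ.image Φ).card := by
    refine Finset.card_le_mul_card_image _ _ fun b hb => ?_
    obtain ⟨g₀, _, rfl⟩ := Finset.mem_image.1 hb
    set s : Finset (Fin d → F) := {a ∈ (Finset.univ : Finset (Fin d → F)) | Φ a = Φ g₀} with hs
    have hmem : ∀ a : s, (fun j => ((g₀ j : F) : X)⁻¹ * ((a.1 j : F) : X)) ∈ Ker f := by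
      intro a
      have ha : Φ a.1 = Φ g₀ := (Finset.mem_filter.1 a.2).2
      refine mem_Ker.2 ⟨fun j => (base X).mul_mem ((base X).inv_mem (hFb (g₀ j).2))
        (hFb (a.1 j).2), fun y hy => ?_⟩
      have h4 : ∑ j, (f j).1 ⁅((a.1 j : F) : X), y⁆ = ∑ j, (f j).1 ⁅((g₀ j : F) : X), y⁆ :=
        congrFun ha ⟨y, hy⟩
      have h5 : ∀ j, (f j).1 ⁅((g₀ j : F) : X)⁻¹ * ((a.1 j : F) : X), y⁆ =
          -(f j).1 ⁅((g₀ j : F) : X), y⁆ + (f j).1 ⁅((a.1 j : F) : X), y⁆ := by
        intro j
        rw [fl_left (f j) ((base X).inv_mem (hFb (g₀ j).2)) (hFb (a.1 j).2) hy,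
          fl_inv_left (f j) (hFb (g₀ j).2) hy]
      simp only [h5, Finset.sum_add_distrib, Finset.sum_neg_distrib, h4, neg_add_cancel]
    have hinj : Function.Injective (fun a : s => (⟨_, hmem a⟩ : Ker f)) := by
      intro a a' h
      have h4 : (fun j => ((g₀ j : F) : X)⁻¹ * ((a.1 j : F) : X)) =
          (fun j => ((g₀ j : F) : X)⁻¹ * ((a'.1 j : F) : X)) := congrArg Subtype.val h
      apply Subtype.ext
      funext j
      apply Subtype.ext
      exact mul_left_cancel (congrFun h4 j)
    have h6 := Nat.card_le_card_of_injective _ hinj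
    rwa [Nat.card_eq_fintype_card, Fintype.card_coe] at h6
  have h4 : (Finset.univ : Finset (Fin d → F)).card = Nat.card F ^ d := by
    rw [Finset.card_univ, ← Nat.card_eq_fintype_card, Nat.card_fun, Nat.card_fin]
  rw [← h4]
  exact h3.trans (Nat.mul_le_mul_left _ (h1.trans h2))

/-- The separation of the points of the derived subgroup. -/
theorem separate (hSEP : SpecSEP.{u}) (hder : (commutator X : Set X).Finite) {u : X}
    (hu : u ∈ dbase X) (h : ∀ l : Fl X, l.1 u = 0) : u = 1 := by
  obtain ⟨f, hf⟩ := hSEP X hder (base X) le_rfl (Nat.card (⁅base X, base X⁆ : Subgroup X))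
    (Nat.lt_pow_self (by norm_num)).le
  exact hf u hu fun j => h (f j)

end CSTM

open CSTM in
theorem specCST (hLF : SpecLF.{u}) (hHOMS : SpecHOMS.{u}) (hSEP : SpecSEP.{u}) :
    SpecCST.{u} := by
  classical
  intro X _ hder hcub hker
  obtain ⟨-, hFC, hidx⟩ := hLF X hder hcub
  have hfin : (dbase X : Set X).Finite := hder.subset dbase_le
  have hfD : Finite (dbase X) := hfin.to_subtype
  obtain ⟨d, f, hf, hmax⟩ := exists_max hfin hidx
  have hspan := span_of_max hf hmax
  -- the subgroup `M`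
  have hMb : sInf (RR X) ≤ base X := by
    refine sInf_le ⟨0, ?_, ?_⟩
    · rw [rad_of_zero fun u _ => rfl]
      exact hidx
    · exact (rad_of_zero fun u _ => rfl).symm
  have hMd : (⁅sInf (RR X), sInf (RR X)⁆ : Subgroup X) ≤ dbase X :=
    Subgroup.commutator_mono hMb hMb
  have hsep : ∀ u ∈ (⁅sInf (RR X), sInf (RR X)⁆ : Subgroup X), (∀ j, (f j).1 u = 0) → u = 1 := by
    intro u hu h
    refine separate hSEP hder (hMd hu) fun l => ?_
    obtain ⟨c, hc⟩ := hspan l
    have h1 : sInf (RR X) ≤ rad (l - ∑ j, c j • f j) := sInf_le ⟨_, hc, rfl⟩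
    have h2 := vanish h1 hu
    have h3 : (l - ∑ j, c j • f j : Fl X).1 u = l.1 u - ∑ j, c j * (f j).1 u := by
      rw [← comb_apply]
      rfl
    rw [h3] at h2
    simpa [h] using h2
  have hcardM : Nat.card (⁅sInf (RR X), sInf (RR X)⁆ : Subgroup X) ≤ 3 ^ d := by
    let ψ : (⁅sInf (RR X), sInf (RR X)⁆ : Subgroup X) → (Fin d → ZMod 3) :=
      fun u j => (f j).1 u
    have hψ : Function.Injective ψ := by
      intro u v huv
      have h1 : ∀ j, (f j).1 ((u : X) * (v : X)⁻¹) = 0 := by
        intro j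
        have h2 : (f j).1 (u : X) = (f j).1 (v : X) := congrFun huv j
        rw [fl_mul (f j) (hMd u.2) ((dbase X).inv_mem (hMd v.2)), fl_inv (f j) (hMd v.2), h2,
          add_neg_cancel]
      have h2 := hsep _ (Subgroup.mul_mem _ u.2 (Subgroup.inv_mem _ v.2)) h1
      exact Subtype.ext (mul_inv_eq_one.1 h2)
    have h1 := Nat.card_le_card_of_injective ψ hψ
    rwa [Nat.card_fun, Nat.card_zmod, Nat.card_fin] at h1
  -- the kernel is finite
  have hkf : (Ker f : Set (Fin d → X)).Finite := by
    cases d with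
    | zero => exact Set.toFinite _
    | succ s => exact hker s f hf
  refine ⟨hder, hcub, d, (base X).index ^ d * Nat.card (Ker f), sInf (RR X), sInf_index hfin,
    hcardM, fun F hF => ?_⟩
  have hfF : Finite F := hF.to_subtype
  have hF0 : ((F ⊓ base X : Subgroup X) : Set X).Finite := hF.subset inf_le_left
  have hc1 : (Subgroup.centralizer (F : Set X)).FiniteIndex := DstM.cent_finiteIndex hFC hF
  have hc0 : (Subgroup.centralizer ((F ⊓ base X : Subgroup X) : Set X)).FiniteIndex :=
    DstM.cent_finiteIndex hFC hF0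
  have h1 := count hHOMS f hkf (F ⊓ base X) hF0 inf_le_right hc0.index_ne_zero
  have h2 : (Subgroup.centralizer ((F ⊓ base X : Subgroup X) : Set X)).index ≤
      (Subgroup.centralizer (F : Set X)).index :=
    Subgroup.index_antitone (Subgroup.centralizer_le inf_le_left)
  have h3 : Nat.card F ≤ Nat.card (F ⊓ base X : Subgroup X) * (base X).index := by
    rw [← Subgroup.card_mul_index ((base X).subgroupOf F)]
    refine Nat.mul_le_mul (le_of_eq ?_) ?_
    · have e : ((base X).subgroupOf F).map F.subtype = F ⊓ base X := by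
        rw [Subgroup.subgroupOf_map_subtype, inf_comm]
      rw [← e]
      exact Nat.card_congr (Subgroup.equivMapOfInjective _ _ F.subtype_injective).toEquiv
    · have h4 := Subgroup.relIndex_le_of_le_right (H := base X) (K := F) (L := ⊤) le_top
        (by rw [Subgroup.relIndex_top_right]; exact hidx)
      rwa [Subgroup.relIndex_top_right] at h4
  calc Nat.card F ^ d ≤ (Nat.card (F ⊓ base X : Subgroup X) * (base X).index) ^ d :=
        Nat.pow_le_pow_left h3 d
    _ = (base X).index ^ d * Nat.card (F ⊓ base X : Subgroup X) ^ d := by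
        rw [mul_pow, mul_comm]
    _ ≤ (base X).index ^ d * (Nat.card (Ker f) *
        (Subgroup.centralizer ((F ⊓ base X : Subgroup X) : Set X)).index) :=
        Nat.mul_le_mul_left _ h1
    _ ≤ (base X).index ^ d * (Nat.card (Ker f) *
        (Subgroup.centralizer (F : Set X)).index) :=
        Nat.mul_le_mul_left _ (Nat.mul_le_mul_left _ h2)
    _ = (base X).index ^ d * Nat.card (Ker f) * (Subgroup.centralizer (F : Set X)).index := by
        rw [mul_assoc]

end Pool.Agent.Lib.MP_008109_al.PC
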