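import Pool.Agent.Lib.MP_008109_al.PC.Spec

/-!
# MP_008109_al: a homomorphism into `ZMod 3` in a family closed under addition
-/

set_option autoImplicit false

universe u

namespace Pool.Agent.Lib.MP_008109_al.PC

namespace DUALM

variable {G : Type u} [Group G]

theorem map_one' {f : G → ZMod 3} (hf : ∀ g g', f (g * g') = f g + f g') : f 1 = 0 := by
  have h := hf 1 1
  rw [mul_one] at h
  exact left_eq_add.mp h

theorem map_pow' {f : G → ZMod 3} (hf : ∀ g g', f (g * g') = f g + f g') (g : G) (n : ℕ) :
    f (g ^ n) = (n : ZMod 3) * f g := by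
  induction n with
  | zero => rw [pow_zero, map_one' hf, Nat.cast_zero, zero_mul]
  | succ n ih =>
    rw [pow_succ, hf, ih, Nat.cast_succ]
    ring

theorem map_list {f : G → ZMod 3} (hf : ∀ g g', f (g * g') = f g + f g') (l : List G) :
    f l.prod = (l.map f).sum := by
  induction l with
  | nil => simpa using map_one' hf
  | cons a l ih => rw [List.prod_cons, hf, ih, List.map_cons, List.sum_cons]

/-- the element `∏ g ^ c g` -/
theorem exists_elem [Fintype G] (c : G → ZMod 3) : ∃ h : G, ∀ f : G → ZMod 3,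
    (∀ g g', f (g * g') = f g + f g') → f h = ∑ g, f g * c g := by
  refine ⟨((Finset.univ : Finset G).toList.map fun g => g ^ (c g).val).prod, ?_⟩
  intro f hf
  rw [map_list hf, List.map_map]
  have h1 : (f ∘ fun g => g ^ (c g).val) = fun g => f g * c g := by
    funext g
    show f (g ^ (c g).val) = f g * c g
    rw [map_pow' hf, ZMod.natCast_zmod_val, mul_comm]
  rw [h1, Finset.sum_map_toList]

/-- the space of the members of the family -/
def fam {Y : Type u} [Group Y] (w : Y → G → ZMod 3)
    (hw : ∀ y y' g, w (y * y') g = w y g + w y' g) : Submodule (ZMod 3) (G → ZMod 3) where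
  carrier := Set.range w
  zero_mem' := by
    refine ⟨1, ?_⟩
    funext g
    exact map_one' (f := fun y => w y g) (fun y y' => hw y y' g)
  add_mem' := by
    rintro _ _ ⟨y, rfl⟩ ⟨y', rfl⟩
    exact ⟨y * y', by funext g; exact hw y y' g⟩
  smul_mem' := by
    rintro c _ ⟨y, rfl⟩
    refine ⟨y ^ c.val, ?_⟩
    funext g
    have h := map_pow' (f := fun y => w y g) (fun y y' => hw y y' g) y c.val
    show w (y ^ c.val) g = c • w y g
    rw [smul_eq_mul]
    have h' : w (y ^ c.val) g = ((c.val : ℕ) : ZMod 3) * w y g := h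
    rw [h', ZMod.natCast_zmod_val]

end DUALM

open DUALM in
theorem specDUAL : SpecDUAL.{u} := by
  intro G Y _ _ _ w hw hw' η hη hker
  classical
  haveI : Fact (Nat.Prime 3) := ⟨Nat.prime_three⟩
  haveI := Fintype.ofFinite G
  by_contra hno
  have hmem : η ∉ fam w hw := by
    rintro ⟨y, hy⟩
    exact hno ⟨y, fun g => by rw [hy]⟩
  obtain ⟨φ, hφ, hle⟩ := Submodule.exists_le_ker_of_notMem hmem
  obtain ⟨h, hh⟩ := exists_elem (G := G) (fun g => φ (fun j => if g = j then 1 else 0))
  have key : ∀ f : G → ZMod 3, (∀ g g', f (g * g') = f g + f g') → f h = φ f := by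
    intro f hf
    rw [hh f hf, LinearMap.pi_apply_eq_sum_univ φ f]
    rfl
  apply hφ
  rw [← key η hη]
  apply hker
  intro y
  rw [key (w y) (hw' y)]
  exact LinearMap.mem_ker.mp (hle ⟨y, rfl⟩)

end Pool.Agent.Lib.MP_008109_al.PC
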