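import Pool.Agent.Lib.MP_008109_al.PC.Spec

/-!
# MP_008109_al, module EXT: the extension property
-/

set_option autoImplicit false

universe u

namespace Pool.Agent.Lib.MP_008109_al.PC

open Pool.Agent.Lib.MP_008109_al Pool.Agent.Lib.MP_008109_al.AB
open scoped commutatorElement

/-- EXT -/
theorem specEXT (hDUAL : SpecDUAL.{u}) : SpecEXT.{u} := by
  classical
  intro X _ M F0 F1 hMn hMb hcF0 hF01 hcov d f hf hK A hA h1 hd hcos x hx
  let AM : Subgroup (X × X) := A ⊓ M.comap (MonoidHom.fst X X)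
  have hAM1 : ∀ p : AM, p.1.1 ∈ M := fun p => p.2.2
  have hAM2 : ∀ p : AM, p.1.2 ∈ M := fun p => by
    have := M.mul_mem (hAM1 p) (hcos p.1 p.2.1)
    rwa [mul_inv_cancel_left] at this
  have hfinA : Finite AM := (hA.subset (fun p hp => hp.1)).to_subtype
  let H0 : Subgroup X := M ⊓ Subgroup.centralizer (F0 : Set X)
  let w : H0 → (Fin d → AM) → ZMod 3 := fun y g => ∑ j, (f j).1 ⁅(g j).1.2, y.1⁆
  let η : (Fin d → AM) → ZMod 3 := fun g =>
    ∑ j, ((f j).1 ⁅(g j).1.1, x⁆ - (f j).1 ⁅(g j).1.2, x⁆)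
  have hH0 : ∀ y : H0, y.1 ∈ base X := fun y => hMb y.2.1
  obtain ⟨y, hy⟩ := hDUAL (Fin d → AM) H0 w (by
      intro y y' g
      simp only [w]
      rw [← Finset.sum_add_distrib]
      exact Finset.sum_congr rfl fun j _ =>
        fl_right (f j) (hMb (hAM2 (g j))) (hH0 y) (hH0 y')) (by
      intro y g g'
      simp only [w]
      rw [← Finset.sum_add_distrib]
      exact Finset.sum_congr rfl fun j _ =>
        fl_left (f j) (hMb (hAM2 (g j))) (hMb (hAM2 (g' j))) (hH0 y)) η (by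
      intro g g'
      simp only [η]
      rw [← Finset.sum_add_distrib]
      apply Finset.sum_congr rfl
      intro j _
      have e1 : (f j).1 ⁅((g * g') j).1.1, x⁆ = (f j).1 ⁅(g j).1.1, x⁆ + (f j).1 ⁅(g' j).1.1, x⁆ :=
        fl_left (f j) (hMb (hAM1 (g j))) (hMb (hAM1 (g' j))) (hMb hx)
      have e2 : (f j).1 ⁅((g * g') j).1.2, x⁆ = (f j).1 ⁅(g j).1.2, x⁆ + (f j).1 ⁅(g' j).1.2, x⁆ :=
        fl_left (f j) (hMb (hAM2 (g j))) (hMb (hAM2 (g' j))) (hMb hx)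
      rw [e1, e2]
      ring) (by
      intro g hg
      have h2 := hK (fun j => (g j).1.2) (fun j => hAM2 (g j)) (by
        intro y hyM hyF
        exact hg ⟨y, hyM, Subgroup.mem_centralizer_iff.2 fun a ha => hyF a ha⟩)
      apply Finset.sum_eq_zero
      intro j _
      have h3 : (g j).1.1 = (g j).1.2 := by
        have h4 := A.mul_mem (g j).2.1 (A.inv_mem (hd _ (h2 j)))
        have h5 := (h1 _ h4).2 (by simp)
        have h6 : (g j).1.1 * ((g j).1.2)⁻¹ = 1 := h5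
        exact mul_inv_eq_one.1 h6
      rw [h3, sub_self])
  have hyx : y.1 ∈ M := y.2.1
  have hyF : ∀ a ∈ F0, a * y.1 = y.1 * a := fun a ha => Subgroup.mem_centralizer_iff.1 y.2.2 a ha
  -- the solution on `AM`
  have key : ∀ p : AM, ⁅p.1.2, x * y.1⁆ = ⁅p.1.1, x⁆ := by
    intro p
    have hpf : ∀ j, (f j).1 ⁅p.1.1, x⁆ - (f j).1 ⁅p.1.2, x⁆ = (f j).1 ⁅p.1.2, y.1⁆ := by
      intro j
      have h2 := hy (Pi.mulSingle j p)
      simp only [η, w] at h2
      rw [Finset.sum_eq_single j, Finset.sum_eq_single j] at h2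
      · simpa using h2
      · intro j' _ hj'
        rw [Pi.mulSingle_eq_of_ne hj']
        exact fl_one_left (f j') y.1
      · intro h
        exact absurd (Finset.mem_univ _) h
      · intro j' _ hj'
        rw [Pi.mulSingle_eq_of_ne hj']
        change (f j').1 ⁅(1 : X), x⁆ - (f j').1 ⁅(1 : X), x⁆ = 0
        rw [sub_self]
      · intro h
        exact absurd (Finset.mem_univ _) h
    rw [comm_mul_right (hMb hx)]
    have hm1 : ⁅p.1.1, x⁆ ∈ (⁅M, M⁆ : Subgroup X) :=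
      Subgroup.commutator_mem_commutator (hAM1 p) hx
    have hm2 : ⁅p.1.2, x⁆ ∈ (⁅M, M⁆ : Subgroup X) :=
      Subgroup.commutator_mem_commutator (hAM2 p) hx
    have hm3 : ⁅p.1.2, y.1⁆ ∈ (⁅M, M⁆ : Subgroup X) :=
      Subgroup.commutator_mem_commutator (hAM2 p) hyx
    have hle : (⁅M, M⁆ : Subgroup X) ≤ dbase X := Subgroup.commutator_mono hMb hMb
    have h3 := hf (⁅p.1.1, x⁆⁻¹ * (⁅p.1.2, x⁆ * ⁅p.1.2, y.1⁆))
      (mul_mem (inv_mem hm1) (mul_mem hm2 hm3)) (by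
        intro j
        rw [fl_mul (f j) (inv_mem (hle hm1)) (mul_mem (hle hm2) (hle hm3)),
          fl_mul (f j) (hle hm2) (hle hm3), fl_inv (f j) (hle hm1), ← hpf j]
        ring)
    rw [inv_mul_eq_one] at h3
    exact h3.symm
  refine ⟨x * y.1, M.mul_mem hx hyx, ?_⟩
  intro p hp
  obtain ⟨a, ha, m, hm, hpm⟩ := hcov p.1
  have hp' : ((a, a) : X × X)⁻¹ * p ∈ A := A.mul_mem (A.inv_mem (hd a (hF01 ha))) hp
  have hp1 : a⁻¹ * p.1 = m := by rw [hpm, inv_mul_cancel_left]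
  have hpAM : ((a, a) : X × X)⁻¹ * p ∈ AM := by
    refine ⟨hp', ?_⟩
    change a⁻¹ * p.1 ∈ M
    rw [hp1]
    exact hm
  have h2 : ⁅a⁻¹ * p.2, x * y.1⁆ = ⁅a⁻¹ * p.1, x⁆ := key ⟨_, hpAM⟩
  have h3 : ⁅a, x * y.1⁆ = ⁅a, x⁆ := by
    rw [comm_mul_right (hMb hx)]
    have : ⁅a, y.1⁆ = 1 := by
      rw [commutatorElement_def, hyF a ha]
      group
    rw [this, mul_one]
  have h4 : ∀ b z : X, ⁅a * b, z⁆ = a * ⁅b, z⁆ * a⁻¹ * ⁅a, z⁆ := by
    intro b z
    simp only [commutatorElement_def]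
    group
  have e1 : p.2 = a * (a⁻¹ * p.2) := by group
  have e2 : p.1 = a * (a⁻¹ * p.1) := by group
  rw [e1, e2, h4, h4, h2, h3]

end Pool.Agent.Lib.MP_008109_al.PC
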