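import Pool.Agent.Lib.MP_008109_al.PC.Spec
import Pool.Agent.Lib.MP_008109_al.AB.FiniteOrbits

/-!
# MP_008109_al, module FNX: the criterion gives finitely many orbits
-/

set_option autoImplicit false

universe u

namespace Pool.Agent.Lib.MP_008109_al.PC

open Pool.Agent.Lib.MP_008109_al Pool.Agent.Lib.MP_008109_al.AB
open scoped commutatorElement

/-- FNX -/
theorem specFNX (hLF : SpecLF.{u}) (hSEP : SpecSEP.{u}) (hBFX : SpecBFX.{u}) (hKFN : SpecKFN.{u})
    (hEXT : SpecEXT.{u}) : SpecFNX.{u} := by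
  classical
  rintro X _ _ ⟨hc, h3, d, c, M1, hM1, hM1c, hF⟩
  obtain ⟨hlf, hfc, hbi⟩ := hLF X hc h3
  have hfi1 : M1.FiniteIndex := ⟨hM1⟩
  have hfib : (base X).FiniteIndex := ⟨hbi⟩
  let M : Subgroup X := (M1 ⊓ base X).normalCore
  have hMle : M ≤ M1 ⊓ base X := Subgroup.normalCore_le _
  have hMb : M ≤ base X := hMle.trans inf_le_right
  have hMn : M.Normal := Subgroup.normalCore_normal _
  have hfiM : M.FiniteIndex := inferInstance
  have hcard : Nat.card (⁅M, M⁆ : Subgroup X) ≤ 3 ^ d := by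
    refine le_trans ?_ hM1c
    have hle1 : (⁅M, M⁆ : Subgroup X) ≤ ⁅M1, M1⁆ :=
      Subgroup.commutator_mono (hMle.trans inf_le_left) (hMle.trans inf_le_left)
    have hle2 : (⁅M1, M1⁆ : Subgroup X) ≤ commutator X := Subgroup.commutator_mono le_top le_top
    have hfin : Finite (⁅M1, M1⁆ : Subgroup X) := (hc.subset hle2).to_subtype
    exact Nat.card_le_card_of_injective (Subgroup.inclusion hle1)
      (Subgroup.inclusion_injective hle1)
  obtain ⟨f, hf⟩ := hSEP X hc M hMb d hcard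
  -- the subgroup F0
  have hfq : Finite (X ⧸ M) := inferInstance
  have := Fintype.ofFinite (X ⧸ M)
  let R : Finset X := Finset.univ.image (fun q : X ⧸ M => q.out) ∪ hc.toFinset
  let F0 : Subgroup X := Subgroup.closure (R : Set X)
  have hF0 : (F0 : Set X).Finite := hlf R
  have hcF0 : commutator X ≤ F0 := by
    intro x hx
    apply Subgroup.subset_closure
    simp only [R, Finset.coe_union, Set.Finite.coe_toFinset]
    exact Or.inr hx
  have hcov : ∀ x : X, ∃ a ∈ F0, ∃ m ∈ M, x = a * m := by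
    intro x
    refine ⟨((x : X) : X ⧸ M).out, Subgroup.subset_closure ?_, (((x : X) : X ⧸ M).out)⁻¹ * x,
      ?_, by group⟩
    · simp only [R, Finset.coe_union, Finset.coe_image, Finset.coe_univ, Set.image_univ]
      exact Or.inl ⟨_, rfl⟩
    · rw [← QuotientGroup.eq]
      exact QuotientGroup.out_eq' _
  -- the kernel
  let H : Subgroup X := M ⊓ Subgroup.centralizer (F0 : Set X)
  have hCf : (Subgroup.centralizer (F0 : Set X)).FiniteIndex := DstM.cent_finiteIndex hfc hF0
  have hHi : H.FiniteIndex := inferInstance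
  have hK := hKFN X hlf M H hMb inf_le_left hHi.index_ne_zero d c f hf hF
  set K : Set (Fin d → X) := {k | (∀ j, k j ∈ M) ∧ ∀ y ∈ H, ∑ j, (f j).1 ⁅k j, y⁆ = 0} with hKdef
  have hcoord : (⋃ j : Fin d, (fun k : Fin d → X => k j) '' K).Finite :=
    Set.finite_iUnion fun j => hK.image _
  let F1 : Subgroup X := Subgroup.closure ((hF0.toFinset ∪ hcoord.toFinset : Finset X) : Set X)
  have hF1 : (F1 : Set X).Finite := hlf _
  have hF01 : F0 ≤ F1 := by
    intro x hx
    apply Subgroup.subset_closure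
    simp only [Finset.coe_union, Set.Finite.coe_toFinset]
    exact Or.inl hx
  have hK1 : ∀ k : Fin d → X, (∀ j, k j ∈ M) →
      (∀ y ∈ M, (∀ a ∈ F0, a * y = y * a) → ∑ j, (f j).1 ⁅k j, y⁆ = 0) → ∀ j, k j ∈ F1 := by
    intro k hk h j
    apply Subgroup.subset_closure
    simp only [Finset.coe_union, Set.Finite.coe_toFinset]
    right
    refine Set.mem_iUnion.2 ⟨j, k, ⟨hk, ?_⟩, rfl⟩
    rintro y ⟨hy1, hy2⟩
    exact h y hy1 fun a ha => Subgroup.mem_centralizer_iff.1 hy2 a ha
  apply finite_of_trace (F1 : Set X) hF1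
  intro S T hS hT h
  obtain ⟨α, -, hα⟩ := hBFX X M F1 hMn hfiM.index_ne_zero (fun m hm => (hMb hm).1) hF1
    (hcF0.trans hF01) (fun x => by
      obtain ⟨a, ha, m, hm, rfl⟩ := hcov x
      exact ⟨a, hF01 ha, m, hm, rfl⟩)
    (hEXT X M F0 F1 hMn hMb hcF0 hF01 hcov d f hf hK1) S T hS hT h
  exact ⟨α, hα⟩

end Pool.Agent.Lib.MP_008109_al.PC
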