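import Pool.Agent.Lib.MP_008109_al.PC.Spec

/-!
# MP_008109_al, PC, module HOMS
-/

set_option autoImplicit false

universe u

namespace Pool.Agent.Lib.MP_008109_al.PC

open Pool.Agent.Lib.MP_008109_al Pool.Agent.Lib.MP_008109_al.AB
open scoped commutatorElement

namespace HOMSM

variable {G : Type u} [Group G]

/-- the complex character of a homomorphism to `ZMod 3` -/
noncomputable def chi (h : G → ZMod 3) (hh : ∀ x y, h (x * y) = h x + h y) : G →* ℂ where
  toFun x := ZMod.stdAddChar (h x)
  map_one' := by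
    have h1 := hh 1 1
    rw [mul_one] at h1
    have h2 : h 1 = 0 := by
      have h3 : h 1 + 0 = h 1 + h 1 := by rw [add_zero]; exact h1
      exact (add_left_cancel h3).symm
    rw [h2, AddChar.map_zero_eq_one]
  map_mul' x y := by rw [hh, AddChar.map_add_eq_mul]

end HOMSM

open HOMSM in
theorem specHOMS : SpecHOMS.{u} := by
  intro G _ C hC T hT
  have hfi : C.FiniteIndex := ⟨hC⟩
  have hfin : Finite (G ⧸ C) := Subgroup.finite_quotient_of_finiteIndex
  have hft : Fintype (G ⧸ C) := Fintype.ofFinite _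
  let L : ((G ⧸ C) → ℂ) →ₗ[ℂ] (G → ℂ) := LinearMap.funLeft ℂ ℂ (fun g : G => (g : G ⧸ C))
  let ψ : T → (G →* ℂ) := fun h => chi h.1 (hT h.1 h.2).1
  have hψ : Function.Injective ψ := by
    intro a b hab
    apply Subtype.ext
    funext x
    have h1 := DFunLike.congr_fun hab x
    exact ZMod.injective_stdAddChar h1
  have hex : ∀ h : T, ∃ u : (G ⧸ C) → ℂ, L u = (ψ h : G → ℂ) := by
    intro h
    refine ⟨fun q => ψ h q.out, ?_⟩
    funext g
    show ψ h ((g : G ⧸ C).out) = ψ h g
    obtain ⟨c, hc⟩ := QuotientGroup.mk_out_eq_mul C g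
    rw [hc]
    show ZMod.stdAddChar (h.1 (g * c)) = ZMod.stdAddChar (h.1 g)
    rw [(hT h.1 h.2).1, (hT h.1 h.2).2 c c.2, add_zero]
  choose u hu using hex
  have hlin : LinearIndependent ℂ u := by
    refine LinearIndependent.of_comp L ?_
    have h1 := (linearIndependent_monoidHom G ℂ).comp ψ hψ
    have h2 : (L ∘ u) = ((fun f : G →* ℂ => (f : G → ℂ)) ∘ ψ) := by
      funext h
      exact hu h
    rw [h2]
    exact h1
  have h3 := hlin.fintype_card_le_finrank
  rw [Module.finrank_fintype_fun_eq_card, Fintype.card_coe] at h3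
  have h4 : C.index = Fintype.card (G ⧸ C) := by
    rw [Subgroup.index, Nat.card_eq_fintype_card]
  rw [h4]
  exact h3

end Pool.Agent.Lib.MP_008109_al.PC
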