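import Pool.Agent.Lib.MP_008109_al.PC.Spec

/-!
# MP_008109_al, module IND: minimality gives independence
-/

set_option autoImplicit false

universe u

namespace Pool.Agent.Lib.MP_008109_al.PC

open Pool.Agent.Lib.MP_008109_al Pool.Agent.Lib.MP_008109_al.AB
open scoped commutatorElement

namespace INDM

variable {X : Type u} [Group X]

theorem coe_sum_smul {s : ℕ} (f : Fin s → Fl X) (c : Fin s → ZMod 3) (x : X) :
    (∑ j, c j • f j : Fl X).1 x = ∑ j, c j * (f j).1 x := by
  rw [AddSubmonoidClass.coe_finsetSum, Finset.sum_apply]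
  rfl

/-- the reduced tuple of functionals -/
noncomputable def red {s : ℕ} (f : Fin (s + 2) → Fl X) (c : Fin (s + 2) → ZMod 3)
    (j0 : Fin (s + 2)) (i : Fin (s + 1)) : Fl X :=
  f (j0.succAbove i) - ((c j0)⁻¹ * c (j0.succAbove i)) • f j0

theorem red_apply {s : ℕ} (f : Fin (s + 2) → Fl X) (c : Fin (s + 2) → ZMod 3)
    (j0 : Fin (s + 2)) (i : Fin (s + 1)) (x : X) :
    (red f c j0 i).1 x = (f (j0.succAbove i)).1 x -
      ((c j0)⁻¹ * c (j0.succAbove i)) * (f j0).1 x := rfl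

theorem red_adm {s : ℕ} (f : Fin (s + 2) → Fl X) (hf : Adm f) (c : Fin (s + 2) → ZMod 3)
    (j0 : Fin (s + 2)) : Adm (red f c j0) := by
  intro c' hc'
  let c'' : Fin (s + 2) → ZMod 3 := Fin.insertNth j0
    (-∑ i, c' i * ((c j0)⁻¹ * c (j0.succAbove i))) c'
  have hc'' : c'' ≠ 0 := by
    intro h
    apply hc'
    ext i
    have h1 := congrFun h (j0.succAbove i)
    simp only [c'', Fin.insertNth_apply_succAbove, Pi.zero_apply] at h1
    rw [h1, Pi.zero_apply]
  have e : ∑ i, c' i • red f c j0 i = ∑ j, c'' j • f j := by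
    rw [Fin.sum_univ_succAbove _ j0]
    simp only [c'', Fin.insertNth_apply_succAbove, Fin.insertNth_apply_same, red, smul_sub,
      Finset.sum_sub_distrib, smul_smul]
    rw [← Finset.sum_smul, sub_eq_add_neg, ← neg_smul, add_comm]
  rw [e]
  exact hf c'' hc''

end INDM

open INDM in
/-- IND -/
theorem specIND : SpecIND.{u} := by
  classical
  intro X _ s f hf hfin hrad c hc
  obtain ⟨j0, hj0⟩ : ∃ j0, c j0 ≠ 0 := by
    by_contra hcon
    push Not at hcon
    exact hc (funext hcon)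
  have hK := hfin (red f c j0) (red_adm f hf c j0)
  have hR : (rad (f 0) : Set X).Finite := by
    apply hrad
    have h1 := hf (Pi.single 0 1) (by
      intro h
      have := congrFun h 0
      rw [Pi.single_eq_same] at this
      exact one_ne_zero this)
    have e : ∑ j, (Pi.single 0 1 : Fin (s + 2) → ZMod 3) j • f j = f 0 := by
      rw [Finset.sum_eq_single 0]
      · rw [Pi.single_eq_same, one_smul]
      · intro j _ hj
        rw [Pi.single_eq_of_ne hj, zero_smul]
      · intro h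
        exact absurd (Finset.mem_univ _) h
    rw [e] at h1
    exact h1
  set B : Set (Fin (s + 2) → X) :=
    {k | k ∈ Ker f ∧ ∀ i, ∀ y ∈ base X, ∑ j, c j * (f i).1 ⁅k j, y⁆ = 0} with hB
  -- the projection
  let π : (Fin (s + 2) → X) → (Fin (s + 1) → X) := fun k i => k (j0.succAbove i)
  have hπ : ∀ k ∈ B, π k ∈ Ker (red f c j0) := by
    rintro k ⟨hk, hk2⟩
    refine ⟨fun i => hk.1 _, ?_⟩
    intro y hy
    have h1 := hk.2 y hy
    have h2 := hk2 j0 y hy
    rw [Fin.sum_univ_succAbove _ j0] at h1 h2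
    have h3 : ∑ i, (red f c j0 i).1 ⁅π k i, y⁆ =
        ∑ i, (f (j0.succAbove i)).1 ⁅k (j0.succAbove i), y⁆ -
          (c j0)⁻¹ * ∑ i, c (j0.succAbove i) * (f j0).1 ⁅k (j0.succAbove i), y⁆ := by
      rw [Finset.mul_sum, ← Finset.sum_sub_distrib]
      apply Finset.sum_congr rfl
      intro i _
      rw [red_apply]
      ring
    rw [h3, eq_neg_of_add_eq_zero_right h1, eq_neg_of_add_eq_zero_right h2]
    have h4 : (c j0)⁻¹ * -(c j0 * (f j0).1 ⁅k j0, y⁆) = -(f j0).1 ⁅k j0, y⁆ := by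
      rw [mul_neg, ← mul_assoc, inv_mul_cancel₀ hj0, one_mul]
    rw [h4]
    ring
  -- the fibres
  have hfib : ∀ k' ∈ Ker (red f c j0), {k | k ∈ B ∧ π k = k'}.Finite := by
    intro k' _
    rcases Set.eq_empty_or_nonempty {k | k ∈ B ∧ π k = k'} with h0 | ⟨k1, hk1, hπ1⟩
    · rw [h0]
      exact Set.finite_empty
    · have hinj : Set.InjOn (fun k : Fin (s + 2) → X => (k1 j0)⁻¹ * k j0)
          {k | k ∈ B ∧ π k = k'} := by
        rintro k ⟨-, hk⟩ l ⟨-, hl⟩ he
        have he' : k j0 = l j0 := mul_left_cancel he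
        ext j
        rcases Fin.eq_self_or_eq_succAbove j0 j with rfl | ⟨i, rfl⟩
        · exact he'
        · exact congrFun (hk.trans hl.symm) i
      apply Set.Finite.of_finite_image (hR.subset ?_) hinj
      rintro x ⟨k, ⟨hk, hπk⟩, rfl⟩
      refine ⟨(base X).mul_mem ((base X).inv_mem (hk1.1.1 j0)) (hk.1.1 j0), ?_⟩
      intro y hy
      change (f 0).1 ⁅(k1 j0)⁻¹ * k j0, y⁆ = 0
      rw [fl_left (f 0) ((base X).inv_mem (hk1.1.1 j0)) (hk.1.1 j0) hy,
        fl_inv_left (f 0) (hk1.1.1 j0) hy]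
      have h1 := hk1.2 0 y hy
      have h2 := hk.2 0 y hy
      rw [Fin.sum_univ_succAbove _ j0] at h1 h2
      have h3 : ∀ i, k (j0.succAbove i) = k1 (j0.succAbove i) := fun i =>
        congrFun (hπk.trans hπ1.symm) i
      simp only [h3] at h2
      have h4 : c j0 * (f 0).1 ⁅k j0, y⁆ = c j0 * (f 0).1 ⁅k1 j0, y⁆ := by
        rw [eq_neg_of_add_eq_zero_left h1, eq_neg_of_add_eq_zero_left h2]
      rw [mul_left_cancel₀ hj0 h4]
      ring
  have hsub : B ⊆ ⋃ k' ∈ (Ker (red f c j0) : Set (Fin (s + 1) → X)), {k | k ∈ B ∧ π k = k'} := by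
    intro k hk
    exact Set.mem_biUnion (hπ k hk) ⟨hk, rfl⟩
  exact (hK.biUnion fun k' hk' => hfib k' hk').subset hsub

end Pool.Agent.Lib.MP_008109_al.PC
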