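import Pool.Agent.Lib.MP_008109_al.PC.Spec

/-!
# MP_008109_al, module KFN: finiteness of the kernel (helper61)
-/

set_option autoImplicit false

universe u

namespace Pool.Agent.Lib.MP_008109_al.PC

open Pool.Agent.Lib.MP_008109_al Pool.Agent.Lib.MP_008109_al.AB
open scoped commutatorElement

namespace KFNM

variable {X : Type u} [Group X] {d : ℕ}

/-- the map defined by `y` on the tuples of elements of `F` -/
def wf (F : Subgroup X) (f : Fin d → Fl X) (y : X) (g : Fin d → F) : ZMod 3 :=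
  ∑ j, (f j).1 ⁅(g j : X), y⁆

theorem wf_mul (F : Subgroup X) (hF : F ≤ base X) (f : Fin d → Fl X) {y : X} (hy : y ∈ base X)
    (g g' : Fin d → F) : wf F f y (g * g') = wf F f y g + wf F f y g' := by
  unfold wf
  rw [← Finset.sum_add_distrib]
  exact Finset.sum_congr rfl fun j _ => fl_left (f j) (hF (g j).2) (hF (g' j).2) hy

theorem wf_one (F : Subgroup X) (f : Fin d → Fl X) (y : X) :
    wf F f y (1 : Fin d → F) = 0 := by
  unfold wf
  exact Finset.sum_eq_zero fun j _ => fl_one_left (f j) y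

theorem wf_inv (F : Subgroup X) (hF : F ≤ base X) (f : Fin d → Fl X) {y : X} (hy : y ∈ base X)
    (g : Fin d → F) : wf F f y g⁻¹ = -wf F f y g := by
  unfold wf
  rw [← Finset.sum_neg_distrib]
  exact Finset.sum_congr rfl fun j _ => fl_inv_left (f j) (hF (g j).2) hy

/-- the kernel -/
def Cg (F : Subgroup X) (hF : F ≤ base X) (H : Subgroup X) (hH : H ≤ base X) (f : Fin d → Fl X) :
    Subgroup (Fin d → F) where
  carrier := {g | ∀ y ∈ H, wf F f y g = 0}
  one_mem' := fun y _ => wf_one F f y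
  mul_mem' := by
    intro g g' hg hg' y hy
    rw [wf_mul F hF f (hH hy), hg y hy, hg' y hy, add_zero]
  inv_mem' := by
    intro g hg y hy
    rw [wf_inv F hF f (hH hy), hg y hy, neg_zero]

theorem wf_single (F : Subgroup X) (f : Fin d → Fl X) (y : X) (j : Fin d) (b : F) :
    wf F f y (Pi.mulSingle j b) = (f j).1 ⁅(b : X), y⁆ := by
  unfold wf
  rw [Finset.sum_eq_single j]
  · rw [Pi.mulSingle_eq_same]
  · intro i _ hij
    rw [Pi.mulSingle_eq_of_ne hij]
    exact fl_one_left (f i) y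
  · intro h
    exact absurd (Finset.mem_univ j) h

/-- elements with the same map -/
theorem same (F M H : Subgroup X) (hMb : M ≤ base X) (hFM : F ≤ M) (hHM : H ≤ M)
    (f : Fin d → Fl X)
    (hsep : ∀ u ∈ (⁅M, M⁆ : Subgroup X), (∀ j, (f j).1 u = 0) → u = 1) {y y' : X} (hy : y ∈ H)
    (hy' : y' ∈ H) (h : wf F f y = wf F f y') :
    y'⁻¹ * y ∈ Subgroup.centralizer (F : Set X) := by
  rw [Subgroup.mem_centralizer_iff]
  have hMM : (⁅M, M⁆ : Subgroup X) ≤ dbase X := Subgroup.commutator_mono hMb hMb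
  have key : ∀ b ∈ F, ⁅b, y⁆ = ⁅b, y'⁆ := by
    intro b hb
    have h1 : ⁅b, y⁆ ∈ (⁅M, M⁆ : Subgroup X) :=
      Subgroup.commutator_mem_commutator (hFM hb) (hHM hy)
    have h2 : ⁅b, y'⁆ ∈ (⁅M, M⁆ : Subgroup X) :=
      Subgroup.commutator_mem_commutator (hFM hb) (hHM hy')
    have h3 : ⁅b, y⁆ * ⁅b, y'⁆⁻¹ = 1 := by
      refine hsep _ (mul_mem h1 (inv_mem h2)) fun j => ?_
      have h4 := congrFun h (Pi.mulSingle j ⟨b, hb⟩)
      rw [wf_single, wf_single] at h4
      rw [fl_mul (f j) (hMM h1) (inv_mem (hMM h2)), fl_inv (f j) (hMM h2)]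
      change (f j).1 ⁅b, y⁆ = (f j).1 ⁅b, y'⁆ at h4
      rw [h4, add_neg_cancel]
    exact mul_inv_eq_one.1 h3
  have key2 : ∀ b ∈ F, b * (y'⁻¹ * y) = y'⁻¹ * y * b := by
    intro b hb
    have h1 := key b hb
    rw [commutatorElement_def, commutatorElement_def] at h1
    have h2 : y * b⁻¹ * y⁻¹ = y' * b⁻¹ * y'⁻¹ := by
      calc y * b⁻¹ * y⁻¹ = b⁻¹ * (b * y * b⁻¹ * y⁻¹) := by group
        _ = b⁻¹ * (b * y' * b⁻¹ * y'⁻¹) := by rw [h1]
        _ = y' * b⁻¹ * y'⁻¹ := by group
    have h3 : y * b * y⁻¹ = y' * b * y'⁻¹ := by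
      have := congrArg (fun z => z⁻¹) h2
      simpa [mul_inv_rev, mul_assoc] using this
    calc b * (y'⁻¹ * y) = y'⁻¹ * (y' * b * y'⁻¹) * y := by group
      _ = y'⁻¹ * (y * b * y⁻¹) * y := by rw [h3]
      _ = y'⁻¹ * y * b := by group
  exact fun b hb => key2 b hb

/-- the kernel of a finite subgroup is small -/
theorem card_Cg (hHOMS : SpecHOMS.{u}) (F M H : Subgroup X) (hMb : M ≤ base X) (hFM : F ≤ M)
    (hHM : H ≤ M) (hHi : H.index ≠ 0) (hFf : (F : Set X).Finite) (c : ℕ) (f : Fin d → Fl X)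
    (hsep : ∀ u ∈ (⁅M, M⁆ : Subgroup X), (∀ j, (f j).1 u = 0) → u = 1)
    (hc : Nat.card F ^ d ≤ c * (Subgroup.centralizer (F : Set X)).index) :
    Nat.card (Cg F (hFM.trans hMb) H (hHM.trans hMb) f) ≤ c * H.index := by
  classical
  have hFfin : Finite F := hFf.to_subtype
  have hGfin : Finite (Fin d → F) := inferInstance
  set C := Cg F (hFM.trans hMb) H (hHM.trans hMb) f with hCd
  have hCi : C.index ≠ 0 := Subgroup.index_ne_zero_of_finite
  -- the maps
  have hfinT : (Set.range fun y : H => wf F f (y : X)).Finite := Set.toFinite _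
  set T : Finset ((Fin d → F) → ZMod 3) := hfinT.toFinset with hT
  have hmemT : ∀ y ∈ H, wf F f y ∈ T := by
    intro y hy
    rw [hT, Set.Finite.mem_toFinset]
    exact ⟨⟨y, hy⟩, rfl⟩
  have h1 : T.card ≤ C.index := by
    refine hHOMS (Fin d → F) C hCi T fun h hh => ?_
    rw [hT, Set.Finite.mem_toFinset] at hh
    obtain ⟨y, rfl⟩ := hh
    exact ⟨fun g g' => wf_mul F (hFM.trans hMb) f (hMb (hHM y.2)) g g', fun g hg => hg y y.2⟩
  -- the number of cosets
  set K : Subgroup X := H ⊓ Subgroup.centralizer (F : Set X) with hK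
  let φ : (H ⧸ K.subgroupOf H) → T := fun q => ⟨wf F f ((q.out : H) : X), hmemT _ q.out.2⟩
  have hφ : Function.Injective φ := by
    intro q q' hq
    have h2 : wf F f ((q.out : H) : X) = wf F f ((q'.out : H) : X) :=
      congrArg (fun t : T => (t : (Fin d → F) → ZMod 3)) hq
    have h3 := same F M H hMb hFM hHM f hsep q'.out.2 q.out.2 h2.symm
    rw [← QuotientGroup.out_eq' q, ← QuotientGroup.out_eq' q', QuotientGroup.eq,
      Subgroup.mem_subgroupOf]
    exact Subgroup.mem_inf.2 ⟨(q.out⁻¹ * q'.out : H).2, h3⟩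
  have hqfin : Finite (H ⧸ K.subgroupOf H) := Finite.of_injective φ hφ
  have h2 : K.relIndex H ≤ T.card := by
    have h3 := Nat.card_le_card_of_injective φ hφ
    rw [Nat.card_eq_fintype_card (α := T), Fintype.card_coe] at h3
    exact h3
  have h2' : K.relIndex H ≠ 0 := by
    unfold Subgroup.relIndex
    exact Subgroup.index_ne_zero_of_finite
  have h3 : K.relIndex H * H.index = K.index := Subgroup.relIndex_mul_index inf_le_left
  have hKi : 0 < K.index := by
    rw [← h3]
    exact Nat.pos_of_ne_zero (Nat.mul_ne_zero h2' hHi)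
  have h4 : (Subgroup.centralizer (F : Set X)).index ≤ K.index :=
    Nat.le_of_dvd hKi (Subgroup.index_dvd_of_le inf_le_right)
  have h5 : (Subgroup.centralizer (F : Set X)).index ≤ C.index * H.index :=
    h4.trans (by rw [← h3]; exact Nat.mul_le_mul_right _ (h2.trans h1))
  have h6 : Nat.card C * C.index = Nat.card F ^ d := by
    rw [Subgroup.card_mul_index, Nat.card_fun, Nat.card_eq_fintype_card (α := Fin d),
      Fintype.card_fin]
  have h7 : Nat.card C * C.index ≤ c * H.index * C.index := by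
    rw [h6]
    calc Nat.card F ^ d ≤ c * (Subgroup.centralizer (F : Set X)).index := hc
      _ ≤ c * (C.index * H.index) := Nat.mul_le_mul_left _ h5
      _ = c * H.index * C.index := by ring
  exact Nat.le_of_mul_le_mul_right h7 (Nat.pos_of_ne_zero hCi)

end KFNM

open KFNM in
/-- **KFN**. -/
theorem specKFN (hHOMS : SpecHOMS.{u}) : SpecKFN.{u} := by
  classical
  intro X _ hLF M H hMb hHM hHi d c f hsep hc
  by_contra hinf
  have hinf' : {k : Fin d → X | (∀ j, k j ∈ M) ∧
      ∀ y ∈ H, ∑ j, (f j).1 ⁅k j, y⁆ = 0}.Infinite := hinf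
  obtain ⟨t, htsub, htcard⟩ := hinf'.exists_subset_card_eq (c * H.index + 1)
  -- the subgroup generated by the coordinates
  set E : Finset X := t.biUnion fun k => Finset.univ.image k with hE
  set F : Subgroup X := Subgroup.closure (E : Set X) with hF
  have hFf : (F : Set X).Finite := hLF E
  have hEM : ∀ x ∈ E, x ∈ M := by
    intro x hx
    rw [hE, Finset.mem_biUnion] at hx
    obtain ⟨k, hk, hx⟩ := hx
    obtain ⟨j, -, rfl⟩ := Finset.mem_image.1 hx
    exact (htsub hk).1 j
  have hFM : F ≤ M := (Subgroup.closure_le M).2 fun x hx => hEM x hx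
  have hmem : ∀ k ∈ t, ∀ j, k j ∈ F := by
    intro k hk j
    refine Subgroup.subset_closure ?_
    rw [Finset.mem_coe, hE, Finset.mem_biUnion]
    exact ⟨k, hk, Finset.mem_image.2 ⟨j, Finset.mem_univ j, rfl⟩⟩
  have h1 := card_Cg hHOMS F M H hMb hFM hHM hHi hFf c f hsep (hc F hFf)
  set C := Cg F (hFM.trans hMb) H (hHM.trans hMb) f with hCd
  have hFfin : Finite F := hFf.to_subtype
  have hGfin : Finite (Fin d → F) := inferInstance
  have hCfin : Finite C := inferInstance
  let ψ : t → C := fun k => ⟨fun j => ⟨k.1 j, hmem k.1 k.2 j⟩, fun y hy =>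
    (htsub k.2).2 y hy⟩
  have hψ : Function.Injective ψ := by
    intro k k' hkk
    apply Subtype.ext
    funext j
    have h2 : ((ψ k).1 j : X) = ((ψ k').1 j : X) := by rw [hkk]
    exact h2
  have h3 := Nat.card_le_card_of_injective ψ hψ
  rw [Nat.card_eq_fintype_card (α := t), Fintype.card_coe, htcard] at h3
  omega

end Pool.Agent.Lib.MP_008109_al.PC
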