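import Pool.Agent.Lib.MP_008109_al.PC.Spec
import Pool.Agent.Lib.MP_008109_al.AB.Dsets

/-!
# MP_008109_al, PC, module LF
-/

set_option autoImplicit false

universe u

namespace Pool.Agent.Lib.MP_008109_al.PC

open Pool.Agent.Lib.MP_008109_al Pool.Agent.Lib.MP_008109_al.AB
open scoped commutatorElement

namespace LFM

variable {X : Type u} [Group X]

theorem torsion (h3 : {y : X | ∃ x : X, y = x * x * x}.Finite) (x : X) : IsOfFinOrder x := by
  by_contra hcon
  have hinj := injective_pow_iff_not_isOfFinOrder.mpr hcon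
  have h1 : Function.Injective fun n : ℕ => x ^ (3 * n) := by
    intro a b hab
    have h2 : 3 * a = 3 * b := hinj hab
    omega
  refine Set.infinite_of_injective_forall_mem h1 (s := {y : X | ∃ x : X, y = x * x * x}) ?_ h3
  intro n
  refine ⟨x ^ n, ?_⟩
  show x ^ (3 * n) = x ^ n * x ^ n * x ^ n
  rw [← pow_add, ← pow_add]
  congr 1
  ring

theorem locFin (hc : (commutator X : Set X).Finite)
    (h3 : {y : X | ∃ x : X, y = x * x * x}.Finite) : LocFin X := by
  intro F
  obtain ⟨K, hKdef⟩ : ∃ K : Subgroup X, K = Subgroup.closure (F : Set X) := ⟨_, rfl⟩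
  rw [← hKdef]
  have hK : Group.FG K := (Group.fg_iff_subgroup_fg K).2 ⟨F, hKdef.symm⟩
  have hA : Group.FG (Abelianization K) :=
    Group.fg_of_surjective (f := (Abelianization.of : K →* Abelianization K))
      (QuotientGroup.mk_surjective)
  have htor : IsMulTorsion (Abelianization K) := by
    intro a
    obtain ⟨k, rfl⟩ := (QuotientGroup.mk_surjective : Function.Surjective
      (Abelianization.of : K →* Abelianization K)) a
    have h1 : IsOfFinOrder (k : X) := torsion h3 (k : X)
    have h2 : IsOfFinOrder k := (Submonoid.isOfFinOrder_coe (H := K.toSubmonoid) (x := k)).mp h1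
    exact MonoidHom.isOfFinOrder (Abelianization.of : K →* Abelianization K) h2
  have hAfin : Finite (Abelianization K) := CommGroup.finite_of_fg_isMulTorsion _ htor
  have hle : (commutator K).map K.subtype ≤ commutator X := by
    rw [commutator_def, Subgroup.map_commutator, commutator_def]
    exact Subgroup.commutator_mono le_top le_top
  have hfc : Finite (commutator K) := by
    have hfX : Finite (commutator X) := hc.to_subtype
    refine Finite.of_injective (β := commutator X)
      (fun k => ⟨((k : K) : X), hle ⟨(k : K), k.2, rfl⟩⟩) ?_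
    intro a b hab
    apply Subtype.ext
    apply Subtype.ext
    have h := congrArg (fun z : commutator X => (z : X)) hab
    exact h
  have hq : Finite (K ⧸ commutator K) := hAfin
  have hKfin : Finite K :=
    Finite.of_equiv _ (Subgroup.groupEquivQuotientProdSubgroup (s := commutator K)).symm
  exact Set.toFinite _

theorem base_index (hc : (commutator X : Set X).Finite)
    (h3 : {y : X | ∃ x : X, y = x * x * x}.Finite) (hFC : FCc X = ⊤) : (base X).index ≠ 0 := by
  obtain ⟨C, hCdef⟩ : ∃ C : Subgroup X, C = Subgroup.centralizer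
      ((commutator X : Set X) ∪ {y : X | ∃ x : X, y = x * x * x}) := ⟨_, rfl⟩
  have hCfi : C.FiniteIndex := by
    rw [hCdef]
    exact DstM.cent_finiteIndex hFC (hc.union h3)
  have hCc : ∀ x ∈ C, ∀ d ∈ commutator X, d * x = x * d := by
    intro x hx d hd
    rw [hCdef, Subgroup.mem_centralizer_iff] at hx
    exact hx d (Or.inl hd)
  have hCq : ∀ x ∈ C, ∀ y : X, y * y * y * x = x * (y * y * y) := by
    intro x hx y
    rw [hCdef, Subgroup.mem_centralizer_iff] at hx
    exact hx _ (Or.inr ⟨y, rfl⟩)
  have hmul : ∀ x ∈ C, ∀ y ∈ C, x * y * (x * y) * (x * y) = x * x * x * (y * y * y) := by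
    intro x hx y hy
    have hcm : ⁅y, x⁆ ∈ commutator X := Subgroup.commutator_mem_commutator trivial trivial
    have hyx : y * x = ⁅y, x⁆ * x * y := by
      rw [commutatorElement_def]; group
    have h1 := hCc x hx _ hcm
    have h2 := hCc y hy _ hcm
    obtain ⟨c, hcdef⟩ : ∃ c, c = ⁅y, x⁆ := ⟨_, rfl⟩
    rw [← hcdef] at hyx h1 h2
    have e1 : y * x * y⁻¹ = c * x := by rw [hyx]; group
    have hcy : y * c * y⁻¹ = c := by rw [← h2]; group
    have e2 : y * (y * x * y⁻¹) * y⁻¹ = c * (c * x) := by
      rw [e1]
      calc y * (c * x) * y⁻¹ = (y * c * y⁻¹) * (y * x * y⁻¹) := by group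
        _ = c * (c * x) := by rw [hcy, e1]
    have e3 : y * (y * (y * x * y⁻¹) * y⁻¹) * y⁻¹ = c * (c * (c * x)) := by
      rw [e2]
      calc y * (c * (c * x)) * y⁻¹ = (y * c * y⁻¹) * ((y * c * y⁻¹) * (y * x * y⁻¹)) := by group
        _ = c * (c * (c * x)) := by rw [hcy, e1]
    have hc3 : c * c * c = 1 := by
      have e4 : y * (y * (y * x * y⁻¹) * y⁻¹) * y⁻¹ = (y * y * y) * x * (y * y * y)⁻¹ := by group
      rw [e4, hCq x hx y] at e3
      have e5 : x = c * c * c * x := by
        calc x = x * (y * y * y) * (y * y * y)⁻¹ := by group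
          _ = _ := by rw [e3]; group
      exact (mul_eq_right.1 e5.symm)
    calc x * y * (x * y) * (x * y) = x * (y * x) * (y * x) * y := by group
      _ = x * (c * x * y) * (c * x * y) * y := by rw [hyx]
      _ = (x * c) * x * (y * c) * x * y * y := by group
      _ = (c * x) * x * (c * y) * x * y * y := by rw [h1, h2]
      _ = c * x * (x * c) * (y * x) * y * y := by group
      _ = c * x * (c * x) * (c * x * y) * y * y := by rw [← h1, hyx]
      _ = c * (x * c) * (x * c) * x * y * y * y := by group
      _ = c * (c * x) * (c * x) * x * y * y * y := by rw [h1]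
      _ = c * c * (x * c) * x * x * (y * y * y) := by group
      _ = c * c * (c * x) * x * x * (y * y * y) := by rw [h1]
      _ = c * c * c * (x * x * x) * (y * y * y) := by group
      _ = x * x * x * (y * y * y) := by rw [hc3]; simp
  let φ : C →* X :=
    { toFun := fun z => (z : X) * z * z
      map_one' := by simp
      map_mul' := fun a b => hmul a a.2 b b.2 }
  have hφ : ∀ z : C, φ z = (z : X) * z * z := fun _ => rfl
  have hr : Finite φ.range := by
    refine (h3.subset ?_).to_subtype
    rintro y ⟨z, rfl⟩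
    exact ⟨z, hφ z⟩
  have hk : φ.ker.FiniteIndex := by
    have : Finite (C ⧸ φ.ker) :=
      Finite.of_equiv _ (QuotientGroup.quotientKerEquivRange φ).symm.toEquiv
    exact Subgroup.finiteIndex_of_finite_quotient
  have hle : φ.ker.map C.subtype ≤ base X := by
    rintro _ ⟨z, hz, rfl⟩
    have h1 : φ z = 1 := hz
    rw [hφ] at h1
    exact ⟨h1, hCc _ z.2, hCq _ z.2⟩
  have hfi : (φ.ker.map C.subtype).FiniteIndex := by
    constructor
    rw [Subgroup.index_map_subtype]
    exact mul_ne_zero hk.index_ne_zero hCfi.index_ne_zero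
  exact (Subgroup.finiteIndex_of_le hle).index_ne_zero

end LFM

theorem specLF : SpecLF.{u} := by
  intro X _ hc h3
  have hFC := fcc_eq_top hc
  exact ⟨LFM.locFin hc h3, hFC, LFM.base_index hc h3 hFC⟩

end Pool.Agent.Lib.MP_008109_al.PC
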