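import Pool.Agent.Lib.MP_008109_al.PC.Spec

set_option autoImplicit false

universe u

namespace Pool.Agent.Lib.MP_008109_al.PC

open scoped Pointwise in
theorem specNEU : SpecNEU.{u} := by
  classical
  intro G _ K hK T hT E
  by_contra hcon
  push Not at hcon
  let H : (G × Subgroup G) ⊕ G → Subgroup K := fun i => match i with
    | Sum.inl p => p.2.subgroupOf K
    | Sum.inr _ => ⊥
  let g : (G × Subgroup G) ⊕ G → K := fun i => match i with
    | Sum.inl p => if h : ∃ g : K, p.1⁻¹ * (g : G) ∈ p.2 then h.choose else 1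
    | Sum.inr e => if h : e ∈ K then ⟨e, h⟩ else 1
  have hcov : ⋃ i ∈ T.disjSum E, g i • (H i : Set K) = Set.univ := by
    rw [Set.eq_univ_iff_forall]
    intro t
    by_cases htE : (t : G) ∈ E
    · refine Set.mem_biUnion (show (Sum.inr (t : G) : (G × Subgroup G) ⊕ G) ∈ T.disjSum E from
        Finset.inr_mem_disjSum.2 htE) ?_
      have hg : g (Sum.inr (t : G)) = t := dif_pos t.2
      rw [hg]
      exact ⟨1, one_mem _, mul_one t⟩
    · obtain ⟨p, hp, hpt⟩ := hcon t t.2 htE
      refine Set.mem_biUnion (show (Sum.inl p : (G × Subgroup G) ⊕ G) ∈ T.disjSum E from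
        Finset.inl_mem_disjSum.2 hp) ?_
      have hex : ∃ g : K, p.1⁻¹ * (g : G) ∈ p.2 := ⟨t, hpt⟩
      have hg : g (Sum.inl p) = hex.choose := dif_pos hex
      rw [hg, Set.mem_smul_set_iff_inv_smul_mem, smul_eq_mul]
      change hex.choose⁻¹ * t ∈ p.2.subgroupOf K
      rw [Subgroup.mem_subgroupOf]
      have h1 := p.2.mul_mem (p.2.inv_mem hex.choose_spec) hpt
      have e : (p.1⁻¹ * (hex.choose : G))⁻¹ * (p.1⁻¹ * (t : G)) =
          ((hex.choose⁻¹ * t : K) : G) := by
        push_cast
        group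
      rwa [e] at h1
  obtain ⟨i, hi, hfin⟩ := Subgroup.exists_finiteIndex_of_leftCoset_cover hcov
  rcases i with p | e
  · exact hfin.index_ne_zero (hT p (Finset.inl_mem_disjSum.1 hi))
  · apply hfin.index_ne_zero
    change (⊥ : Subgroup K).index = 0
    rw [Subgroup.index_bot]
    have : Infinite K := Set.infinite_coe_iff.2 hK
    exact Nat.card_eq_zero_of_infinite

end Pool.Agent.Lib.MP_008109_al.PC
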