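import Pool.Agent.Lib.MP_008109_al.PC.Spec

/-!
# MP_008109_al, module ONE: one functional with an infinite radical
-/

set_option autoImplicit false

universe u

namespace Pool.Agent.Lib.MP_008109_al.PC

open Pool.Agent.Lib.MP_008109_al Pool.Agent.Lib.MP_008109_al.AB
open scoped commutatorElement

namespace ONEM

theorem map_rad {X : Type u} [Group X] (l : Fl X) (α : X ≃* X)
    (hα : ∀ c ∈ commutator X, α c = c) {x : X} (hx : x ∈ rad l) : α x ∈ rad l := by
  refine ⟨map_mem_base α hx.1, ?_⟩
  intro y hy
  obtain ⟨y', rfl⟩ := α.surjective y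
  have hy' : y' ∈ base X := (map_mem_base_iff α).1 hy
  have e : ⁅α x, α y'⁆ = ⁅x, y'⁆ := by
    rw [← hα _ (comm_mem x y')]
    simp only [commutatorElement_def, map_mul, map_inv]
  rw [e]
  exact hx.2 y' hy'

end ONEM

open ONEM in
/-- ONE -/
theorem specONE (hLF : SpecLF.{u}) : SpecONE.{u} := by
  intro X _ _ hX hc h3 l hidx hinf
  obtain ⟨hlf, hfc, -⟩ := hLF X hc h3
  refine card_of_invariant_subgroup hX hlf hfc h3 (commutator X) hc (rad l) hidx hinf ?_
  intro α hα x
  constructor
  · intro h
    have h1 := map_rad l α.symm (by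
      intro c hc
      rw [MulEquiv.symm_apply_eq]
      exact (hα c hc).symm) h
    simpa using h1
  · exact map_rad l α (fun c hc => hα c hc)

end Pool.Agent.Lib.MP_008109_al.PC
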