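import Pool.Agent.Lib.MP_008109_al.PC.Spec

/-!
# MP_008109_al: functionals separating the points of the derived subgroup
-/

set_option autoImplicit false

universe u

namespace Pool.Agent.Lib.MP_008109_al.PC

open scoped commutatorElement

namespace SEPM

/-- In a finite elementary abelian 3-group the points of a subgroup of order at most `3 ^ d` are
separated by `d` additive functions to `ZMod 3`. -/
theorem separate (D : Type u) [CommGroup D] [Finite D] (h3 : ∀ x : D, x ^ 3 = 1)
    (W : Subgroup D) (d : ℕ) (hW : Nat.card W ≤ 3 ^ d) :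
    ∃ g : Fin d → D → ZMod 3, (∀ j x y, g j (x * y) = g j x + g j y) ∧
      ∀ u ∈ W, (∀ j, g j u = 0) → u = 1 := by
  have hz : ∀ x : Additive D, 3 • x = 0 := by
    intro x
    apply Additive.toMul.injective
    rw [toMul_nsmul, toMul_zero]
    exact h3 _
  let _ : Module (ZMod 3) (Additive D) := AddCommGroup.zmodModule hz
  have : Fact (Nat.Prime 3) := ⟨Nat.prime_three⟩
  let V : Submodule (ZMod 3) (Additive D) := AddSubgroup.toZModSubmodule 3 W.toAddSubgroup
  have hV : ∀ x : D, Additive.ofMul x ∈ V ↔ x ∈ W := fun x => Iff.rfl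
  have : Finite (Additive D) := inferInstanceAs (Finite D)
  have : Module.Finite (ZMod 3) (Additive D) := Module.Finite.of_finite
  have : Module.Finite (ZMod 3) V := Module.Finite.of_finite
  have hcard : Nat.card V = 3 ^ Module.finrank (ZMod 3) V := by
    have := Module.natCard_eq_pow_finrank (K := ZMod 3) (V := V)
    rwa [Nat.card_zmod] at this
  have hcW : Nat.card V = Nat.card W :=
    Nat.card_congr (Equiv.subtypeEquiv Additive.toMul (fun x => Iff.rfl))
  have hdim : Module.finrank (ZMod 3) V ≤ d := by
    have : 3 ^ Module.finrank (ZMod 3) V ≤ 3 ^ d := by rw [← hcard, hcW]; exact hW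
    exact (Nat.pow_le_pow_iff_right (by norm_num)).1 this
  let b := Module.finBasis (ZMod 3) V
  have hext : ∀ i, ∃ G : Additive D →ₗ[ZMod 3] ZMod 3, G.comp V.subtype = b.coord i :=
    fun i => LinearMap.exists_extend (b.coord i)
  choose G hG using hext
  refine ⟨fun j x => if h : (j : ℕ) < Module.finrank (ZMod 3) V then
    G ⟨j, h⟩ (Additive.ofMul x) else 0, ?_, ?_⟩
  · intro j x y
    by_cases h : (j : ℕ) < Module.finrank (ZMod 3) V
    · simp only [dif_pos h]
      rw [ofMul_mul, map_add]
    · simp only [dif_neg h, add_zero]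
  · intro x hx hj
    have key : (⟨Additive.ofMul x, (hV x).2 hx⟩ : V) = 0 := by
      apply b.ext_elem
      intro i
      have h1 := hj ⟨i, lt_of_lt_of_le i.2 hdim⟩
      simp only [Fin.is_lt, dif_pos] at h1
      have h2 := LinearMap.congr_fun (hG i) ⟨Additive.ofMul x, (hV x).2 hx⟩
      rw [map_zero]
      change b.coord i _ = 0
      rw [← h2]
      exact h1
    have := congrArg (fun v : V => Additive.toMul (v : Additive D)) key
    exact this

variable {X : Type u} [Group X]

theorem dbase_le_base : dbase X ≤ base X := Subgroup.commutator_le_left _ _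

theorem dbase_comm {x y : X} (hx : x ∈ dbase X) (hy : y ∈ dbase X) : x * y = y * x :=
  base_comm (dbase_le_base hy) (dbase_le hx)

end SEPM

theorem specSEP : SpecSEP.{u} := by
  intro X _ hfin M hM d hd
  let inst : CommGroup (dbase X) :=
    { (inferInstance : Group (dbase X)) with
      mul_comm := fun a b => Subtype.ext (SEPM.dbase_comm a.2 b.2) }
  have : Finite (dbase X) := (hfin.subset (fun x hx => dbase_le hx)).to_subtype
  have hMd : ⁅M, M⁆ ≤ dbase X := Subgroup.commutator_mono hM hM
  have h3 : ∀ x : dbase X, x ^ 3 = 1 := by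
    intro x
    apply Subtype.ext
    have h := (SEPM.dbase_le_base x.2).1
    change ((x : X)) ^ 3 = 1
    rw [pow_succ, pow_two]
    exact h
  let W : Subgroup (dbase X) := (⁅M, M⁆ : Subgroup X).comap (dbase X).subtype
  have hWc : Nat.card W ≤ 3 ^ d := by
    have e : Nat.card W = Nat.card (⁅M, M⁆ : Subgroup X) :=
      Nat.card_congr (Subgroup.subgroupOfEquivOfLe hMd).toEquiv
    rw [e]; exact hd
  obtain ⟨g, hg, hs⟩ := SEPM.separate (dbase X) h3 W d hWc
  classical
  refine ⟨fun j => ⟨fun x => if h : x ∈ dbase X then g j ⟨x, h⟩ else 0, ?_⟩, ?_⟩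
  · intro x hx y hy
    simp only [dif_pos hx, dif_pos hy, dif_pos ((dbase X).mul_mem hx hy)]
    exact hg j ⟨x, hx⟩ ⟨y, hy⟩
  · intro x hx hj
    have hxd := hMd hx
    have := hs ⟨x, hxd⟩ hx (fun j => by
      have h := hj j
      simp only [dif_pos hxd] at h
      exact h)
    exact congrArg Subtype.val this

end Pool.Agent.Lib.MP_008109_al.PC
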