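import Pool.Agent.Lib.MP_008109_al.PC.Spec

/-!
# Module TST: generic kernel tuples over a finite subgroup
-/

set_option autoImplicit false

universe u

namespace Pool.Agent.Lib.MP_008109_al.PC

open Pool.Agent.Lib.MP_008109_al Pool.Agent.Lib.MP_008109_al.AB
open scoped commutatorElement

namespace TSTM

section

variable {X : Type u} [Group X]

/-- The value of a pattern entry: `1`, `t a` or `(t a)⁻¹`. -/
def qv {n : ℕ} : Option (Fin n × Bool) → (Fin n → X) → X
  | none, _ => 1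
  | some (a, true), t => t a
  | some (a, false), t => (t a)⁻¹

lemma qv_mem {n : ℕ} (o : Option (Fin n × Bool)) (t : Fin n → X) (ht : ∀ j, t j ∈ base X) :
    qv o t ∈ base X := by
  rcases o with _ | ⟨a, _ | _⟩
  · exact (base X).one_mem
  · exact (base X).inv_mem (ht a)
  · exact ht a

lemma qv_mul (l : Fl X) {n : ℕ} (o : Option (Fin n × Bool)) (t t' : Fin n → X)
    (ht : ∀ j, t j ∈ base X) (ht' : ∀ j, t' j ∈ base X) {y : X} (hy : y ∈ base X) :
    l.1 ⁅qv o (t * t'), y⁆ = l.1 ⁅qv o t, y⁆ + l.1 ⁅qv o t', y⁆ := by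
  rcases o with _ | ⟨a, _ | _⟩
  · show l.1 ⁅(1 : X), y⁆ = l.1 ⁅(1 : X), y⁆ + l.1 ⁅(1 : X), y⁆
    rw [fl_one_left]; simp
  · show l.1 ⁅(t a * t' a)⁻¹, y⁆ = l.1 ⁅(t a)⁻¹, y⁆ + l.1 ⁅(t' a)⁻¹, y⁆
    rw [fl_inv_left l ((base X).mul_mem (ht a) (ht' a)) hy, fl_left l (ht a) (ht' a) hy,
      fl_inv_left l (ht a) hy, fl_inv_left l (ht' a) hy]
    ring
  · show l.1 ⁅t a * t' a, y⁆ = l.1 ⁅t a, y⁆ + l.1 ⁅t' a, y⁆
    exact fl_left l (ht a) (ht' a) hy

lemma qv_one (l : Fl X) {n : ℕ} (o : Option (Fin n × Bool)) (y : X) :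
    l.1 ⁅qv o (1 : Fin n → X), y⁆ = 0 := by
  rcases o with _ | ⟨a, _ | _⟩
  · exact fl_one_left l y
  · show l.1 ⁅(1 : X)⁻¹, y⁆ = 0
    rw [inv_one]; exact fl_one_left l y
  · exact fl_one_left l y

lemma qv_inv (l : Fl X) {n : ℕ} (o : Option (Fin n × Bool)) (t : Fin n → X)
    (ht : ∀ j, t j ∈ base X) {y : X} (hy : y ∈ base X) :
    l.1 ⁅qv o t⁻¹, y⁆ = -l.1 ⁅qv o t, y⁆ := by
  have h := qv_mul l o t t⁻¹ ht (fun j => (base X).inv_mem (ht j)) hy
  rw [mul_inv_cancel, qv_one] at h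
  exact (neg_eq_of_add_eq_zero_right h.symm).symm

/-- The kernel tuples whose pattern value is again a kernel tuple. -/
def PP {n : ℕ} (f : Fin n → Fl X) (p : Fin n → Option (Fin n × Bool)) :
    Subgroup (Fin n → X) where
  carrier := {t | t ∈ Ker f ∧ ∀ y ∈ base X, ∑ j, (f j).1 ⁅qv (p j) t, y⁆ = 0}
  one_mem' := ⟨(Ker f).one_mem, fun y _ => by simp only [qv_one, Finset.sum_const_zero]⟩
  mul_mem' := by
    rintro t t' ⟨ht, h⟩ ⟨ht', h'⟩
    refine ⟨(Ker f).mul_mem ht ht', fun y hy => ?_⟩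
    have : ∀ j, (f j).1 ⁅qv (p j) (t * t'), y⁆ =
        (f j).1 ⁅qv (p j) t, y⁆ + (f j).1 ⁅qv (p j) t', y⁆ :=
      fun j => qv_mul (f j) (p j) t t' ht.1 ht'.1 hy
    simp only [this, Finset.sum_add_distrib, h y hy, h' y hy, add_zero]
  inv_mem' := by
    rintro t ⟨ht, h⟩
    refine ⟨(Ker f).inv_mem ht, fun y hy => ?_⟩
    have : ∀ j, (f j).1 ⁅qv (p j) t⁻¹, y⁆ = -(f j).1 ⁅qv (p j) t, y⁆ :=
      fun j => qv_inv (f j) (p j) t ht.1 hy
    simp only [this, Finset.sum_neg_distrib, h y hy, neg_zero]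

lemma mem_PP {n : ℕ} {f : Fin n → Fl X} {p : Fin n → Option (Fin n × Bool)} {t : Fin n → X} :
    t ∈ PP f p ↔ t ∈ Ker f ∧ ∀ y ∈ base X, ∑ j, (f j).1 ⁅qv (p j) t, y⁆ = 0 := Iff.rfl

lemma inf_infinite' {G : Type u} [Group G] (R K : Subgroup G) (hK : (K : Set G).Infinite)
    (hR : R.relIndex K ≠ 0) : ((R ⊓ K : Subgroup G) : Set G).Infinite := by
  intro hcon
  have hKi : Infinite K := Set.infinite_coe_iff.2 hK
  have hRf : Finite (R ⊓ K : Subgroup G) := hcon.to_subtype
  have hfin : Finite (R.subgroupOf K) :=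
    Finite.of_injective (β := (R ⊓ K : Subgroup G))
      (fun x => ⟨((x : K) : G), Subgroup.mem_inf.2 ⟨Subgroup.mem_subgroupOf.1 x.2, (x : K).2⟩⟩)
      (fun x y hxy => by
        have h : ((x : K) : G) = ((y : K) : G) :=
          congrArg (fun z : (R ⊓ K : Subgroup G) => (z : G)) hxy
        exact Subtype.ext (Subtype.ext h))
  have h := Subgroup.card_mul_index (R.subgroupOf K)
  rw [Nat.card_eq_zero_of_infinite (α := K)] at h
  rcases mul_eq_zero.1 h with h | h
  · exact absurd h Nat.card_pos.ne'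
  · exact hR h

lemma cent_rel {n : ℕ} (C : Subgroup X) (hC : C.FiniteIndex) (K : Subgroup (Fin n → X)) :
    (⨅ i : Fin n, C.comap (Pi.evalMonoidHom (fun _ : Fin n => X) i)).relIndex K ≠ 0 := by
  refine Subgroup.relIndex_iInf_ne_zero fun i => ?_
  have h1 : (C.comap (Pi.evalMonoidHom (fun _ : Fin n => X) i)).index ≠ 0 := by
    rw [Subgroup.index_comap_of_surjective C (Function.surjective_eval i)]
    exact hC.index_ne_zero
  have h2 : (C.comap (Pi.evalMonoidHom (fun _ : Fin n => X) i)).FiniteIndex := ⟨h1⟩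
  have h3 : ((C.comap (Pi.evalMonoidHom (fun _ : Fin n => X) i)).subgroupOf K).FiniteIndex :=
    inferInstance
  exact h3.index_ne_zero

/-- The exceptional sets of the first kind are finite. -/
lemma finite_A {n : ℕ} (f : Fin n → Fl X) (hInd : Ind f) (c : Fin n → ZMod 3) (b : X) :
    {t : Fin n → X | c ≠ 0 ∧ b ∈ base X ∧ t ∈ Ker f ∧ ∀ i, ∀ y ∈ base X,
      ∑ j, c j * (f i).1 ⁅t j, y⁆ = (f i).1 ⁅b, y⁆}.Finite := by
  rcases Set.eq_empty_or_nonempty {t : Fin n → X | c ≠ 0 ∧ b ∈ base X ∧ t ∈ Ker f ∧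
    ∀ i, ∀ y ∈ base X, ∑ j, c j * (f i).1 ⁅t j, y⁆ = (f i).1 ⁅b, y⁆} with h | ⟨t0, hc, hb, ht0, h0⟩
  · rw [h]; exact Set.finite_empty
  · refine ((hInd c hc).image (fun k => t0 * k)).subset ?_
    rintro t ⟨-, -, ht, h1⟩
    refine ⟨t0⁻¹ * t, ⟨(Ker f).mul_mem ((Ker f).inv_mem ht0) ht, fun i y hy => ?_⟩, by simp⟩
    have h2 : ∀ j, c j * (f i).1 ⁅(t0⁻¹ * t) j, y⁆ =
        c j * (f i).1 ⁅t j, y⁆ - c j * (f i).1 ⁅t0 j, y⁆ := by
      intro j
      have h3 : (f i).1 ⁅(t0⁻¹ * t) j, y⁆ = -(f i).1 ⁅t0 j, y⁆ + (f i).1 ⁅t j, y⁆ := by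
        show (f i).1 ⁅(t0 j)⁻¹ * t j, y⁆ = _
        rw [fl_left (f i) ((base X).inv_mem (ht0.1 j)) (ht.1 j) hy, fl_inv_left (f i) (ht0.1 j) hy]
      rw [h3]; ring
    rw [Finset.sum_congr rfl fun j _ => h2 j, Finset.sum_sub_distrib, h1 i y hy, h0 i y hy,
      sub_self]

end

end TSTM

open TSTM in
theorem specTST (hNEU : SpecNEU.{u}) : SpecTST.{u} := by
  classical
  intro X _ hFC s f hKinf hInd L hL hker
  have hLf : Finite L := hL.to_subtype
  have : Fintype L := Fintype.ofFinite L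
  -- the subgroup `K1`
  set CC : Subgroup (Fin (s + 1) → X) :=
    ⨅ i : Fin (s + 1), (Subgroup.centralizer (L : Set X)).comap
      (Pi.evalMonoidHom (fun _ : Fin (s + 1) => X) i) with hCC
  set P' : (Fin (s + 1) → Option (Fin (s + 1) × Bool)) → Subgroup (Fin (s + 1) → X) :=
    fun p => if (PP f p).relIndex (Ker f) = 0 then ⊤ else PP f p with hP'
  set R : Subgroup (Fin (s + 1) → X) := CC ⊓ ⨅ p, P' p with hR
  have hRrel : R.relIndex (Ker f) ≠ 0 := by
    refine Subgroup.relIndex_inf_ne_zero (cent_rel _ (DstM.cent_finiteIndex hFC hL) _) ?_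
    refine Subgroup.relIndex_iInf_ne_zero fun p => ?_
    simp only [hP']
    split_ifs with h
    · rw [Subgroup.relIndex_top_left]; exact one_ne_zero
    · exact h
  have hK1inf := inf_infinite' R (Ker f) hKinf hRrel
  have hK1rel : (R ⊓ Ker f).relIndex (Ker f) ≠ 0 := by
    rw [Subgroup.inf_relIndex_right]; exact hRrel
  -- the exceptional set of the first kind
  have hEfin : (⋃ x : (Fin (s + 1) → ZMod 3) × L, {t : Fin (s + 1) → X | x.1 ≠ 0 ∧
      (x.2 : X) ∈ base X ∧ t ∈ Ker f ∧ ∀ i, ∀ y ∈ base X,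
      ∑ j, x.1 j * (f i).1 ⁅t j, y⁆ = (f i).1 ⁅(x.2 : X), y⁆}).Finite :=
    Set.finite_iUnion fun x => finite_A f hInd x.1 x.2
  -- the cosets
  set B : (Fin (s + 1) → Option (Fin (s + 1) × Bool)) × (Fin (s + 1) → L) →
      Set (Fin (s + 1) → X) := fun pc => {t | t ∈ Ker f ∧ ∀ y ∈ base X,
      ∑ j, (f j).1 ⁅qv (pc.1 j) t, y⁆ + ∑ j, (f j).1 ⁅(pc.2 j : X), y⁆ = 0} with hB
  set t0 : (Fin (s + 1) → Option (Fin (s + 1) × Bool)) × (Fin (s + 1) → L) →
      (Fin (s + 1) → X) := fun pc => if h : (B pc).Nonempty then h.choose else 1 with ht0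
  set T : Finset ((Fin (s + 1) → X) × Subgroup (Fin (s + 1) → X)) :=
    ((Finset.univ : Finset ((Fin (s + 1) → Option (Fin (s + 1) × Bool)) ×
      (Fin (s + 1) → L))).filter (fun pc => (PP f pc.1).relIndex (Ker f) = 0)).image
      (fun pc => (t0 pc, PP f pc.1)) with hT
  have hTrel : ∀ p ∈ T, p.2.relIndex (R ⊓ Ker f) = 0 := by
    intro p hp
    rw [hT, Finset.mem_image] at hp
    obtain ⟨pc, hpc, rfl⟩ := hp
    rw [Finset.mem_filter] at hpc
    by_contra hcon
    exact Subgroup.relIndex_ne_zero_trans hcon hK1rel hpc.2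
  obtain ⟨t, ht, htE, htT⟩ := hNEU (Fin (s + 1) → X) (R ⊓ Ker f) hK1inf T hTrel hEfin.toFinset
  have htK : t ∈ Ker f := (Subgroup.mem_inf.1 ht).2
  have htR : t ∈ R := (Subgroup.mem_inf.1 ht).1
  have htb : ∀ j, t j ∈ base X := htK.1
  -- property (b)
  have hb : ∀ c : Fin (s + 1) → ZMod 3, c ≠ 0 → ∀ b ∈ L, b ∈ base X →
      ∃ i, ∃ y ∈ base X, ∑ j, c j * (f i).1 ⁅t j, y⁆ ≠ (f i).1 ⁅b, y⁆ := by
    intro c hc b hbL hbb
    by_contra hcon
    push Not at hcon
    apply htE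
    rw [Set.Finite.mem_toFinset, Set.mem_iUnion]
    exact ⟨(c, ⟨b, hbL⟩), hc, hbb, htK, hcon⟩
  have htL : ∀ a, t a ∉ L := by
    intro a ha
    obtain ⟨i, y, hy, hne⟩ := hb (Pi.single a 1) (by
      intro h
      have := congrFun h a
      simp at this) (t a) ha (htb a)
    apply hne
    rw [Finset.sum_eq_single a]
    · simp
    · intro j _ hj
      rw [Pi.single_eq_of_ne hj, zero_mul]
    · intro h
      exact absurd (Finset.mem_univ a) h
  refine ⟨t, htK, ?_, hb, ?_⟩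
  · intro i b hbL
    have h1 : t ∈ CC := (Subgroup.mem_inf.1 htR).1
    rw [hCC, Subgroup.mem_iInf] at h1
    exact Subgroup.mem_centralizer_iff.1 (Subgroup.mem_comap.1 (h1 i)) b hbL
  · intro k hk hkj
    by_cases hall : ∀ j, k j ∈ L
    · exact Or.inl hall
    right
    push Not at hall
    obtain ⟨j1, hj1⟩ := hall
    -- the pattern
    have hpat : ∀ j, ∃ (o : Option (Fin (s + 1) × Bool)) (b : L), k j = (b : X) * qv o t := by
      intro j
      rcases hkj j with h | ⟨b, hb', i, h | h⟩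
      · exact ⟨none, ⟨k j, h⟩, by simp [qv]⟩
      · exact ⟨some (i, true), ⟨b, hb'⟩, h⟩
      · exact ⟨some (i, false), ⟨b, hb'⟩, h⟩
    choose p c hpc using hpat
    have hqb : ∀ j, qv (p j) t ∈ base X := fun j => qv_mem (p j) t htb
    have hcb : ∀ j, (c j : X) ∈ base X := by
      intro j
      have h1 : (c j : X) = k j * (qv (p j) t)⁻¹ := by rw [hpc j]; group
      rw [h1]
      exact (base X).mul_mem (hk.1 j) ((base X).inv_mem (hqb j))
    have hsum : ∀ y ∈ base X, ∑ j, (f j).1 ⁅qv (p j) t, y⁆ + ∑ j, (f j).1 ⁅(c j : X), y⁆ = 0 := by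
      intro y hy
      rw [← hk.2 y hy, ← Finset.sum_add_distrib]
      refine Finset.sum_congr rfl fun j _ => ?_
      rw [hpc j, fl_left (f j) (hcb j) (hqb j) hy, add_comm]
    have htB : t ∈ B (p, c) := ⟨htK, hsum⟩
    have hrel : (PP f p).relIndex (Ker f) ≠ 0 := by
      intro h0
      have hmem : (t0 (p, c), PP f p) ∈ T := by
        rw [hT, Finset.mem_image]
        exact ⟨(p, c), Finset.mem_filter.2 ⟨Finset.mem_univ _, h0⟩, rfl⟩
      have hne : (B (p, c)).Nonempty := ⟨t, htB⟩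
      have ht0B : t0 (p, c) ∈ B (p, c) := by
        simp only [ht0]
        rw [dif_pos hne]
        exact hne.choose_spec
      refine htT _ hmem ⟨(Ker f).mul_mem ((Ker f).inv_mem ht0B.1) htK, fun y hy => ?_⟩
      have h1 : ∀ j, (f j).1 ⁅qv (p j) ((t0 (p, c))⁻¹ * t), y⁆ =
          (f j).1 ⁅qv (p j) t, y⁆ - (f j).1 ⁅qv (p j) (t0 (p, c)), y⁆ := by
        intro j
        rw [qv_mul (f j) (p j) (t0 (p, c))⁻¹ t (fun j => (base X).inv_mem (ht0B.1.1 j)) htb hy,
          qv_inv (f j) (p j) _ ht0B.1.1 hy]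
        ring
      rw [Finset.sum_congr rfl fun j _ => h1 j, Finset.sum_sub_distrib]
      have h2 := hsum y hy
      have h3 := ht0B.2 y hy
      linear_combination h2 - h3
    have htP : t ∈ PP f p := by
      have h1 : t ∈ ⨅ p, P' p := (Subgroup.mem_inf.1 htR).2
      have h2 := Subgroup.mem_iInf.1 h1 p
      simp only [hP'] at h2
      rwa [if_neg hrel] at h2
    have hcK : (fun j => (c j : X)) ∈ Ker f := by
      refine ⟨hcb, fun y hy => ?_⟩
      have h1 := hsum y hy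
      rw [htP.2 y hy, zero_add] at h1
      exact h1
    have hqK : (fun j => qv (p j) t) ∈ Ker f := ⟨hqb, htP.2⟩
    -- no relation between the coordinates of `q`
    have hrelq : ∀ d : Fin (s + 1) → ZMod 3, d ≠ 0 →
        ¬ ∀ i, ∀ y ∈ base X, ∑ j, d j * (f i).1 ⁅qv (p j) t, y⁆ = 0 := by
      intro d hd hcon
      have h1 := hker d hd _ hqK hcon j1
      have h2 : qv (p j1) t ∈ L := h1
      exact hj1 (by rw [hpc j1]; exact L.mul_mem (c j1).2 h2)
    have hsome : ∀ j, ∃ (a : Fin (s + 1)) (e : Bool), p j = some (a, e) := by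
      intro j
      rcases hpj : p j with _ | ⟨a, e⟩
      · exfalso
        refine hrelq (Pi.single j 1) (by
          intro h
          have := congrFun h j
          simp at this) fun i y hy => ?_
        rw [Finset.sum_eq_single j]
        · rw [hpj]
          have : (f i).1 ⁅(qv none t : X), y⁆ = 0 := fl_one_left (f i) y
          rw [this, mul_zero]
        · intro j' _ hj'
          rw [Pi.single_eq_of_ne hj', zero_mul]
        · intro h
          exact absurd (Finset.mem_univ j) h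
      · exact ⟨a, e, rfl⟩
    choose a e hae using hsome
    -- signs
    set sg : Bool → ZMod 3 := fun e => if e then 1 else -1 with hsg
    have hsg2 : ∀ e, sg e * sg e = 1 := by
      intro e
      cases e <;> simp [hsg]
    have hval : ∀ j i, ∀ y ∈ base X, (f i).1 ⁅qv (p j) t, y⁆ = sg (e j) * (f i).1 ⁅t (a j), y⁆ := by
      intro j i y hy
      rw [hae j]
      cases e j
      · show (f i).1 ⁅(t (a j))⁻¹, y⁆ = _
        rw [fl_inv_left (f i) (htb (a j)) hy]
        simp [hsg]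
      · show (f i).1 ⁅t (a j), y⁆ = _
        simp [hsg]
    have hinj : Function.Injective a := by
      intro j j' hjj
      by_contra hne
      refine hrelq (Pi.single j (sg (e j)) - Pi.single j' (sg (e j'))) (by
        intro h
        have h1 := congrFun h j
        rw [Pi.sub_apply, Pi.single_eq_same, Pi.single_eq_of_ne hne, sub_zero] at h1
        have h2 := hsg2 (e j)
        rw [h1] at h2
        simp at h2) fun i y hy => ?_
      have h1 : ∀ m, (Pi.single j (sg (e j)) - Pi.single j' (sg (e j')) : Fin (s + 1) → ZMod 3) m *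
          (f i).1 ⁅qv (p m) t, y⁆ =
          (Pi.single j (sg (e j)) : Fin (s + 1) → ZMod 3) m * (f i).1 ⁅qv (p m) t, y⁆ -
          (Pi.single j' (sg (e j')) : Fin (s + 1) → ZMod 3) m * (f i).1 ⁅qv (p m) t, y⁆ := by
        intro m
        rw [Pi.sub_apply]; ring
      rw [Finset.sum_congr rfl fun m _ => h1 m, Finset.sum_sub_distrib,
        Finset.sum_eq_single j, Finset.sum_eq_single j']
      · rw [Pi.single_eq_same, Pi.single_eq_same, hval j i y hy, hval j' i y hy, hjj,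
          ← mul_assoc, ← mul_assoc, hsg2, hsg2, sub_self]
      · intro m _ hm
        rw [Pi.single_eq_of_ne hm, zero_mul]
      · intro h
        exact absurd (Finset.mem_univ j') h
      · intro m _ hm
        rw [Pi.single_eq_of_ne hm, zero_mul]
      · intro h
        exact absurd (Finset.mem_univ j) h
    have hbij : Function.Bijective a := Finite.injective_iff_bijective.1 hinj
    refine ⟨Equiv.ofBijective a hbij, fun j => (c j : X), hcK, fun j => (c j).2, fun j => ?_⟩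
    show k j = (c j : X) * t (a j) ∨ k j = (c j : X) * (t (a j))⁻¹
    rw [hpc j, hae j]
    cases e j
    · exact Or.inr rfl
    · exact Or.inl rfl

end Pool.Agent.Lib.MP_008109_al.PC
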