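import Pool.Agent.Lib.MP_008109_al.PC.Spec

/-!
# MP_008109_al, module ZST: generic elements of the base over a finite subgroup
-/

set_option autoImplicit false

universe u

namespace Pool.Agent.Lib.MP_008109_al.PC

open Pool.Agent.Lib.MP_008109_al Pool.Agent.Lib.MP_008109_al.AB
open scoped commutatorElement

namespace ZSTM

variable {X : Type u} [Group X]

/-- Values of a combination. -/
theorem comb_apply {s : ℕ} (f : Fin s → Fl X) (c : Fin s → ZMod 3) (x : X) :
    (∑ j, c j • f j : Fl X).1 x = ∑ j, c j * (f j).1 x := by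
  rw [AddSubmonoidClass.coe_finsetSum, Finset.sum_apply]
  rfl

/-- A conjugate of an element of the base has the same commutators with the base. -/
theorem comm_conj (l : Fl X) {w b y : X} (hw : w ∈ base X) (hy : y ∈ base X) :
    l.1 ⁅b⁻¹ * w * b, y⁆ = l.1 ⁅w, y⁆ := by
  have h1 : b⁻¹ * w * b ∈ base X := by
    have := (inferInstance : (base X).Normal).conj_mem w hw b⁻¹
    simpa using this
  have h2 : ⁅w⁻¹, b⁻¹⁆ ∈ base X := by
    have e : ⁅w⁻¹, b⁻¹⁆ = w⁻¹ * (b⁻¹ * w * b) := by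
      rw [commutatorElement_def]; group
    rw [e]
    exact (base X).mul_mem ((base X).inv_mem hw) h1
  have e : b⁻¹ * w * b = w * ⁅w⁻¹, b⁻¹⁆ := by
    rw [commutatorElement_def]; group
  have h3 : ⁅⁅w⁻¹, b⁻¹⁆, y⁆ = 1 :=
    commutatorElement_eq_one_iff_mul_comm.2 (base_comm hy (comm_mem w⁻¹ b⁻¹))
  rw [e, fl_left l hw h2 hy, h3, fl_one, add_zero]

variable {L : Subgroup X} {s : ℕ}

/-- The tuple of a pattern. -/
noncomputable def tup (τ : Fin s → L × Fin 3) (z : X) : Fin s → X := fun j =>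
  if (τ j).2 = 0 then ((τ j).1 : X) else if (τ j).2 = 1 then z * ((τ j).1 : X)
    else (z * ((τ j).1 : X))⁻¹

/-- The coefficients of a pattern. -/
noncomputable def cf (τ : Fin s → L × Fin 3) : Fin s → ZMod 3 := fun j =>
  if (τ j).2 = 0 then 0 else if (τ j).2 = 1 then 1 else -1

theorem cf_ne {τ : Fin s → L × Fin 3} {j : Fin s} (hj : (τ j).2 ≠ 0) : cf τ j ≠ 0 := by
  unfold cf
  rw [if_neg hj]
  by_cases h : (τ j).2 = 1
  · rw [if_pos h]; decide
  · rw [if_neg h]; decide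

theorem mem_of_tup {τ : Fin s → L × Fin 3} {z : X} {j : Fin s} (hj : (τ j).2 ≠ 0)
    (h : tup τ z j ∈ base X) : z * ((τ j).1 : X) ∈ base X := by
  unfold tup at h
  rw [if_neg hj] at h
  by_cases h1 : (τ j).2 = 1
  · rwa [if_pos h1] at h
  · rw [if_neg h1] at h
    have := (base X).inv_mem h
    rwa [inv_inv] at this

theorem diff_base {z z' b : X} (h : z * b ∈ base X) (h' : z' * b ∈ base X) :
    z⁻¹ * z' ∈ base X := by
  have h1 := (base X).mul_mem ((base X).inv_mem h) h'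
  have h2 := (inferInstance : (base X).Normal).conj_mem _ h1 b
  have e : b * ((z * b)⁻¹ * (z' * b)) * b⁻¹ = z⁻¹ * z' := by group
  rwa [e] at h2

theorem val_add (l : Fl X) {z z' b y : X} (h : z * b ∈ base X) (h' : z' * b ∈ base X)
    (hy : y ∈ base X) : l.1 ⁅z' * b, y⁆ = l.1 ⁅z * b, y⁆ + l.1 ⁅z⁻¹ * z', y⁆ := by
  have hw := diff_base h h'
  have hc : b⁻¹ * (z⁻¹ * z') * b ∈ base X := by
    have := (inferInstance : (base X).Normal).conj_mem _ hw b⁻¹
    simpa using this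
  have e : z' * b = (z * b) * (b⁻¹ * (z⁻¹ * z') * b) := by group
  rw [e, fl_left l h hc hy, comm_conj l hw hy]

theorem val_tup (f : Fin s → Fl X) (τ : Fin s → L × Fin 3) {z z' : X}
    (hz : ∀ j, tup τ z j ∈ base X) (hz' : ∀ j, tup τ z' j ∈ base X) {y : X} (hy : y ∈ base X)
    (j : Fin s) : (f j).1 ⁅tup τ z' j, y⁆ =
      (f j).1 ⁅tup τ z j, y⁆ + cf τ j * (f j).1 ⁅z⁻¹ * z', y⁆ := by
  by_cases h0 : (τ j).2 = 0
  · unfold tup cf
    simp only [if_pos h0, zero_mul, add_zero]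
  · have h1 := mem_of_tup h0 (hz j)
    have h1' := mem_of_tup h0 (hz' j)
    by_cases h2 : (τ j).2 = 1
    · unfold tup cf
      simp only [if_neg h0, if_pos h2, one_mul]
      exact val_add (f j) h1 h1' hy
    · unfold tup cf
      simp only [if_neg h0, if_neg h2]
      rw [fl_inv_left (f j) h1 hy, fl_inv_left (f j) h1' hy, val_add (f j) h1 h1' hy]
      ring

theorem avoidable_pattern (f : Fin s → Fl X) (hf : Adm f) (τ : Fin s → L × Fin 3)
    (hτ : ∃ j, (τ j).2 ≠ 0) : Avoidable {z : X | tup τ z ∈ Ker f} := by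
  obtain ⟨j₀, hj₀⟩ := hτ
  have hc : cf τ ≠ 0 := fun h => cf_ne hj₀ (congrFun h j₀)
  by_cases hne : ∃ z₀ : X, tup τ z₀ ∈ Ker f
  · obtain ⟨z₀, hz₀⟩ := hne
    refine (avoidable_coset z₀ _ (hf (cf τ) hc)).mono fun z hz => ?_
    have hz : tup τ z ∈ Ker f := hz
    obtain ⟨h1, h2⟩ := mem_Ker.1 hz₀
    obtain ⟨h3, h4⟩ := mem_Ker.1 hz
    refine mem_rad.2 ⟨diff_base (mem_of_tup hj₀ (h1 j₀)) (mem_of_tup hj₀ (h3 j₀)),
      fun y hy => ?_⟩
    rw [comb_apply]
    have h5 := h4 y hy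
    simp only [val_tup f τ h1 h3 hy, Finset.sum_add_distrib, h2 y hy, zero_add] at h5
    exact h5
  · exact avoidable_empty.mono fun z hz => (hne ⟨z, hz⟩).elim

end ZSTM

open ZSTM in
theorem specZST : SpecZST.{u} := by
  classical
  intro X _ hX hidx s f hf L hL
  haveI : Infinite X := infinite_of_hasDagger hX
  haveI : (base X).FiniteIndex := ⟨hidx⟩
  haveI : Finite L := hL.to_subtype
  have hA1 : Avoidable (L : Set X) := avoidable_finite hL
  have hA2 : Avoidable (⋃ b ∈ (L : Set X), ⋃ c ∈ (L : Set X),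
      {z : X | c ≠ 1 ∧ (z * b) * (z * b) = c}) := by
    refine Avoidable.biUnion hL fun b _ => Avoidable.biUnion hL fun c _ => ?_
    by_cases hc : c = 1
    · exact avoidable_empty.mono (fun z hz => (hz.1 hc).elim)
    · exact (avoidable_sqrt b c hc).mono (fun z hz => hz.2)
  have hA3 : Avoidable (⋃ τ ∈ {τ : Fin s → L × Fin 3 | ∃ j, (τ j).2 ≠ 0},
      {z : X | tup τ z ∈ Ker f}) :=
    Avoidable.biUnion (Set.toFinite _) fun τ hτ => avoidable_pattern f hf τ hτ
  obtain ⟨z, hz, hzA⟩ := exists_avoid hX ((hA1.union hA2).union hA3) (base X) 1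
  rw [inv_one, one_mul] at hz
  refine ⟨z, hz, fun h => hzA (Or.inl (Or.inl h)), fun b hb c hc hc1 h => hzA ?_,
    fun k hk hkj => ?_⟩
  · exact Or.inl (Or.inr (Set.mem_iUnion₂.2 ⟨b, hb, Set.mem_iUnion₂.2 ⟨c, hc, hc1, h⟩⟩))
  · by_contra hcon
    push Not at hcon
    obtain ⟨j₀, hj₀⟩ := hcon
    -- the pattern
    have hpat : ∀ j, ∃ t : L × Fin 3, (t.2 = 0 → k j ∈ L) ∧ k j = (if t.2 = 0 then (t.1 : X)
        else if t.2 = 1 then z * (t.1 : X) else (z * (t.1 : X))⁻¹) := by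
      intro j
      rcases hkj j with h | ⟨b, hb, h | h⟩
      · exact ⟨(⟨k j, h⟩, 0), fun _ => h, by simp⟩
      · exact ⟨(⟨b, hb⟩, 1), fun h => by simp at h, by simpa using h⟩
      · exact ⟨(⟨b, hb⟩, 2), fun h => by simp at h, by simpa using h⟩
    choose τ hτ1 hτ2 using hpat
    apply hzA
    refine Or.inr (Set.mem_iUnion₂.2 ⟨τ, ⟨j₀, fun h => hj₀ (hτ1 j₀ h)⟩, ?_⟩)
    change tup τ z ∈ Ker f
    have e : tup τ z = k := by
      funext j
      exact (hτ2 j).symm
    rw [e]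
    exact hk

end Pool.Agent.Lib.MP_008109_al.PC
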