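import Pool.Agent.Lib.MP_008109_al.PC.LF
import Pool.Agent.Lib.MP_008109_al.PC.HOMS
import Pool.Agent.Lib.MP_008109_al.PC.DUAL
import Pool.Agent.Lib.MP_008109_al.PC.NEU
import Pool.Agent.Lib.MP_008109_al.PC.SEP
import Pool.Agent.Lib.MP_008109_al.PC.BFX
import Pool.Agent.Lib.MP_008109_al.PC.KFN
import Pool.Agent.Lib.MP_008109_al.PC.EXT
import Pool.Agent.Lib.MP_008109_al.PC.FNX
import Pool.Agent.Lib.MP_008109_al.PC.ZST
import Pool.Agent.Lib.MP_008109_al.PC.TST
import Pool.Agent.Lib.MP_008109_al.PC.COD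
import Pool.Agent.Lib.MP_008109_al.PC.ONE
import Pool.Agent.Lib.MP_008109_al.PC.IND
import Pool.Agent.Lib.MP_008109_al.PC.CST
import Pool.Agent.Lib.MP_008109_al.AB.AutCard
import Pool.Agent.Lib.MP_008109_al.AB.Abelian

/-!
# MP_008109_al: the complete classification
-/

set_option autoImplicit false

universe u

namespace Pool.Agent.Lib.MP_008109_al.PC

open Pool.Agent.Lib.MP_008109_al Pool.Agent.Lib.MP_008109_al.AB
open scoped commutatorElement

namespace MAINM

variable {X : Type u} [Group X]

theorem rad_smul (l : Fl X) {c : ZMod 3} (hc : c ≠ 0) : rad (c • l) = rad l := by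
  ext x
  rw [mem_rad, mem_rad]
  have h : ∀ y, (c • l).1 y = c * l.1 y := fun y => rfl
  constructor
  · rintro ⟨hx, h1⟩
    refine ⟨hx, fun y hy => ?_⟩
    have h2 := h1 y hy
    rw [h] at h2
    exact (mul_eq_zero.1 h2).resolve_left hc
  · rintro ⟨hx, h1⟩
    refine ⟨hx, fun y hy => ?_⟩
    rw [h, h1 y hy, mul_zero]

theorem adm_one (l : Fl X) (h : (rad l).index = 0) : Adm (fun _ : Fin 1 => l) := by
  intro c hc
  have hc0 : c 0 ≠ 0 := by
    intro h0
    apply hc
    ext j
    rw [Subsingleton.elim j 0, h0, Pi.zero_apply]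
  rw [Fin.sum_univ_one, rad_smul l hc0]
  exact h

theorem rad_of_adm_one (f : Fin 1 → Fl X) (h : Adm f) : (rad (f 0)).index = 0 := by
  have h1 := h (fun _ => 1) (by
    intro h0
    have := congrFun h0 0
    exact one_ne_zero this)
  rw [Fin.sum_univ_one, one_smul] at h1
  exact h1

theorem ker_one (f : Fin 1 → Fl X) (k : Fin 1 → X) : k ∈ Ker f ↔ k 0 ∈ rad (f 0) := by
  rw [mem_Ker, mem_rad]
  simp only [Fin.sum_univ_one]
  constructor
  · rintro ⟨h1, h2⟩
    exact ⟨h1 0, h2⟩
  · rintro ⟨h1, h2⟩
    refine ⟨fun j => ?_, h2⟩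
    rw [Subsingleton.elim j 0]
    exact h1

theorem ker_one_finite (f : Fin 1 → Fl X) :
    (Ker f : Set (Fin 1 → X)).Finite ↔ (rad (f 0) : Set X).Finite := by
  constructor
  · intro h
    have h1 : (rad (f 0) : Set X) ⊆ (fun k : Fin 1 → X => k 0) '' (Ker f : Set (Fin 1 → X)) := by
      intro x hx
      exact ⟨fun _ => x, (ker_one f _).2 hx, rfl⟩
    exact (h.image _).subset h1
  · intro h
    have hinj : Set.InjOn (fun k : Fin 1 → X => k 0) (Ker f : Set (Fin 1 → X)) := by
      intro k _ l _ hkl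
      ext j
      rw [Subsingleton.elim j 0]
      exact hkl
    apply Set.Finite.of_finite_image (h.subset ?_) hinj
    rintro x ⟨k, hk, rfl⟩
    exact (ker_one f k).1 hk

end MAINM

open MAINM in
/-- Exactly continuum many orbits if the criterion fails. -/
theorem card_of_not_criterion {X : Type u} [Group X] [Countable X] (hX : HasDagger X)
    (h2 : ∃ x : X, x * x ≠ 1) (hcr : ¬ Criterion X) :
    Cardinal.mk (SpecialOrbits X) = Cardinal.continuum := by
  classical
  by_cases h' : (commutator X : Set X).Infinite ∨ (cubeSet X).Infinite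
  · exact card_of_infinite hX h2 h'
  rw [not_or, Set.not_infinite, Set.not_infinite] at h'
  obtain ⟨hc, h3⟩ := h'
  have hP : ∃ s : ℕ, ∃ f : Fin (s + 1) → Fl X, Adm f ∧ (Ker f : Set (Fin (s + 1) → X)).Infinite := by
    by_contra hcon
    push Not at hcon
    apply hcr
    apply specCST specLF specHOMS specSEP X hc h3
    intro s f hf
    exact hcon s f hf
  obtain ⟨f, hf, hK⟩ := Nat.find_spec hP
  have hmin : ∀ s < Nat.find hP, ∀ f : Fin (s + 1) → Fl X, Adm f →
      (Ker f : Set (Fin (s + 1) → X)).Finite := by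
    intro s hs f hf
    by_contra hcon
    exact Nat.find_min hP hs ⟨f, hf, hcon⟩
  generalize Nat.find hP = s0 at f hf hK hmin
  cases s0 with
  | zero =>
    apply specONE specLF X hX hc h3 (f 0) (rad_of_adm_one f hf)
    intro h
    exact hK ((ker_one_finite f).2 h)
  | succ s =>
    have hind := specIND X s f hf (hmin s (Nat.lt_succ_self s)) (by
      intro l hl
      have h := hmin 0 (Nat.succ_pos s) (fun _ => l) (adm_one l hl)
      exact (ker_one_finite (fun _ : Fin 1 => l)).1 h)
    exact specCOD specLF specZST (specTST specNEU) X hX hc h3 s f hf hK hind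

/-- Finitely many orbits if the criterion holds. -/
theorem finite_of_criterion {X : Type u} [Group X] [Countable X] (h : Criterion X) :
    (SpecialOrbits X).Finite :=
  specFNX specLF specSEP specBFX (specKFN specHOMS) (specEXT specDUAL) X h

theorem finite_of_exp_two {X : Type u} [Group X] [Countable X] (h2 : ∀ x : X, x * x = 1) :
    (SpecialOrbits X).Finite := by
  apply Set.Subsingleton.finite
  rintro O ⟨S, hS, rfl⟩ O' ⟨S', hS', rfl⟩
  obtain ⟨α, hα⟩ := one_orbit' h2 S S' hS hS'
  ext T
  constructor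
  · rintro ⟨β, rfl⟩
    refine ⟨α.symm.trans β, ?_⟩
    rw [MulEquiv.coe_trans, Set.image_comp, ← hα, ← Set.image_comp α.symm α]
    simp
  · rintro ⟨β, rfl⟩
    exact ⟨α.trans β, by rw [MulEquiv.coe_trans, Set.image_comp, hα]⟩

/-- The complete classification. -/
theorem classification {X : Type u} [Group X] [Countable X] (hX : HasDagger X) :
    ((SpecialOrbits X).Finite ∨ Cardinal.mk (SpecialOrbits X) = Cardinal.continuum) ∧
      ((SpecialOrbits X).Finite ↔ (∀ x : X, x * x = 1) ∨ Criterion X) ∧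
      ((SpecialOrbits X).Finite →
        (SpecialOrbits X).Nonempty ∧ Cardinal.mk (X ≃* X) = Cardinal.continuum) := by
  have key : (SpecialOrbits X).Finite → ¬ Cardinal.mk (SpecialOrbits X) = Cardinal.continuum := by
    intro h h'
    have h1 : Cardinal.mk (SpecialOrbits X) < Cardinal.aleph0 :=
      Cardinal.mk_lt_aleph0_iff.2 h.to_subtype
    rw [h'] at h1
    exact absurd (h1.trans Cardinal.aleph0_lt_continuum) (lt_irrefl _)
  refine ⟨?_, ⟨?_, ?_⟩, ?_⟩
  · by_cases h2 : ∀ x : X, x * x = 1
    · exact Or.inl (finite_of_exp_two h2)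
    · push Not at h2
      by_cases hcr : Criterion X
      · exact Or.inl (finite_of_criterion hcr)
      · exact Or.inr (card_of_not_criterion hX h2 hcr)
  · intro h
    by_contra hcon
    rw [not_or] at hcon
    obtain ⟨h2, hcr⟩ := hcon
    push Not at h2
    exact key h (card_of_not_criterion hX h2 hcr)
  · rintro (h | h)
    · exact finite_of_exp_two h
    · exact finite_of_criterion h
  · intro h
    refine ⟨?_, ?_⟩
    · obtain ⟨S, hS⟩ := exists_special_of_dagger hX
      exact ⟨_, S, hS, rfl⟩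
    · exact card_aut_of_few hX
        ((Cardinal.mk_lt_aleph0_iff.2 h.to_subtype).trans Cardinal.aleph0_lt_continuum)

end Pool.Agent.Lib.MP_008109_al.PC
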