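import Pool.Agent.Lib.MP_008109_al.AB.Main

/-!
# MP_008109_al: definitions for the complete classification

`base X` is the characteristic subgroup of the elements `x` with `x ^ 3 = 1` that commute with all
commutators and all cubes; it has class at most two.  `Fl X` is the space of the functions
`l : X → ZMod 3` that are additive on `⁅base X, base X⁆`; the values outside do not matter.
-/

set_option autoImplicit false

universe u

namespace Pool.Agent.Lib.MP_008109_al.PC

open Pool.Agent.Lib.MP_008109_al Pool.Agent.Lib.MP_008109_al.AB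
open scoped commutatorElement

section Base

variable {X : Type u} [Group X]

/-- The elements of order dividing three that commute with all commutators and all cubes. -/
def base (X : Type u) [Group X] : Subgroup X where
  carrier := {x | x * x * x = 1 ∧ (∀ c ∈ commutator X, c * x = x * c) ∧
    ∀ y : X, y * y * y * x = x * (y * y * y)}
  one_mem' := ⟨by simp, fun c _ => by simp, fun y => by simp⟩
  mul_mem' := by
    rintro x y ⟨hx3, hxc, hxq⟩ ⟨hy3, hyc, hyq⟩
    have hc : ⁅y, x⁆ ∈ commutator X := Subgroup.commutator_mem_commutator trivial trivial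
    have hyx : y * x = ⁅y, x⁆ * x * y := by
      rw [commutatorElement_def]; group
    have h1 := hxc _ hc
    have h2 := hyc _ hc
    set c := ⁅y, x⁆ with hcdef
    have e1 : y * x * y⁻¹ = c * x := by rw [hyx]; group
    have hcy : y * c * y⁻¹ = c := by rw [← h2]; group
    have e2 : y * (y * x * y⁻¹) * y⁻¹ = c * (c * x) := by
      rw [e1]
      calc y * (c * x) * y⁻¹ = (y * c * y⁻¹) * (y * x * y⁻¹) := by group
        _ = c * (c * x) := by rw [hcy, e1]
    have e3 : y * (y * (y * x * y⁻¹) * y⁻¹) * y⁻¹ = c * (c * (c * x)) := by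
      rw [e2]
      calc y * (c * (c * x)) * y⁻¹ = (y * c * y⁻¹) * ((y * c * y⁻¹) * (y * x * y⁻¹)) := by group
        _ = c * (c * (c * x)) := by rw [hcy, e1]
    have hc3 : c * c * c = 1 := by
      have e4 : y * (y * (y * x * y⁻¹) * y⁻¹) * y⁻¹ = (y * y * y) * x * (y * y * y)⁻¹ := by group
      rw [e4, hy3] at e3
      have e5 : x = c * c * c * x := by
        calc x = 1 * x * 1⁻¹ := by simp
          _ = _ := by rw [e3]; group
      exact (mul_eq_right.1 e5.symm)
    refine ⟨?_, ?_, ?_⟩
    · calc x * y * (x * y) * (x * y) = x * (y * x) * (y * x) * y := by group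
        _ = x * (c * x * y) * (c * x * y) * y := by rw [hyx]
        _ = (x * c) * x * (y * c) * x * y * y := by group
        _ = (c * x) * x * (c * y) * x * y * y := by rw [h1, h2]
        _ = c * x * (x * c) * (y * x) * y * y := by group
        _ = c * x * (c * x) * (c * x * y) * y * y := by rw [← h1, hyx]
        _ = c * (x * c) * (x * c) * x * y * y * y := by group
        _ = c * (c * x) * (c * x) * x * y * y * y := by rw [h1]
        _ = c * c * (x * c) * x * x * (y * y * y) := by group
        _ = c * c * (c * x) * x * x * (y * y * y) := by rw [h1]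
        _ = c * c * c * (x * x * x) * (y * y * y) := by group
        _ = 1 := by rw [hc3, hx3, hy3]; simp
    · intro d hd
      rw [← mul_assoc, hxc d hd, mul_assoc, hyc d hd, mul_assoc]
    · intro g
      rw [← mul_assoc (g * g * g) x y, hxq g, mul_assoc x, hyq g, ← mul_assoc]
  inv_mem' := by
    rintro x ⟨h1, h2, h3⟩
    refine ⟨?_, ?_, ?_⟩
    · have h := congrArg Inv.inv h1
      simpa [mul_inv_rev, mul_assoc] using h
    · intro c hc
      rw [eq_inv_mul_iff_mul_eq, ← mul_assoc, ← h2 c hc, mul_inv_cancel_right]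
    · intro y
      rw [eq_inv_mul_iff_mul_eq, ← mul_assoc, ← h3 y, mul_inv_cancel_right]

theorem mem_base {x : X} : x ∈ base X ↔ x * x * x = 1 ∧ (∀ c ∈ commutator X, c * x = x * c) ∧
    ∀ y : X, y * y * y * x = x * (y * y * y) := Iff.rfl

theorem comm_mem (x y : X) : ⁅x, y⁆ ∈ commutator X :=
  Subgroup.commutator_mem_commutator trivial trivial

/-- Elements of the base commute with all commutators. -/
theorem base_comm {x c : X} (hx : x ∈ base X) (hc : c ∈ commutator X) : c * x = x * c :=
  hx.2.1 c hc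

theorem map_mem_base (α : X ≃* X) {x : X} (hx : x ∈ base X) : α x ∈ base X := by
  obtain ⟨h1, h2, h3⟩ := hx
  have hchar : (commutator X).map (α : X →* X) = commutator X :=
    (Subgroup.characteristic_iff_map_eq.1 inferInstance) α
  refine ⟨by rw [← map_mul, ← map_mul, h1, map_one], ?_, ?_⟩
  · intro c hc
    rw [← hchar] at hc
    obtain ⟨d, hd, rfl⟩ := hc
    change α d * α x = α x * α d
    rw [← map_mul, h2 d hd, map_mul]
  · intro y
    obtain ⟨z, rfl⟩ := α.surjective y
    rw [← map_mul, ← map_mul, ← map_mul, h3 z, map_mul]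

theorem map_mem_base_iff (α : X ≃* X) {x : X} : α x ∈ base X ↔ x ∈ base X := by
  constructor
  · intro h
    have := map_mem_base α.symm h
    simpa using this
  · exact map_mem_base α

instance : (base X).Normal := ⟨fun _ hn g => map_mem_base (MulAut.conj g) hn⟩

/-- The derived subgroup of the base. -/
def dbase (X : Type u) [Group X] : Subgroup X := ⁅base X, base X⁆

theorem dbase_le : dbase X ≤ commutator X := Subgroup.commutator_mono le_top le_top

theorem comm_mem_dbase {x y : X} (hx : x ∈ base X) (hy : y ∈ base X) : ⁅x, y⁆ ∈ dbase X :=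
  Subgroup.commutator_mem_commutator hx hy

/-- additivity of the commutator in the first argument -/
theorem comm_mul_left {x x' y : X} (hx : x ∈ base X) :
    ⁅x * x', y⁆ = ⁅x, y⁆ * ⁅x', y⁆ := by
  have h := base_comm hx (comm_mem x' y)
  have e : ⁅x * x', y⁆ = x * ⁅x', y⁆ * (y * x⁻¹ * y⁻¹) := by
    simp only [commutatorElement_def]; group
  rw [e, ← h, commutatorElement_def x y]
  have h' : ⁅x', y⁆ * (x * y * x⁻¹ * y⁻¹) = (x * y * x⁻¹ * y⁻¹) * ⁅x', y⁆ := by
    have hx' := h
    have h2 : (y * x⁻¹ * y⁻¹) * ⁅x', y⁆ = ⁅x', y⁆ * (y * x⁻¹ * y⁻¹) := by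
      have hy : y * x⁻¹ * y⁻¹ ∈ base X :=
        (inferInstance : (base X).Normal).conj_mem _ ((base X).inv_mem hx) y
      exact (base_comm hy (comm_mem x' y)).symm
    calc ⁅x', y⁆ * (x * y * x⁻¹ * y⁻¹) = (⁅x', y⁆ * x) * (y * x⁻¹ * y⁻¹) := by group
      _ = x * (⁅x', y⁆ * (y * x⁻¹ * y⁻¹)) := by rw [h]; group
      _ = x * ((y * x⁻¹ * y⁻¹) * ⁅x', y⁆) := by rw [h2]
      _ = _ := by group
  rw [← h']
  group

/-- additivity of the commutator in the second argument -/
theorem comm_mul_right {x y y' : X} (hy : y ∈ base X) :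
    ⁅x, y * y'⁆ = ⁅x, y⁆ * ⁅x, y'⁆ := by
  have h := base_comm hy (comm_mem x y')
  have e : ⁅x, y * y'⁆ = ⁅x, y⁆ * (y * ⁅x, y'⁆ * y⁻¹) := by
    simp only [commutatorElement_def]; group
  rw [e, ← h, mul_inv_cancel_right]

end Base

/-- The functions to `ZMod 3` which are additive on the derived subgroup of the base. -/
def Fl (X : Type u) [Group X] : Submodule (ZMod 3) (X → ZMod 3) where
  carrier := {l | ∀ u ∈ dbase X, ∀ v ∈ dbase X, l (u * v) = l u + l v}
  zero_mem' := by
    intro u _ v _
    simp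
  add_mem' := by
    intro a b ha hb u hu v hv
    simp only [Pi.add_apply]
    rw [ha u hu v hv, hb u hu v hv]
    ring
  smul_mem' := by
    intro c a ha u hu v hv
    simp only [Pi.smul_apply, smul_eq_mul]
    rw [ha u hu v hv]
    ring

section Fun

variable {X : Type u} [Group X]

theorem fl_mul (l : Fl X) {u v : X} (hu : u ∈ dbase X) (hv : v ∈ dbase X) :
    l.1 (u * v) = l.1 u + l.1 v := l.2 u hu v hv

theorem fl_one (l : Fl X) : l.1 1 = 0 := by
  have h := fl_mul l (dbase X).one_mem (dbase X).one_mem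
  rw [mul_one] at h
  simpa using h

theorem fl_inv (l : Fl X) {u : X} (hu : u ∈ dbase X) : l.1 u⁻¹ = -l.1 u := by
  have h := fl_mul l hu ((dbase X).inv_mem hu)
  rw [mul_inv_cancel, fl_one l] at h
  exact (neg_eq_of_add_eq_zero_right h.symm).symm

theorem fl_left (l : Fl X) {x x' y : X} (hx : x ∈ base X) (hx' : x' ∈ base X) (hy : y ∈ base X) :
    l.1 ⁅x * x', y⁆ = l.1 ⁅x, y⁆ + l.1 ⁅x', y⁆ := by
  rw [comm_mul_left hx, fl_mul l (comm_mem_dbase hx hy) (comm_mem_dbase hx' hy)]

theorem fl_right (l : Fl X) {x y y' : X} (hx : x ∈ base X) (hy : y ∈ base X) (hy' : y' ∈ base X) :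
    l.1 ⁅x, y * y'⁆ = l.1 ⁅x, y⁆ + l.1 ⁅x, y'⁆ := by
  rw [comm_mul_right hy, fl_mul l (comm_mem_dbase hx hy) (comm_mem_dbase hx hy')]

theorem fl_one_left (l : Fl X) (y : X) : l.1 ⁅(1 : X), y⁆ = 0 := by
  rw [commutatorElement_one_left, fl_one l]

theorem fl_inv_left (l : Fl X) {x y : X} (hx : x ∈ base X) (hy : y ∈ base X) :
    l.1 ⁅x⁻¹, y⁆ = -l.1 ⁅x, y⁆ := by
  have h := fl_left l hx ((base X).inv_mem hx) hy
  rw [mul_inv_cancel, fl_one_left l] at h
  exact (neg_eq_of_add_eq_zero_right h.symm).symm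

theorem fl_one_right (l : Fl X) (x : X) : l.1 ⁅x, (1 : X)⁆ = 0 := by
  rw [commutatorElement_one_right, fl_one l]

theorem fl_inv_right (l : Fl X) {x y : X} (hx : x ∈ base X) (hy : y ∈ base X) :
    l.1 ⁅x, y⁻¹⁆ = -l.1 ⁅x, y⁆ := by
  have h := fl_right l hx hy ((base X).inv_mem hy)
  rw [mul_inv_cancel, fl_one_right l] at h
  exact (neg_eq_of_add_eq_zero_right h.symm).symm

/-- The radical of the form `l ⁅x, y⁆` on the base. -/
def rad (l : Fl X) : Subgroup X where
  carrier := {x | x ∈ base X ∧ ∀ y ∈ base X, l.1 ⁅x, y⁆ = 0}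
  one_mem' := ⟨(base X).one_mem, fun y _ => fl_one_left l y⟩
  mul_mem' := by
    rintro x x' ⟨hx, h⟩ ⟨hx', h'⟩
    refine ⟨(base X).mul_mem hx hx', fun y hy => ?_⟩
    rw [fl_left l hx hx' hy, h y hy, h' y hy, add_zero]
  inv_mem' := by
    rintro x ⟨hx, h⟩
    refine ⟨(base X).inv_mem hx, fun y hy => ?_⟩
    rw [fl_inv_left l hx hy, h y hy, neg_zero]

theorem mem_rad {l : Fl X} {x : X} : x ∈ rad l ↔ x ∈ base X ∧ ∀ y ∈ base X, l.1 ⁅x, y⁆ = 0 :=
  Iff.rfl

/-- The tuples `k` in the base with `∑ j, f j ⁅k j, y⁆ = 0` for all `y` in the base. -/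
def Ker {s : ℕ} (f : Fin s → Fl X) : Subgroup (Fin s → X) where
  carrier := {k | (∀ j, k j ∈ base X) ∧ ∀ y ∈ base X, ∑ j, (f j).1 ⁅k j, y⁆ = 0}
  one_mem' := ⟨fun _ => (base X).one_mem, fun y _ => by simp [fl_one]⟩
  mul_mem' := by
    rintro k k' ⟨hk, h⟩ ⟨hk', h'⟩
    refine ⟨fun j => (base X).mul_mem (hk j) (hk' j), fun y hy => ?_⟩
    have : ∀ j, (f j).1 ⁅(k * k') j, y⁆ = (f j).1 ⁅k j, y⁆ + (f j).1 ⁅k' j, y⁆ :=
      fun j => fl_left (f j) (hk j) (hk' j) hy
    simp only [this, Finset.sum_add_distrib, h y hy, h' y hy, add_zero]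
  inv_mem' := by
    rintro k ⟨hk, h⟩
    refine ⟨fun j => (base X).inv_mem (hk j), fun y hy => ?_⟩
    have : ∀ j, (f j).1 ⁅k⁻¹ j, y⁆ = -(f j).1 ⁅k j, y⁆ := fun j => fl_inv_left (f j) (hk j) hy
    simp only [this, Finset.sum_neg_distrib, h y hy, neg_zero]

theorem mem_Ker {s : ℕ} {f : Fin s → Fl X} {k : Fin s → X} : k ∈ Ker f ↔
    (∀ j, k j ∈ base X) ∧ ∀ y ∈ base X, ∑ j, (f j).1 ⁅k j, y⁆ = 0 := Iff.rfl

/-- Every nontrivial combination has a radical of infinite index. -/
def Adm {s : ℕ} (f : Fin s → Fl X) : Prop :=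
  ∀ c : Fin s → ZMod 3, c ≠ 0 → (rad (∑ j, c j • f j)).index = 0

/-- For each nontrivial combination only finitely many kernel tuples combine into the common
radical. -/
def Ind {s : ℕ} (f : Fin s → Fl X) : Prop :=
  ∀ c : Fin s → ZMod 3, c ≠ 0 →
    {k : Fin s → X | k ∈ Ker f ∧ ∀ i, ∀ y ∈ base X, ∑ j, c j * (f i).1 ⁅k j, y⁆ = 0}.Finite

end Fun

/-- The criterion: the derived subgroup and the set of cubes are finite, and the centralisers of
the finite subgroups `F` have, up to a constant factor, the largest possible index `|F| ^ d`, where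
`|M'| ≤ 3 ^ d` for some subgroup `M` of finite index. -/
def Criterion (X : Type u) [Group X] : Prop :=
  (commutator X : Set X).Finite ∧ {y : X | ∃ x : X, y = x * x * x}.Finite ∧
    ∃ (d c : ℕ) (M : Subgroup X), M.index ≠ 0 ∧ Nat.card (⁅M, M⁆ : Subgroup X) ≤ 3 ^ d ∧
      ∀ F : Subgroup X, (F : Set X).Finite →
        Nat.card F ^ d ≤ c * (Subgroup.centralizer (F : Set X)).index

/-! ## Modules -/

/-- LF: a group with finite derived subgroup and finite set of cubes is locally finite, all its
conjugacy classes are finite (`fcc_eq_top`), and the base has finite index.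
Proof. (1) Every element is torsion: the cubes of its powers take finitely many values. Let `G` be
generated by a finite set `F`; its image in the abelianization is finitely generated, abelian and
torsion, hence finite, and `X → Abelianization X` has finite kernel, so `G` is finite.
(2) Centralisers of finite sets have finite index (`cent_finiteIndex` in AB/Dsets, or `fcc_eq_top`);
let `C` be the centraliser of the union of the commutator subgroup and the set of cubes, of finite
index. On `C` the map `x ↦ x * x * x` is a homomorphism to `X`: with `c = ⁅y, x⁆`, which commutes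
with `x` and `y`, `(x y)³ = x³ y³ c³` and `c³ = ⁅y³, x⁆ = 1` because the cube `y³` commutes with `x`
(compare the proof of `mul_mem'` of `base`). Its range is finite, so its kernel, which is contained
in `base X`, has finite index in `C`. -/
def SpecLF : Prop :=
  ∀ (X : Type u) [Group X], (commutator X : Set X).Finite →
    {y : X | ∃ x : X, y = x * x * x}.Finite →
    LocFin X ∧ FCc X = ⊤ ∧ (base X).index ≠ 0

/-- HOMS: at most `|G : C|` homomorphisms `G → ZMod 3` vanish on `C`.
Proof. Compose with an injective homomorphism from `Multiplicative (ZMod 3)` to the units of the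
complex numbers (a primitive cube root of unity): the monoid homomorphisms `G →* ℂ` so obtained are
distinct, hence linearly independent in `G → ℂ` (`linearIndependent_monoidHom`), and they are constant on
the left cosets of `C`, i.e. lie in the image of the space `(G ⧸ C) → ℂ` of dimension `C.index`
under the injective linear map induced by `G → G ⧸ C`. -/
def SpecHOMS : Prop :=
  ∀ (G : Type u) [Group G] (C : Subgroup G), C.index ≠ 0 → ∀ T : Finset (G → ZMod 3),
    (∀ h ∈ T, (∀ x y, h (x * y) = h x + h y) ∧ ∀ c ∈ C, h c = 0) → T.card ≤ C.index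

/-- DUAL: a homomorphism `η : G → ZMod 3`, `G` finite, which vanishes on the common kernel of a
family of homomorphisms `w y` closed under addition is a member of the family.
Proof. Let `V` be the finite set of the functions `g ↦ w y g`; it is an additive subgroup, so a
`ZMod 3`-subspace of `G → ZMod 3`. Let `I` be the subspace of `Y → ZMod 3` formed by the
functions `(fun y => w y g)`, `g ∈ G` (closed under addition). `η` induces a well defined additive,
hence linear map `η' : I → ZMod 3`. For `y ∈ Y` let `e y : I → ZMod 3` be evaluation at `y`. The common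
kernel of the `e y` is zero, so `η'` is in the span of finitely many `e y`
(`mem_span_of_iInf_ker_le_ker`, for the finite set of the distinct `e y`: `I` is finite), and the set of
all `e y` is closed under addition (`e (y * y') = e y + e y'`), contains `e 1 = 0`, hence is closed under
`ZMod 3` combinations: `η' = e y`. -/
def SpecDUAL : Prop :=
  ∀ (G Y : Type u) [Group G] [Finite G] [Group Y] (w : Y → G → ZMod 3),
    (∀ y y' g, w (y * y') g = w y g + w y' g) → (∀ y g g', w y (g * g') = w y g + w y g') →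
    ∀ η : G → ZMod 3, (∀ g g', η (g * g') = η g + η g') →
    (∀ g, (∀ y, w y g = 0) → η g = 0) → ∃ y, ∀ g, η g = w y g

/-- NEU: B. H. Neumann's lemma inside a subgroup `K`. Proof: otherwise `K` is covered by finitely
many left cosets of subgroups of infinite index and by finitely many points, i.e. left cosets of the
trivial subgroup, which has infinite index in `K` too; contradiction to
`Subgroup.exists_finiteIndex_of_leftCoset_cover` in the group `K` (a nonempty set `K ∩ a P` is a
left coset of `P.subgroupOf K`). -/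
def SpecNEU : Prop :=
  ∀ (G : Type u) [Group G] (K : Subgroup G), (K : Set G).Infinite →
    ∀ T : Finset (G × Subgroup G), (∀ p ∈ T, p.2.relIndex K = 0) → ∀ E : Finset G,
    ∃ t ∈ K, t ∉ E ∧ ∀ p ∈ T, p.1⁻¹ * t ∉ p.2

/-- SEP: functionals separating the points of the derived subgroup of a subgroup `M` of the base.
Proof. `dbase X` is a finite abelian group of exponent three: it is generated by the elements
`⁅x, y⁆` (`x`, `y` in the base), which are central in the base, lie in the commutator subgroup, and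
`⁅x, y⁆ ^ 3 = ⁅x ^ 3, y⁆ = 1` by `comm_mul_left`. So `Additive (dbase X)` is a vector space over `ZMod 3`
(`AddCommGroup.zmodModule`), `⁅M, M⁆` gives a subspace `W` of cardinality at most `3 ^ d`, i.e. dimension
at most `d`; take the coordinates of a basis of `W` (filled up with zeros), extend them to linear
functionals on the whole space (`LinearMap.exists_extend`), and extend by zero to `X`. -/
def SpecSEP : Prop :=
  ∀ (X : Type u) [Group X], (commutator X : Set X).Finite → ∀ (M : Subgroup X), M ≤ base X →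
    ∀ d : ℕ, Nat.card (⁅M, M⁆ : Subgroup X) ≤ 3 ^ d →
    ∃ f : Fin d → Fl X, ∀ u ∈ (⁅M, M⁆ : Subgroup X), (∀ j, (f j).1 u = 0) → u = 1

/-- BFX: back and forth with an extension hypothesis. This is `AB.orbit_central` (AB/Central.lean)
with `Z` replaced by `M`; adapt that file.
Proof. `Fit F1 M S T A` for a subgroup `A` of `X × X`: finite, `p.1 = 1 ↔ p.2 = 1`,
`p.1 ∈ S ↔ p.2 ∈ T`, `(x, x) ∈ A` for `x ∈ F1`, and `p.1⁻¹ * p.2 ∈ M` for all `p ∈ A`. One step: let
`x ∈ M` not be a first coordinate. By hypothesis there is `z0 ∈ M` with `⁅p.2, z0⁆ = ⁅p.1, x⁆` for all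
`p ∈ A`. The elements of `M` commuting with all `p.2`, `p ∈ A`, form a subgroup of finite index
(finitely many conjugates: `⁅b, m⁆` is in the finite commutator subgroup); let `N` be its normal core.
For `n ∈ N` the element `z = n * z0` has the same property (`n` commutes with `⁅p.1, x⁆ ∈ F1`, and
`(c, c) ∈ A` for `c ∈ F1`). `CENM.ext_normal` for `N` and the sets `{u * z0⁻¹}`, `{v * z0⁻¹}` gives `n ∈ N` such that
`z = n * z0` is not a second coordinate and `z * p.2 ∈ T ↔ x * p.1 ∈ S` for all `p ∈ A`. The pair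
`q = (x, z)` normalises `A`: `q p q⁻¹ = (c, c) * p` with `c = ⁅x, p.1⁆ = ⁅z, p.2⁆` in `commutator X ≤ F1`;
and `q * q * q = 1`. So `A ∪ A q ∪ A q⁻¹` is a subgroup, and it is again Fit. For general `v = f * m`
first adjoin `m`. The other direction by swapping the coordinates (the hypothesis is symmetric).
Then `Order.idealOfCofinals` as in `orbit_central`. -/
def SpecBFX : Prop :=
  ∀ (X : Type u) [Group X] [Countable X] (M F1 : Subgroup X), M.Normal → M.index ≠ 0 →
    (∀ m ∈ M, m * m * m = 1) → (F1 : Set X).Finite → commutator X ≤ F1 →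
    (∀ x, ∃ f ∈ F1, ∃ m ∈ M, x = f * m) →
    (∀ A : Subgroup (X × X), (A : Set (X × X)).Finite → (∀ p ∈ A, p.1 = 1 ↔ p.2 = 1) →
      (∀ x ∈ F1, (x, x) ∈ A) → (∀ p ∈ A, p.1⁻¹ * p.2 ∈ M) →
      ∀ x ∈ M, ∃ z ∈ M, ∀ p ∈ A, ⁅p.2, z⁆ = ⁅p.1, x⁆) →
    ∀ S T : Set X, IsSpecial S → IsSpecial T → (∀ x ∈ F1, x ∈ S ↔ x ∈ T) →
    ∃ α : X ≃* X, (∀ x ∈ F1, α x = x) ∧ α '' S = T

/-- KFN: finiteness of the kernel (uses HOMS). `H ≤ M ≤ base X`, both of finite index.
Proof. Let `F ≤ M` be a finite subgroup, `G = (Fin d → F)`, `C ≤ G` the subgroup of the tuples `k` with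
`∑ j, f j ⁅k j, y⁆ = 0` for all `y ∈ H`. For `y ∈ H` the map `g ↦ ∑ j, f j ⁅g j, y⁆` is a
homomorphism `G → ZMod 3` which vanishes on `C`; by HOMS there are at most `|G : C|` of these maps. If `y`
and `y'` give the same map then `f j ⁅b, y⁆ = f j ⁅b, y'⁆` for all `j` and `b ∈ F` (take `g` with one
nontrivial coordinate), hence `⁅b, y⁆ = ⁅b, y'⁆` (the `f j` separate the points of `⁅M, M⁆`), so
`y'⁻¹ * y` commutes with all `b ∈ F`. So there are exactly `|H : H ∩ C_X(F)|` maps, and
`|X : C_X(F)| ≤ |X : H| |H : H ∩ C_X(F)| ≤ |X : H| |F| ^ d / |C|`. With `|F| ^ d ≤ c |X : C_X(F)|` this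
gives `|C| ≤ c |X : H|` for every finite `F ≤ M`. If the set of the statement had more than `c |X : H|`
elements, choose that many and let `F` be the (finite, `LocFin`) subgroup generated by their
coordinates: contradiction. -/
def SpecKFN : Prop :=
  ∀ (X : Type u) [Group X], LocFin X → ∀ (M H : Subgroup X), M ≤ base X → H ≤ M →
    H.index ≠ 0 → ∀ (d c : ℕ) (f : Fin d → Fl X),
    (∀ u ∈ (⁅M, M⁆ : Subgroup X), (∀ j, (f j).1 u = 0) → u = 1) →
    (∀ F : Subgroup X, (F : Set X).Finite →
      Nat.card F ^ d ≤ c * (Subgroup.centralizer (F : Set X)).index) →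
    {k : Fin d → X | (∀ j, k j ∈ M) ∧ ∀ y ∈ H, ∑ j, (f j).1 ⁅k j, y⁆ = 0}.Finite

/-- EXT: the extension hypothesis of BFX (uses DUAL). Here `F0 ≤ F1`, `commutator X ≤ F0`,
`X = F0 M`, `M ≤ base X` normal, and all kernel tuples with respect to `M ∩ C(F0)` have their
coordinates in `F1`.
Proof. Let `A`, `x` be given, `H0 = M ∩ C_X(F0)`, `AM` the subgroup of the `p ∈ A` with `p.1 ∈ M` (then
`p.2 = p.1 * (p.1⁻¹ * p.2) ∈ M`), `h p = ⁅p.2, x⁆⁻¹ * ⁅p.1, x⁆ ∈ ⁅M, M⁆` for `p ∈ AM`, multiplicative
in `p` (`comm_mul_left`; everything in `⁅M, M⁆` is central in `base X`). Apply DUAL with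
`G = (Fin d → AM)`, `Y = H0`, `w y g = ∑ j, f j ⁅(g j).2, y⁆`, `η g = ∑ j, f j (h (g j))`. If `w y g = 0` for
all `y ∈ H0`, then all `(g j).2 ∈ F1`, so `((g j).2, (g j).2) ∈ A`, and `(g j).1 = (g j).2` (`p.1 = 1 ↔ p.2 = 1`
for the quotient), `h (g j) = 1` and `η g = 0`. So there is `y ∈ H0` with `f j (h p) = f j ⁅p.2, y⁆` for all `j`
and `p ∈ AM` (tuples with one nontrivial coordinate), hence `h p = ⁅p.2, y⁆`. Put `z = x * y`. For
`p ∈ AM`: `⁅p.2, x * y⁆ = ⁅p.2, x⁆ * ⁅p.2, y⁆ = ⁅p.1, x⁆` (`comm_mul_right`). For `a ∈ F0`: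
`⁅a, x * y⁆ = ⁅a, x⁆ * ⁅a, y⁆ = ⁅a, x⁆`. A general `p ∈ A` is `(a, a) * p'` with `a ∈ F0`, `p' ∈ AM`
(`p.1 = a * m`, `m ∈ M`), and `⁅a * b, z⁆ = a * ⁅b, z⁆ * a⁻¹ * ⁅a, z⁆` in every group. -/
def SpecEXT : Prop :=
  ∀ (X : Type u) [Group X] (M F0 F1 : Subgroup X), M.Normal → M ≤ base X →
    commutator X ≤ F0 → F0 ≤ F1 → (∀ x, ∃ a ∈ F0, ∃ m ∈ M, x = a * m) →
    ∀ (d : ℕ) (f : Fin d → Fl X),
    (∀ u ∈ (⁅M, M⁆ : Subgroup X), (∀ j, (f j).1 u = 0) → u = 1) →
    (∀ k : Fin d → X, (∀ j, k j ∈ M) →
      (∀ y ∈ M, (∀ a ∈ F0, a * y = y * a) → ∑ j, (f j).1 ⁅k j, y⁆ = 0) → ∀ j, k j ∈ F1) →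
    ∀ A : Subgroup (X × X), (A : Set (X × X)).Finite → (∀ p ∈ A, p.1 = 1 ↔ p.2 = 1) →
      (∀ x ∈ F1, (x, x) ∈ A) → (∀ p ∈ A, p.1⁻¹ * p.2 ∈ M) →
      ∀ x ∈ M, ∃ z ∈ M, ∀ p ∈ A, ⁅p.2, z⁆ = ⁅p.1, x⁆

/-- FNX: the criterion gives finitely many orbits (uses LF, SEP, BFX, KFN, EXT).
Proof. Let `M1` be the subgroup of the criterion and `M` the normal core of `M1 ⊓ base X` (finite
index by LF), so `⁅M, M⁆ ≤ ⁅M1, M1⁆` has at most `3 ^ d` elements; `f` from SEP. Let `F0` be the finite
subgroup generated by `commutator X` and representatives of the cosets of `M`; `H = M ∩ C_X(F0)` has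
finite index (LF, `cent_finiteIndex`). By KFN the kernel with respect to `H` is finite; let `F1` be the finite
subgroup generated by `F0` and all its coordinates. EXT gives the hypothesis of BFX, and BFX that
special subsets with the same trace on `F1` are in one orbit; conclude by `AB.finite_of_trace`. -/
def SpecFNX : Prop :=
  ∀ (X : Type u) [Group X] [Countable X], Criterion X → (SpecialOrbits X).Finite

/-- ZST: generic elements over a finite subgroup `L` (adapt AB/GenNfc, AB/GenFcCore: `exists_avoid`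
and `Avoidable`).
Proof. The bad set is avoidable: `L` is finite; the sets `{z | (z b) (z b) = c}`, `c ≠ 1`
(`avoidable_sqrt`); and for every nonempty set `I` of indices, `e : I → {1, -1}`, `b j ∈ L` (`j ∈ I`) and
`l j ∈ L` (`j ∉ I`) the set `B` of the `z` such that the tuple `k j = (z * b j) ^ (e j)` (`j ∈ I`),
`k j = l j` (`j ∉ I`) is in `Ker f`: if `z, z' ∈ B` put `w = z⁻¹ * z'`; for `j ∈ I` both `z * b j` and
`z' * b j = (z * b j) * ((b j)⁻¹ * w * b j)` are in `base X`, so `w ∈ base X` (normal), `(b j)⁻¹ * w * b j = w * c'`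
with `c'` a commutator in the base, so `⁅z' * b j, y⁆ = ⁅z * b j, y⁆ * ⁅w, y⁆` for `y ∈ base X`, and therefore
`∑ j ∈ I, e j * f j ⁅w, y⁆ = 0`: `w` is in the radical of the nontrivial combination `∑ j ∈ I, e j • f j`,
a subgroup of infinite index. So `B` is in one left coset of it (`avoidable_coset`). `exists_avoid` gives `z` in the
base (subgroup of finite index) outside the bad set. -/
def SpecZST : Prop :=
  ∀ (X : Type u) [Group X], HasDagger X → (base X).index ≠ 0 → ∀ (s : ℕ) (f : Fin s → Fl X),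
    Adm f → ∀ L : Subgroup X, (L : Set X).Finite →
    ∃ z ∈ base X, z ∉ L ∧ (∀ b ∈ L, ∀ c ∈ L, c ≠ 1 → (z * b) * (z * b) ≠ c) ∧
      ∀ k ∈ Ker f, (∀ j, k j ∈ L ∨ ∃ b ∈ L, k j = z * b ∨ k j = (z * b)⁻¹) → ∀ j, k j ∈ L

/-- TST: generic kernel tuples over a finite subgroup `L` (uses NEU).
Proof. All in the group `Fin s → X`. For a nonempty set `I` of indices, `a : I → Fin s`,
`e : I → {1, -1}` let `P` be the subgroup of the `t ∈ Ker f` with `∑ j ∈ I, e j * f j ⁅t (a j), y⁆ = 0` for all
`y ∈ base X`. Let `K1` be the subgroup of the `t ∈ Ker f` whose coordinates commute with all elements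
of `L` and which lie in all those `P` that have finite index in `Ker f`; it has finite index in `Ker f` (all
centralisers of finite sets have finite index, `FCc X = ⊤`), so it is infinite. Avoid: (i) for `c ≠ 0` and
`b ∈ L`, `b ∈ base X`: the `t ∈ Ker f` with `∑ j, c j * f i ⁅t j, y⁆ = f i ⁅b, y⁆` for all `i`, `y ∈ base X`:
a finite set, since quotients of two members are in the finite set of `Ind f`; (ii) for `P` of infinite
index in `Ker f` (then also in `K1`) and `c j ∈ L` (all `j`): the `t ∈ Ker f` with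
`∑ j ∈ I, e j * f j ⁅t (a j), y⁆ + ∑ j, f j ⁅c j, y⁆ = 0` for all `y`: a left coset of `P` or empty. NEU gives `t ∈ K1`.
Let `k ∈ Ker f` be as in the last clause and `I` the set of the `j` with `k j ∉ L`; assume `I` is not empty,
`k j = c j * t (a j) ^ (e j)` for `j ∈ I` and `c j = k j` for `j ∉ I`. Then `t` is in the set (ii) for
`(I, a, e, c)`, so `P` has finite index and `t ∈ P`, hence `c ∈ Ker f` and `q ∈ Ker f`, where
`q j = t (a j) ^ (e j)` for `j ∈ I` and `q j = 1` otherwise. If `I` is not everything, or `a` is not injective,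
some nontrivial combination of the coordinates of `q` is trivial, so `q` is in the set of `Ind f`, its
coordinates are in `L` by hypothesis, `t (a j) ∈ L`, contradiction to (i) (`c` = unit vector). So `a` is a
permutation. -/
def SpecTST : Prop :=
  ∀ (X : Type u) [Group X], FCc X = ⊤ → ∀ (s : ℕ) (f : Fin (s + 1) → Fl X),
    (Ker f : Set (Fin (s + 1) → X)).Infinite → Ind f → ∀ L : Subgroup X, (L : Set X).Finite →
    (∀ c : Fin (s + 1) → ZMod 3, c ≠ 0 → ∀ k ∈ Ker f,
      (∀ i, ∀ y ∈ base X, ∑ j, c j * (f i).1 ⁅k j, y⁆ = 0) → ∀ j, k j ∈ L) →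
    ∃ t ∈ Ker f, (∀ i, ∀ b ∈ L, b * t i = t i * b) ∧
      (∀ c : Fin (s + 1) → ZMod 3, c ≠ 0 → ∀ b ∈ L, b ∈ base X →
        ∃ i, ∃ y ∈ base X, ∑ j, c j * (f i).1 ⁅t j, y⁆ ≠ (f i).1 ⁅b, y⁆) ∧
      ∀ k ∈ Ker f, (∀ j, k j ∈ L ∨ ∃ b ∈ L, ∃ i, k j = b * t i ∨ k j = b * (t i)⁻¹) →
        (∀ j, k j ∈ L) ∨ ∃ (σ : Equiv.Perm (Fin (s + 1))) (c : Fin (s + 1) → X), c ∈ Ker f ∧
          (∀ j, c j ∈ L) ∧ ∀ j, k j = c j * t (σ j) ∨ k j = c j * (t (σ j))⁻¹

/-- COD (helper58): the coding theorem (uses LF, ZST, TST). -/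
def SpecCOD : Prop :=
  ∀ (X : Type u) [Group X] [Countable X], HasDagger X → (commutator X : Set X).Finite →
    {y : X | ∃ x : X, y = x * x * x}.Finite → ∀ (s : ℕ) (f : Fin (s + 2) → Fl X), Adm f →
    (Ker f : Set (Fin (s + 2) → X)).Infinite → Ind f →
    Cardinal.mk (SpecialOrbits X) = Cardinal.continuum

/-- ONE: the case of one functional (uses LF). Proof: `rad l` is an infinite subgroup of infinite
index, invariant under all automorphisms that fix the finite set `commutator X` pointwise
(`map_mem_base_iff`, `α ⁅x, y⁆ = ⁅α x, α y⁆ = ⁅x, y⁆`): `AB.card_of_invariant_subgroup`. -/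
def SpecONE : Prop :=
  ∀ (X : Type u) [Group X] [Countable X], HasDagger X → (commutator X : Set X).Finite →
    {y : X | ∃ x : X, y = x * x * x}.Finite → ∀ l : Fl X, (rad l).index = 0 →
    (rad l : Set X).Infinite → Cardinal.mk (SpecialOrbits X) = Cardinal.continuum

/-- IND: minimality gives `Ind`.
Proof. Let `c ≠ 0`, `c j0 ≠ 0`. For `k` in the set of `Ind f` put `k' i = k (j0.succAbove i)` and
`f' i = f (j0.succAbove i) - (c j0)⁻¹ * c (j0.succAbove i) • f j0`. From `∑ j, c j * f j0 ⁅k j, y⁆ = 0` and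
`∑ j, f j ⁅k j, y⁆ = 0` (`Fin.sum_univ_succAbove`) follows `k' ∈ Ker f'`. `f'` is admissible: a combination
`∑ i, c' i • f' i` is `∑ j, c'' j • f j` with `c'' (j0.succAbove i) = c' i`. So `Ker f'` is finite and `k'` takes
finitely many values. For fixed `k'` the values of `k j0` lie in one left coset of the finite subgroup of
the common radical (contained in `rad (f 0)`): for two such `k`, `c j0 * f i ⁅k j0, y⁆` is the same for all `i`, `y`;
`rad (f 0)` has infinite index (`Adm`, unit vector), so it is finite by the last hypothesis. -/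
def SpecIND : Prop :=
  ∀ (X : Type u) [Group X] (s : ℕ) (f : Fin (s + 2) → Fl X), Adm f →
    (∀ f' : Fin (s + 1) → Fl X, Adm f' → (Ker f' : Set (Fin (s + 1) → X)).Finite) →
    (∀ l : Fl X, (rad l).index = 0 → (rad l : Set X).Finite) → Ind f

/-- CST: if all kernels are finite then the criterion holds (uses LF, HOMS, SEP).
Proof. (1) For admissible `f : Fin d → Fl X` the restrictions of the `3 ^ d` combinations to the finite
set `dbase X` are distinct (a combination that vanishes on `dbase X` has radical `base X`, of finite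
index), so `3 ^ d ≤ 3 ^ |dbase X|`; take `f` admissible with `d` maximal (`d = 0` is admissible).
(2) Then for every `l ∈ Fl X` there is `c` with `rad (l - ∑ j, c j • f j)` of finite index: otherwise `Fin.cons l f`
is admissible (`rad` does not change if the functional is multiplied by a nonzero scalar). (3) Let `M` be the
intersection of all `rad l` of finite index; `rad l` depends only on the restriction of `l` to `dbase X`, so
this is a finite intersection and `M` has finite index. (4) If `u ∈ ⁅M, M⁆` and `f j u = 0` for all `j` then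
`l u = 0` for all `l ∈ Fl X`: `l - ∑ j, c j • f j` vanishes on all `⁅x, y⁆` with `x, y ∈ M` and so on
`⁅M, M⁆`; hence `u = 1` by SEP (for `base X`). So `⁅M, M⁆` has at most `3 ^ d` elements. (5) Let `F ≤ base X` be a
finite subgroup. The map from `Fin d → F` to the functions `base X → ZMod 3`,
`g ↦ (y ↦ ∑ j, f j ⁅g j, y⁆)` has fibres of size at most `|Ker f|` (finite by hypothesis; quotients of two
elements of a fibre are in `Ker f`), and its values are homomorphisms vanishing on `base X ∩ C(F)`, so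
by HOMS there are at most `|base X : base X ∩ C(F)| ≤ |X : C(F)|`. So `|F| ^ d ≤ |Ker f| |X : C(F)|`. For a
general finite `F ≤ X` apply this to `F ⊓ base X`, of index at most `|X : base X|` in `F`, with
`C(F) ≤ C(F ⊓ base X)`: the criterion holds with the constant `|X : base X| ^ d |Ker f|`. -/
def SpecCST : Prop :=
  ∀ (X : Type u) [Group X], (commutator X : Set X).Finite →
    {y : X | ∃ x : X, y = x * x * x}.Finite →
    (∀ (s : ℕ) (f : Fin (s + 1) → Fl X), Adm f → (Ker f : Set (Fin (s + 1) → X)).Finite) →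
    Criterion X

end Pool.Agent.Lib.MP_008109_al.PC
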